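import Pool.Agent.Lib.PolyTime.Typed

/-!
# From `PT` to `Turing.TM2ComputableInPolyTime`

* `PT.tm` : input and output are the codes of the encodings of the arguments and values;
* `PT.tmBool` : the same for Boolean functions, with the output encoded by `encodeBool`;
* `PT.tmRaw` : functions on strings of Booleans, with the strings themselves as input and output;
* `tmStr` : the general form: the input `a` is given by the string `ea a` and the output `b` by the
  string `eb b`; the program works with `enc (ea a)` and `enc (eb (f a))` (lists of Booleans).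
-/

set_option autoImplicit false

namespace Pool.Agent.PolyTime

open Turing

/-- general criterion -/
theorem computable_of {α β : Type} (ea : α → List Bool) (eb : β → List Bool) (f : α → β)
    (c : Cmd) (C k : ℕ)
    (h : ∀ a, Ex c (st (ea a) [] [] []) (st (eb (f a)) [] [] []) (C * (ea a).length ^ k + C)) :
    Nonempty (TM2ComputableInPolyTime ea eb f) := by
  have h1 : ∀ a, Nonempty (TM2OutputsInTime (machine c) (ea a) (some (eb (f a)))
      (C * (ea a).length ^ k + C + 1)) := by
    intro a
    obtain ⟨t, ht, hr⟩ := h a
    obtain ⟨⟨o⟩⟩ := machine_outputs hr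
    exact ⟨⟨o, le_trans (by assumption) (by omega)⟩⟩
  refine ⟨⟨⟨machine c, Equiv.refl _, Equiv.refl _⟩,
    Polynomial.C C * Polynomial.X ^ k + Polynomial.C (C + 1), fun a => ?_⟩⟩
  have e3 : (Polynomial.C C * Polynomial.X ^ k + Polynomial.C (C + 1)).eval (ea a).length =
      C * (ea a).length ^ k + C + 1 := by
    simp [add_assoc]
  have e1 : List.map id (ea a) = ea a := List.map_id _
  have e2 : List.map id (eb (f a)) = eb (f a) := List.map_id _
  have o := Classical.choice (h1 a)
  rw [← e3] at o
  obtain ⟨⟨n, hn⟩, hle⟩ := o
  refine ⟨⟨n, ?_⟩, hle⟩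
  rw [← e1, ← e2] at hn
  exact hn

variable {α β : Type} [Enc α] [Enc β]

/-- functions in `PT` are computable in polynomial time by a machine of Mathlib -/
theorem PT.tm {f : α → β} (h : PT f) :
    Nonempty (TM2ComputableInPolyTime (fun a => code (enc a)) (fun b => code (enc b)) f) := by
  obtain ⟨c, T, ⟨C, k, hT⟩, hF⟩ := h
  refine computable_of _ _ f c C k fun a => ?_
  have h1 := hF a []
  rw [List.append_nil, List.append_nil] at h1
  have h2 : T a ≤ C * (enc a).size ^ k := hT a
  refine h1.mono ?_
  rw [length_code]
  omega

/-- convert the code of a Boolean into a single symbol -/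
def boolOut : Cmd :=
  .case .m .skip .skip (.seq (.pop .m) (.seq (.pop .m) (.seq (.pop .m) (.push .m true))))

lemma boolOut_run (b : Bool) :
    Ex boolOut (st (code (enc b)) [] [] []) (st (Computability.encodeBool b) [] [] []) 5 := by
  cases b with
  | false => exact (Ex.case_false (l := []) rfl (Ex.skip _)).mono (by omega)
  | true => exact (Ex.case_true (l := [false, false]) rfl
      (Ex.pop_m.seq (Ex.pop_m.seq (Ex.pop_m.seq Ex.push_m)))).mono (by omega)

/-- decision procedures -/
theorem PT.tmBool {f : α → Bool} (h : PT f) :
    Nonempty (TM2ComputableInPolyTime (fun a => code (enc a)) Computability.encodeBool f) := by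
  obtain ⟨c, T, ⟨C, k, hT⟩, hF⟩ := h
  refine computable_of _ _ f (.seq c boolOut) (C + 5) k fun a => ?_
  have h1 := hF a []
  rw [List.append_nil, List.append_nil] at h1
  refine (h1.seq (boolOut_run (f a))).mono ?_
  have h2 : T a ≤ C * (enc a).size ^ k := hT a
  rw [length_code]
  have h3 : C * (enc a).size ^ k ≤ (C + 5) * (enc a).size ^ k :=
    Nat.mul_le_mul (by omega) le_rfl
  omega

/-! ### raw strings -/

/-- pour the main stack onto stack `a` -/
def toA : Cmd :=
  .loop .m Option.isSome (.case .m .skip
    (.seq (.pop .m) (.push .a false)) (.seq (.pop .m) (.push .a true)))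

lemma toA_run (m : List Bool) : ∀ (a : List Bool),
    Ex toA (st m a [] []) (st [] (m.reverse ++ a) [] []) (4 * m.length + 1) := by
  induction m with
  | nil => intro a; exact Ex.loop_stop rfl
  | cons x m ih =>
    intro a
    have h := ih (x :: a)
    rw [List.reverse_cons, List.append_assoc, List.singleton_append]
    cases x with
    | false =>
      exact (Ex.loop_step rfl (Ex.case_false rfl (Ex.pop_m.seq Ex.push_a)) h).mono
        (by simp; omega)
    | true =>
      exact (Ex.loop_step rfl (Ex.case_true rfl (Ex.pop_m.seq Ex.push_a)) h).mono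
        (by simp; omega)

/-- convert a reversed string on stack `a` into the code of a list of Booleans -/
def consLoop : Cmd :=
  .loop .a Option.isSome (.case .a .skip
    (.seq (.pop .a) (.seq (.push .m false) (.push .m true)))
    (.seq (.pop .a) (.seq (.push .m false) (.seq (.push .m false) (.seq (.push .m true)
      (.push .m true))))))

lemma consLoop_run (a : List Bool) : ∀ (l : List Bool),
    Ex consLoop (st (code (enc l)) a [] []) (st (code (enc (a.reverse ++ l))) [] [] [])
      (7 * a.length + 1) := by
  induction a with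
  | nil => intro l; exact Ex.loop_stop rfl
  | cons x a ih =>
    intro l
    have h := ih (x :: l)
    rw [List.reverse_cons, List.append_assoc, List.singleton_append]
    cases x with
    | false =>
      exact (Ex.loop_step rfl (Ex.case_false rfl (Ex.pop_a.seq (Ex.push_m.seq Ex.push_m))) h).mono
        (by simp; omega)
    | true =>
      exact (Ex.loop_step rfl (Ex.case_true rfl (Ex.pop_a.seq (Ex.push_m.seq
        (Ex.push_m.seq (Ex.push_m.seq Ex.push_m))))) h).mono
        (by simp; omega)

/-- convert a string into the code of a list of Booleans -/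
def rawIn : Cmd := .seq toA (.seq (.push .m false) consLoop)

lemma rawIn_run (l : List Bool) :
    Ex rawIn (st l [] [] []) (st (code (enc l)) [] [] []) (11 * l.length + 3) := by
  have h1 := toA_run l []
  have h2 := consLoop_run l.reverse []
  rw [List.append_nil] at h1
  rw [List.append_nil, List.reverse_reverse, List.length_reverse] at h2
  exact (h1.seq (Ex.push_m.seq h2)).mono (by omega)

/-- convert the code of a list of Booleans into a reversed string on stack `a` -/
def unconsLoop : Cmd :=
  .loop .m (fun o => o == some true) (.seq (.pop .m) (.case .m .skip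
    (.seq (.pop .m) (.push .a false))
    (.seq (.pop .m) (.seq (.pop .m) (.seq (.pop .m) (.push .a true))))))

lemma unconsLoop_run (l : List Bool) : ∀ (a : List Bool),
    Ex unconsLoop (st (code (enc l)) a [] []) (st [false] (l.reverse ++ a) [] [])
      (7 * l.length + 1) := by
  induction l with
  | nil => intro a; exact (Ex.loop_stop rfl)
  | cons x l ih =>
    intro a
    have h := ih (x :: a)
    rw [List.reverse_cons, List.append_assoc, List.singleton_append, enc_cons, code_cons]
    cases x with
    | false =>
      rw [enc_false, code_nil]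
      exact (Ex.loop_step rfl (Ex.pop_m.seq (Ex.case_false rfl (Ex.pop_m.seq Ex.push_a))) h).mono
        (by simp; omega)
    | true =>
      rw [enc_true, code_cons, code_nil]
      exact (Ex.loop_step rfl (Ex.pop_m.seq (Ex.case_true rfl (Ex.pop_m.seq
        (Ex.pop_m.seq (Ex.pop_m.seq Ex.push_a))))) h).mono
        (by simp; omega)

/-- convert the code of a list of Booleans into a string -/
def rawOut : Cmd := .seq unconsLoop (.seq (.pop .m) backA)

lemma rawOut_run (l : List Bool) :
    Ex rawOut (st (code (enc l)) [] [] []) (st l [] [] []) (11 * l.length + 3) := by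
  have h1 := unconsLoop_run l []
  rw [List.append_nil] at h1
  have h2 := backA_run l.reverse [] [] []
  rw [List.reverse_reverse, List.append_nil, List.length_reverse] at h2
  exact (h1.seq (Ex.pop_m.seq h2)).mono (by omega)

lemma sz_boolList_le (l : List Bool) : sz l ≤ 4 * l.length + 1 := by
  induction l with
  | nil => simp
  | cons x l ih =>
    rw [sz_cons, List.length_cons]
    have := sz_bool_le x
    omega

/-- the criterion with an arbitrary polynomial time bound -/
theorem computable_of_polynomial {α β : Type} (ea : α → List Bool) (eb : β → List Bool)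
    (f : α → β) (c : Cmd) (p : Polynomial ℕ)
    (h : ∀ a, Ex c (st (ea a) [] [] []) (st (eb (f a)) [] [] []) (p.eval (ea a).length)) :
    Nonempty (TM2ComputableInPolyTime ea eb f) := by
  have h1 : ∀ a, Nonempty (TM2OutputsInTime (machine c) (ea a) (some (eb (f a)))
      (p.eval (ea a).length + 1)) := by
    intro a
    obtain ⟨t, ht, hr⟩ := h a
    obtain ⟨⟨o⟩⟩ := machine_outputs hr
    exact ⟨⟨o, le_trans (by assumption) (by omega)⟩⟩
  refine ⟨⟨⟨machine c, Equiv.refl _, Equiv.refl _⟩, p + Polynomial.C 1, fun a => ?_⟩⟩
  have e3 : (p + Polynomial.C 1).eval (ea a).length = p.eval (ea a).length + 1 := by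
    simp
  have e1 : List.map id (ea a) = ea a := List.map_id _
  have e2 : List.map id (eb (f a)) = eb (f a) := List.map_id _
  have o := Classical.choice (h1 a)
  rw [← e3] at o
  obtain ⟨⟨n, hn⟩, hle⟩ := o
  refine ⟨⟨n, ?_⟩, hle⟩
  rw [← e1, ← e2] at hn
  exact hn

/-- Functions between types whose elements are given by strings of Booleans. -/
theorem tmStr {α β : Type} {ea : α → List Bool} {eb : β → List Bool} {f : α → β}
    (h : FP (fun a => enc (ea a)) fun a => enc (eb (f a))) :
    Nonempty (TM2ComputableInPolyTime ea eb f) := by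
  have hb := h.bdd
  obtain ⟨c, T, hT, hF⟩ := h
  obtain ⟨C, k, hC⟩ := PB.add hT hb
  refine computable_of_polynomial ea eb f (.seq rawIn (.seq c rawOut))
    (Polynomial.C 11 * Polynomial.X + Polynomial.C 6 + Polynomial.C (11 * C) *
      (Polynomial.C 4 * Polynomial.X + Polynomial.C 1) ^ k) fun a => ?_
  have h1 := hF a []
  rw [List.append_nil, List.append_nil] at h1
  refine ((rawIn_run (ea a)).seq (h1.seq (rawOut_run (eb (f a))))).mono ?_
  have h2 : T a + (enc (eb (f a))).size ≤ C * (enc (ea a)).size ^ k := hC a
  have h3 : (eb (f a)).length < (enc (eb (f a))).size := length_lt_sz (eb (f a))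
  have h4 : (enc (ea a)).size ≤ 4 * (ea a).length + 1 := sz_boolList_le (ea a)
  have h5 : C * (enc (ea a)).size ^ k ≤ C * (4 * (ea a).length + 1) ^ k :=
    Nat.mul_le_mul le_rfl (Nat.pow_le_pow_left h4 k)
  have h6 : (Polynomial.C 11 * Polynomial.X + Polynomial.C 6 + Polynomial.C (11 * C) *
      (Polynomial.C 4 * Polynomial.X + Polynomial.C 1) ^ k).eval (ea a).length =
      11 * (ea a).length + 6 + 11 * (C * (4 * (ea a).length + 1) ^ k) := by
    simp [mul_assoc]
  rw [h6]
  omega

/-- functions on strings: raw input and output -/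
theorem PT.tmRaw {f : List Bool → List Bool} (h : PT f) :
    Nonempty (TM2ComputableInPolyTime (fun l => l) (fun l => l) f) := by
  have hb := h.bdd
  obtain ⟨c, T, hT, hF⟩ := h
  obtain ⟨C, k, hC⟩ : PBd fun l : List Bool => sz l + T l + sz (f l) :=
    PBd.add (PBd.add PBd.sz hT) hb
  refine computable_of _ _ f (.seq rawIn (.seq c rawOut)) (11 * (C * 5 ^ k) + 11 + 11 * C) k
    fun a => ?_
  have h1 := hF a []
  rw [List.append_nil, List.append_nil] at h1
  refine ((rawIn_run a).seq (h1.seq (rawOut_run (f a)))).mono ?_
  have h2 := hC a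
  beta_reduce at h2
  have h3 := length_lt_sz (f a)
  have h4 := length_lt_sz a
  rcases Nat.eq_zero_or_pos a.length with h0 | h0
  · have h5 : sz a ≤ 1 := by have := sz_boolList_le a; omega
    have h6 : sz a ^ k ≤ 1 := by
      calc sz a ^ k ≤ 1 ^ k := Nat.pow_le_pow_left h5 k
        _ = 1 := Nat.one_pow k
    have h7 : C * sz a ^ k ≤ C * 1 := Nat.mul_le_mul le_rfl h6
    rw [h0]
    generalize (11 * (C * 5 ^ k) + 11 + 11 * C) * 0 ^ k = u
    omega
  · have h5 : sz a ≤ 5 * a.length := by have := sz_boolList_le a; omega
    have h6 : sz a ^ k ≤ 5 ^ k * a.length ^ k := by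
      calc sz a ^ k ≤ (5 * a.length) ^ k := Nat.pow_le_pow_left h5 k
        _ = 5 ^ k * a.length ^ k := Nat.mul_pow _ _ _
    have h7 : C * sz a ^ k ≤ C * 5 ^ k * a.length ^ k := by
      rw [Nat.mul_assoc]; exact Nat.mul_le_mul le_rfl h6
    have h8 : 11 * (C * 5 ^ k * a.length ^ k) ≤
        (11 * (C * 5 ^ k) + 11 + 11 * C) * a.length ^ k := by
      rw [← Nat.mul_assoc]
      exact Nat.mul_le_mul (by omega) le_rfl
    omega

end Pool.Agent.PolyTime
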