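import Pool.Agent.Lib.PolyTime.More

/-!
# Reachability in polynomial time
-/

set_option autoImplicit false

namespace Pool.Agent.PolyTime

open D Relation

variable {α β γ δ σ κ : Type*} [Enc α] [Enc β] [Enc γ] [Enc δ] [Enc σ] [Enc κ] [EncInj κ]
  [DecidableEq κ]

/-- one round of the closure -/
def reachStep (E : List (κ × κ)) (R : List κ) : List κ :=
  R ++ (E.filter fun e => decide (e.1 ∈ R)).map Prod.snd

/-- vertices reachable from `x` along the edges in `E` -/
def reach (E : List (κ × κ)) (x : κ) : List κ := (reachStep E)^[E.length] [x]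

lemma mem_reachStep {E : List (κ × κ)} {R : List κ} {y : κ} :
    y ∈ reachStep E R ↔ y ∈ R ∨ ∃ z ∈ R, (z, y) ∈ E := by
  simp only [reachStep, List.mem_append, List.mem_map, List.mem_filter, decide_eq_true_eq,
    Prod.exists]
  constructor
  · rintro (h | ⟨z, w, ⟨h1, h2⟩, rfl⟩)
    · exact Or.inl h
    · exact Or.inr ⟨z, h2, h1⟩
  · rintro (h | ⟨z, h1, h2⟩)
    · exact Or.inl h
    · exact Or.inr ⟨z, y, ⟨h2, h1⟩, rfl⟩

lemma reachStep_subset (E : List (κ × κ)) (R : List κ) : R ⊆ reachStep E R := by
  intro y hy
  exact mem_reachStep.2 (Or.inl hy)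

lemma iter_subset_of_le (E : List (κ × κ)) (R : List κ) {i j : ℕ} (h : i ≤ j) :
    (reachStep E)^[i] R ⊆ (reachStep E)^[j] R := by
  induction h with
  | refl => exact fun _ h => h
  | step _ ih =>
    rw [Function.iterate_succ_apply']
    exact fun y hy => reachStep_subset _ _ (ih hy)

lemma iter_sound (E : List (κ × κ)) (x : κ) (n : ℕ) : ∀ y ∈ (reachStep E)^[n] [x],
    ReflTransGen (fun a b => (a, b) ∈ E) x y := by
  induction n with
  | zero => intro y hy; simp at hy; rw [hy]
  | succ n ih =>
    intro y hy
    rw [Function.iterate_succ_apply', mem_reachStep] at hy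
    rcases hy with hy | ⟨z, hz, hzy⟩
    · exact ih y hy
    · exact (ih z hz).tail hzy

lemma stable_complete (E : List (κ × κ)) (R : List κ) (x : κ) (hx : x ∈ R)
    (hR : ∀ z ∈ R, ∀ y, (z, y) ∈ E → y ∈ R) {y : κ}
    (h : ReflTransGen (fun a b => (a, b) ∈ E) x y) : y ∈ R := by
  induction h with
  | refl => exact hx
  | tail _ hbc ih => exact hR _ ih _ hbc

/-- The closure is stable after `E.length` rounds. -/
lemma reach_stable (E : List (κ × κ)) (x : κ) : ∀ z ∈ reach E x, ∀ y, (z, y) ∈ E → y ∈ reach E x := by
  -- the number of targets of edges in the set grows until stable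
  let T : ℕ → Finset κ := fun n => ((reachStep E)^[n] [x]).toFinset ∩ (E.map Prod.snd).toFinset
  have hmono : ∀ {i j : ℕ}, i ≤ j → T i ⊆ T j := by
    intro i j hij
    apply Finset.inter_subset_inter_right
    intro y hy
    rw [List.mem_toFinset] at hy ⊢
    exact iter_subset_of_le E [x] hij hy
  have hcard : ∀ n, (T n).card ≤ E.length := by
    intro n
    calc (T n).card ≤ (E.map Prod.snd).toFinset.card := Finset.card_le_card Finset.inter_subset_right
      _ ≤ (E.map Prod.snd).length := List.toFinset_card_le _
      _ = E.length := List.length_map _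
  -- there is a stable index
  obtain ⟨n, hn, hst⟩ : ∃ n ≤ E.length, T (n + 1) ⊆ T n := by
    by_contra hcon
    push Not at hcon
    have : ∀ n, n ≤ E.length + 1 → n ≤ (T n).card := by
      intro n
      induction n with
      | zero => intro _; exact Nat.zero_le _
      | succ n ih =>
        intro h
        have h1 := ih (by omega)
        have h2 := hcon n (by omega)
        have h3 : T n ⊂ T (n + 1) := ⟨hmono (Nat.le_succ n), h2⟩
        have := Finset.card_lt_card h3
        omega
    have h1 := this (E.length + 1) le_rfl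
    have h2 := hcard (E.length + 1)
    omega
  -- stable from `n` on
  have hst' : ∀ z ∈ (reachStep E)^[n] [x], ∀ y, (z, y) ∈ E → y ∈ (reachStep E)^[n] [x] := by
    intro z hz y hzy
    have h1 : y ∈ T (n + 1) := by
      rw [Finset.mem_inter, List.mem_toFinset, List.mem_toFinset, Function.iterate_succ_apply',
        mem_reachStep]
      exact ⟨Or.inr ⟨z, hz, hzy⟩, List.mem_map.2 ⟨(z, y), hzy, rfl⟩⟩
    have h2 := hst h1
    rw [Finset.mem_inter, List.mem_toFinset] at h2
    exact h2.1
  have heq : ∀ y, y ∈ reach E x ↔ y ∈ (reachStep E)^[n] [x] := by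
    intro y
    constructor
    · intro hy
      exact stable_complete E _ x (iter_subset_of_le E [x] (Nat.zero_le n) (by simp)) hst'
        (iter_sound E x _ y hy)
    · intro hy
      exact iter_subset_of_le E [x] hn hy
  intro z hz y hzy
  rw [heq] at hz ⊢
  exact hst' z hz y hzy

theorem mem_reach {E : List (κ × κ)} {x y : κ} :
    y ∈ reach E x ↔ ReflTransGen (fun a b => (a, b) ∈ E) x y := by
  constructor
  · exact iter_sound E x _ y
  · intro h
    refine stable_complete E _ x ?_ (reach_stable E x) h
    exact iter_subset_of_le E [x] (Nat.zero_le _) (by simp)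

lemma PT.reachStep : PT fun p : List (κ × κ) × List κ => reachStep p.1 p.2 := by
  unfold PolyTime.reachStep
  refine PT.append (by fun_prop) (PT.map (f := fun (_ : List (κ × κ) × List κ) (e : κ × κ) => e.2)
    (by fun_prop) ?_)
  exact PT.filter (f := fun (p : List (κ × κ) × List κ) (e : κ × κ) => decide (e.1 ∈ p.2))
    (PT.mem (by fun_prop) (by fun_prop)) (by fun_prop)

theorem PT.reach {E : α → List (κ × κ)} {x : α → κ} (hE : PT E) (hx : PT x) :
    PT fun a => reach (E a) (x a) := by
  let f : List (κ × κ) × List κ → List (κ × κ) × List κ := fun p => (p.1, PolyTime.reachStep p.1 p.2)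
  have hf : PT f := PT.pair (by fun_prop) PT.reachStep
  have key : ∀ n E (R : List κ), f^[n] (E, R) = (E, (PolyTime.reachStep E)^[n] R) := by
    intro n
    induction n with
    | zero => intro E R; rfl
    | succ n ih =>
      intro E R
      rw [Function.iterate_succ_apply, Function.iterate_succ_apply]
      exact ih _ _
  have hsz : ∀ (E : List (κ × κ)) (R : List κ), sz (PolyTime.reachStep E R) ≤ sz R + sz E := by
    intro E R
    unfold PolyTime.reachStep
    have h1 := sz_append R ((E.filter fun e => decide (e.1 ∈ R)).map Prod.snd)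
    have h2 : ∀ l : List (κ × κ), sz (l.map Prod.snd) ≤ sz l := by
      intro l
      induction l with
      | nil => simp
      | cons p l ih => rw [List.map_cons, sz_cons, sz_cons, sz_prod]; omega
    have h3 := h2 (E.filter fun e => decide (e.1 ∈ R))
    have h4 := sz_sublist_le (List.filter_sublist (p := fun e : κ × κ => decide (e.1 ∈ R)) (l := E))
    omega
  have hszn : ∀ n (E : List (κ × κ)) (R : List κ),
      sz ((PolyTime.reachStep E)^[n] R) ≤ sz R + n * sz E := by
    intro n
    induction n with
    | zero => intro E R; simp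
    | succ n ih =>
      intro E R
      rw [Function.iterate_succ_apply]
      have h1 := ih E (PolyTime.reachStep E R)
      have h2 := hsz E R
      have h3 : (n + 1) * sz E = n * sz E + sz E := by ring
      omega
  have h1 := PT.iterate_length (f := f) (s := fun a => (E a, [x a])) (l := E)
    (B := fun a => sz (E a) + (sz (x a) + 2 + sz (E a) * sz (E a)) + 1)
    hf (by fun_prop) hE
    (((PT.bdd hE).add (((PT.bdd hx).add (PBd.const 2)).add ((PT.bdd hE).mul (PT.bdd hE)))).add
      (PBd.const 1)) (by
      intro a i hi
      rw [key, sz_pair]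
      have h2 := hszn i (E a) [x a]
      rw [sz_cons, sz_nil] at h2
      have h3 := length_lt_sz (E a)
      have h4 : i * sz (E a) ≤ sz (E a) * sz (E a) := Nat.mul_le_mul_right _ (by omega)
      omega)
  refine (PT.snd h1).congr fun a => ?_
  rw [key]; rfl

/-- reachability test -/
theorem PT.decide_reach {E : α → List (κ × κ)} {x y : α → κ} (hE : PT E) (hx : PT x) (hy : PT y) :
    PT fun a => decide (y a ∈ PolyTime.reach (E a) (x a)) :=
  PT.mem hy (PT.reach hE hx)

end Pool.Agent.PolyTime
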