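import Pool.Agent.Lib.PolyTime.Nat

/-!
# More polynomial time functions: subtraction, division, indices, reachability
-/

set_option autoImplicit false

namespace Pool.Agent.PolyTime

open D

variable {α β γ δ σ : Type*} [Enc α] [Enc β] [Enc γ] [Enc δ] [Enc σ]

/-! ### predecessor and subtraction -/

/-- complement of a list of bits -/
lemma val_not (l : List Bool) : val (l.map fun b => !b) + val l + 1 = 2 ^ l.length := by
  induction l with
  | nil => simp
  | cons b l ih =>
    simp only [List.map_cons, val_cons, List.length_cons, pow_succ]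
    cases b <;> simp <;> omega

/-- `m - n` for `n ≤ m`: `m - n = not (not m + n)` on `k` bits, `k` = number of bits of `m`. -/
lemma sub_eq (m n : ℕ) (h : n ≤ m) :
    m - n = val ((addBits ((m.bits).map fun b => !b) n.bits).map fun b => !b) -
      (2 ^ (addBits ((m.bits).map fun b => !b) n.bits).length - 2 ^ m.bits.length) := by
  have h1 := val_not m.bits
  have h2 := val_not (addBits ((m.bits).map fun b => !b) n.bits)
  rw [val_addBits, val_bits] at h2
  rw [val_bits] at h1
  have h3 : 2 ^ m.bits.length ≤ 2 ^ (addBits ((m.bits).map fun b => !b) n.bits).length := by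
    apply Nat.pow_le_pow_right (by norm_num)
    unfold addBits
    obtain ⟨out, c', h1, h2, -⟩ := addStep_spec ((m.bits.map fun b => !b) ++ n.bits.map fun _ => false)
      n.bits false []
    rw [h1]
    simp [h2]; omega
  omega

/-- the first bits of the complement -/
lemma sub_eq' (m n : ℕ) (h : n ≤ m) :
    m - n = val (((addBits ((m.bits).map fun b => !b) n.bits).map fun b => !b).take m.bits.length) := by
  set A := addBits ((m.bits).map fun b => !b) n.bits with hA
  have h1 := val_not m.bits
  have h2 := val_not A
  rw [hA, val_addBits, val_bits, ← hA] at h2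
  rw [val_bits] at h1
  have hlen : m.bits.length ≤ A.length := by
    rw [hA]; unfold addBits
    obtain ⟨out, c', h1, h2, -⟩ := addStep_spec ((m.bits.map fun b => !b) ++ n.bits.map fun _ => false)
      n.bits false []
    rw [h1]
    simp [h2]; omega
  have h3 : 2 ^ m.bits.length ≤ 2 ^ A.length := Nat.pow_le_pow_right (by norm_num) hlen
  have h4 : val (A.map fun b => !b) = 2 ^ A.length - 2 ^ m.bits.length + (m - n) := by omega
  have h5 : 2 ^ A.length = 2 ^ m.bits.length * 2 ^ (A.length - m.bits.length) := by
    rw [← pow_add]; congr 1; omega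
  have h6 := val_append ((A.map fun b => !b).take m.bits.length)
    ((A.map fun b => !b).drop m.bits.length)
  rw [List.take_append_drop] at h6
  have h7 : ((A.map fun b => !b).take m.bits.length).length = m.bits.length := by
    rw [List.length_take, List.length_map]; omega
  rw [h7] at h6
  have h8 := val_lt ((A.map fun b => !b).take m.bits.length)
  rw [h7] at h8
  have h9 : m - n < 2 ^ m.bits.length := by
    have := Nat.lt_size_self m
    rw [← Nat.size_eq_bits_len] at this
    omega
  -- compare modulo `2 ^ length`
  have h10 : val (A.map fun b => !b) % 2 ^ m.bits.length = m - n := by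
    have h11 : 2 ^ A.length - 2 ^ m.bits.length =
        2 ^ m.bits.length * (2 ^ (A.length - m.bits.length) - 1) := by
      rw [h5, Nat.mul_sub, mul_one]
    rw [h4, h11, Nat.mul_add_mod_self_left, Nat.mod_eq_of_lt h9]
  rw [← h10, h6, Nat.add_mul_mod_self_left, Nat.mod_eq_of_lt h8]

/-- take as many elements as the length of another list -/
lemma PT.takeLength {l : α → List β} {m : α → List γ} (hl : PT l) (hm : PT m) :
    PT fun a => (l a).take (m a).length := by
  have key : ∀ (m : List γ) (s : List β × List β),
      m.foldl (fun (s : List β × List β) (_ : γ) =>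
        (match s.1 with | [] => s | b :: l => (l, b :: s.2))) s =
      (s.1.drop m.length, (s.1.take m.length).reverse ++ s.2) := by
    intro m
    induction m with
    | nil => intro s; simp
    | cons c m ih =>
      intro s
      obtain ⟨l, r⟩ := s
      rw [List.foldl_cons, ih]
      cases l with
      | nil => simp
      | cons b l => simp
  have h1 := PT.foldl (g := fun (_ : α) (s : List β × List β) (_ : γ) =>
      (match s.1 with | [] => s | b :: l => (l, b :: s.2)))
    (s := fun a => (l a, [])) (l := m)
    (PT.listCases (l := fun p : α × (List β × List β) × γ => p.2.1.1) (f := fun p => p.2.1)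
      (g := fun p b l => (l, b :: p.2.1.2)) (by fun_prop) (by fun_prop) (by fun_prop))
    (by fun_prop) hm
    (B := fun a => 2 * sz (l a) + 1) (((PBd.const 2).mul (PT.bdd hl)).add (PBd.const 1)) (by
      intro a l1 l2 h
      rw [key, sz_pair, List.append_nil, sz_reverse]
      have := sz_drop_le (l a) l1.length
      have := sz_take_le (l a) l1.length
      show sz (List.drop l1.length (l a)) + sz (List.take l1.length (l a)) + 1 ≤ _
      omega)
  refine (PT.reverse (PT.snd h1)).congr fun a => ?_
  rw [key]; simp

@[fun_prop] lemma PT.sub {f g : α → ℕ} (hf : PT f) (hg : PT g) : PT fun a => f a - g a := by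
  have hn : ∀ {h : α → List Bool}, PT h → PT fun a => (h a).map fun b => !b := fun {h} hh =>
    PT.map (f := fun (_ : α) (b : Bool) => !b) (by fun_prop) hh
  have h0 : PT fun a => PolyTime.addBits (((f a).bits).map fun b => !b) (g a).bits :=
    PT.addBits (hn (PT.bits hf)) (PT.bits hg)
  have h1 : PT fun a => ((PolyTime.addBits (((f a).bits).map fun b => !b) (g a).bits).map
      fun b => !b).take (f a).bits.length :=
    PT.takeLength (hn h0) (PT.bits hf)
  have h2 := PT.ite (p := fun a => g a ≤ f a) (PT.decide_le hg hf) (PT.ofBits h1) (PT.const 0)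
  refine h2.congr fun a => ?_
  by_cases h : g a ≤ f a
  · rw [if_pos h, ← sub_eq' _ _ h]
  · rw [if_neg h]; omega

/-! ### division -/

/-- one step of long division by `d`: state (quotient, remainder) -/
def divStep (d : ℕ) (s : ℕ × ℕ) (b : Bool) : ℕ × ℕ :=
  if d ≤ s.2 + s.2 + b.toNat then (s.1 + s.1 + 1, s.2 + s.2 + b.toNat - d)
  else (s.1 + s.1, s.2 + s.2 + b.toNat)

lemma divStep_spec (d : ℕ) (hd : 0 < d) (l : List Bool) : ∀ (q r : ℕ), r < d →
    l.foldl (divStep d) (q, r) =
      ((q * d * 2 ^ l.length + r * 2 ^ l.length + val l.reverse) / d,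
       (q * d * 2 ^ l.length + r * 2 ^ l.length + val l.reverse) % d) := by
  induction l with
  | nil =>
    intro q r hr
    simp only [List.foldl_nil, List.length_nil, pow_zero, mul_one, List.reverse_nil, val_nil,
      add_zero]
    rw [add_comm (q * d) r, Nat.add_mul_div_right _ _ hd, Nat.div_eq_of_lt hr, zero_add,
      Nat.add_mul_mod_self_right, Nat.mod_eq_of_lt hr]
  | cons b l ih =>
    intro q r hr
    rw [List.foldl_cons]
    have hb : b.toNat ≤ 1 := Bool.toNat_le b
    have hv : val (b :: l).reverse = b.toNat * 2 ^ l.length + val l.reverse := by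
      rw [List.reverse_cons, val_append, List.length_reverse]; simp; ring
    by_cases h : d ≤ r + r + b.toNat
    · have e1 : divStep d (q, r) b = (q + q + 1, r + r + b.toNat - d) := by
        simp only [divStep]; rw [if_pos h]
      rw [e1, ih _ _ (by omega)]
      have : (q + q + 1) * d * 2 ^ l.length + (r + r + b.toNat - d) * 2 ^ l.length + val l.reverse =
          q * d * 2 ^ (b :: l).length + r * 2 ^ (b :: l).length + val (b :: l).reverse := by
        rw [hv, List.length_cons, pow_succ]
        have h2 : (r + r + b.toNat - d) * 2 ^ l.length =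
            (r + r + b.toNat) * 2 ^ l.length - d * 2 ^ l.length := Nat.sub_mul _ _ _
        have h3 : d * 2 ^ l.length ≤ (r + r + b.toNat) * 2 ^ l.length := Nat.mul_le_mul_right _ h
        rw [h2]
        zify [h3]
        ring
      rw [this]
    · have e1 : divStep d (q, r) b = (q + q, r + r + b.toNat) := by
        simp only [divStep]; rw [if_neg h]
      rw [e1, ih _ _ (by omega)]
      have : (q + q) * d * 2 ^ l.length + (r + r + b.toNat) * 2 ^ l.length + val l.reverse =
          q * d * 2 ^ (b :: l).length + r * 2 ^ (b :: l).length + val (b :: l).reverse := by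
        rw [hv, List.length_cons, pow_succ]; ring
      rw [this]

lemma PT.divmod {f g : α → ℕ} (hf : PT f) (hg : PT g) :
    PT fun a => (f a / g a, f a % g a) := by
  have hstep : PT fun p : α × (ℕ × ℕ) × Bool => divStep (g p.1) p.2.1 p.2.2 := by
    have hg' : PT fun p : α × (ℕ × ℕ) × Bool => g p.1 := hg.comp (by fun_prop)
    have hb : PT fun p : α × (ℕ × ℕ) × Bool => p.2.2.toNat := by
      refine (PT.bif (c := fun p : α × (ℕ × ℕ) × Bool => p.2.2) (by fun_prop) (PT.const 1)
        (PT.const 0)).congr fun p => ?_
      cases p.2.2 <;> rfl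
    unfold divStep
    refine PT.ite (p := fun p : α × (ℕ × ℕ) × Bool => g p.1 ≤ p.2.1.2 + p.2.1.2 + p.2.2.toNat)
      (PT.decide_le hg' (by fun_prop)) (by fun_prop) (by fun_prop)
  have key : ∀ (d : ℕ), 0 < d → ∀ l : List Bool,
      l.foldl (divStep d) (0, 0) = (val l.reverse / d, val l.reverse % d) := by
    intro d hd l
    rw [divStep_spec d hd l 0 0 hd]; simp
  have bd : ∀ (d : ℕ) (l : List Bool) (k q r : ℕ), q < 2 ^ k → r < 2 ^ k →
      (l.foldl (divStep d) (q, r)).1 < 2 ^ (k + l.length) ∧
      (l.foldl (divStep d) (q, r)).2 < 2 ^ (k + l.length) := by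
    intro d l
    induction l with
    | nil => intro k q r hq hr; exact ⟨hq, hr⟩
    | cons b l ih =>
      intro k q r hq hr
      have hb : b.toNat ≤ 1 := Bool.toNat_le b
      rw [List.foldl_cons, List.length_cons]
      have e : k + (l.length + 1) = (k + 1) + l.length := by ring
      rw [e]
      by_cases h : d ≤ r + r + b.toNat
      · have e1 : divStep d (q, r) b = (q + q + 1, r + r + b.toNat - d) := by
          simp only [divStep]; rw [if_pos h]
        rw [e1]
        exact ih (k + 1) _ _ (by rw [pow_succ]; omega) (by rw [pow_succ]; omega)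
      · have e1 : divStep d (q, r) b = (q + q, r + r + b.toNat) := by
          simp only [divStep]; rw [if_neg h]
        rw [e1]
        exact ih (k + 1) _ _ (by rw [pow_succ]; omega) (by rw [pow_succ]; omega)
  have h1 := PT.foldl (g := fun (a : α) (s : ℕ × ℕ) (b : Bool) => divStep (g a) s b)
    (s := fun _ => (0, 0)) (l := fun a => (f a).bits.reverse) hstep (by fun_prop) (by fun_prop)
    (B := fun a => 8 * sz (f a) + 10)
    (((PBd.const 8).mul (PT.bdd hf)).add (PBd.const 10)) (by
      intro a l1 l2 h
      obtain ⟨h2, h3⟩ := bd (g a) l1 0 0 0 (by norm_num) (by norm_num)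
      rw [zero_add] at h2 h3
      rw [sz_prod]
      have h4 := sz_nat_le (l1.foldl (divStep (g a)) (0, 0)).1
      have h5 := sz_nat_le (l1.foldl (divStep (g a)) (0, 0)).2
      have h6 := Nat.size_le.2 h2
      have h7 := Nat.size_le.2 h3
      have h8 : l1.length ≤ (f a).bits.length := by
        have := congrArg List.length h
        simp at this; omega
      have h9 := length_lt_sz (f a).bits
      rw [← sz_nat] at h9
      show sz (l1.foldl (divStep (g a)) (0, 0)).1 + sz (l1.foldl (divStep (g a)) (0, 0)).2 + 1 ≤ _
      omega)
  have h2 := PT.ite (p := fun a => g a = 0) (PT.decide_eq hg (PT.const 0))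
    (PT.pair (PT.const 0) hf) h1
  refine h2.congr fun a => ?_
  by_cases h : g a = 0
  · rw [if_pos h, h]; simp
  · rw [if_neg h]
    show (f a).bits.reverse.foldl (divStep (g a)) (0, 0) = _
    rw [key _ (Nat.pos_of_ne_zero h), List.reverse_reverse, val_bits]

@[fun_prop] lemma PT.div {f g : α → ℕ} (hf : PT f) (hg : PT g) : PT fun a => f a / g a :=
  PT.fst (PT.divmod hf hg)

@[fun_prop] lemma PT.mod {f g : α → ℕ} (hf : PT f) (hg : PT g) : PT fun a => f a % g a :=
  PT.snd (PT.divmod hf hg)

/-! ### indices -/

/-- list with indices -/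
@[fun_prop] lemma PT.zipIdx {l : α → List β} (hl : PT l) : PT fun a => (l a).zipIdx := by
  have key : ∀ (l : List β) (s : ℕ × List (β × ℕ)),
      l.foldl (fun (s : ℕ × List (β × ℕ)) (b : β) => (s.1 + 1, (b, s.1) :: s.2)) s =
      (s.1 + l.length, (l.zipIdx s.1).reverse ++ s.2) := by
    intro l
    induction l with
    | nil => intro s; simp
    | cons b l ih =>
      intro s
      rw [List.foldl_cons, ih]
      simp [List.zipIdx_cons]
      ring
  have h1 := PT.foldl (g := fun (_ : α) (s : ℕ × List (β × ℕ)) (b : β) => (s.1 + 1, (b, s.1) :: s.2))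
    (s := fun _ => (0, [])) (l := l) (by fun_prop) (by fun_prop) hl
    (B := fun a => (4 * sz (l a) + 1) + (sz (l a) * (sz (l a) + (4 * sz (l a) + 1) + 1 + 1) + 1) + 1)
    (by
      have h1 := PT.bdd hl
      have h2 : PBd fun a => 4 * sz (l a) + 1 := ((PBd.const 4).mul h1).add (PBd.const 1)
      exact (h2.add ((h1.mul (((h1.add h2).add (PBd.const 1)).add (PBd.const 1))).add
        (PBd.const 1))).add (PBd.const 1)) (by
      intro a l1 l2 h
      rw [key, sz_prod, List.append_nil]
      have h3 : l1.length ≤ (l a).length := by rw [h]; simp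
      have h4 := length_lt_sz (l a)
      have h5 := sz_nat_le_self (0 + l1.length)
      have h6 : sz (l1.zipIdx 0).reverse ≤ (l1.zipIdx 0).length *
          ((sz (l a) + (4 * sz (l a) + 1) + 1) + 1) + 1 := by
        rw [sz_reverse]
        apply sz_list_le
        intro p hp
        rw [sz_prod]
        have h7 : p.1 ∈ l1 := List.fst_mem_of_mem_zipIdx hp
        have h8 : sz p.1 ≤ sz (l a) := sz_le_of_mem (by rw [h]; simp [h7])
        have h9 : p.2 < 0 + l1.length := List.snd_lt_add_of_mem_zipIdx hp
        have h10 := sz_nat_le_self p.2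
        omega
      rw [List.length_zipIdx] at h6
      have h11 : l1.length * ((sz (l a) + (4 * sz (l a) + 1) + 1) + 1) ≤
          sz (l a) * ((sz (l a) + (4 * sz (l a) + 1) + 1) + 1) :=
        Nat.mul_le_mul_right _ (by omega)
      show sz (0 + l1.length) + sz (l1.zipIdx 0).reverse + 1 ≤ _
      omega)
  refine (PT.reverse (PT.snd h1)).congr fun a => ?_
  rw [key]; simp

/-- indices of a list -/
@[fun_prop] lemma PT.rangeLength {l : α → List β} (hl : PT l) :
    PT fun a => List.range (l a).length := by
  have h := PT.map (f := fun (_ : α) (p : β × ℕ) => p.2) (by fun_prop) (PT.zipIdx hl)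
  refine h.congr fun a => ?_
  rw [List.zipIdx_eq_zip_range', ← List.range_eq_range', List.map_snd_zip]
  simp

/-- access by index -/
@[fun_prop] lemma PT.getElem? {l : α → List β} {n : α → ℕ} (hl : PT l) (hn : PT n) :
    PT fun a => (l a)[n a]? := by
  have h1 := PT.find? (f := fun (a : α) (p : β × ℕ) => decide (p.2 = n a)) (l := fun a => (l a).zipIdx)
    (PT.decide_eq (by fun_prop) (hn.comp (by fun_prop))) (by fun_prop)
  have h2 := PT.optionCases (γ := Option β) (f := fun _ => none) (g := fun _ p => some p.1) h1
    (PT.const none) (by fun_prop)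
  refine h2.congr fun a => ?_
  have key : ∀ (l : List β) (k n : ℕ), k ≤ n →
      (match (l.zipIdx k).find? (fun p => decide (p.2 = n)) with
        | none => none
        | some p => some p.1) = l[n - k]? := by
    intro l
    induction l with
    | nil => intro k n _; simp
    | cons b l ih =>
      intro k n hkn
      rw [List.zipIdx_cons, List.find?_cons]
      by_cases h : k = n
      · simp [h]
      · have : decide ((b, k).2 = n) = false := by simpa using h
        simp only [this]
        rw [ih (k + 1) n (by omega)]
        have e : n - k = (n - (k + 1)) + 1 := by omega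
        rw [e, List.getElem?_cons_succ]
  have h3 := key (l a) 0 (n a) (Nat.zero_le _)
  rw [Nat.sub_zero] at h3
  rw [← h3]
  cases List.find? (fun p => decide (p.2 = n a)) (l a).zipIdx <;> rfl

end Pool.Agent.PolyTime
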