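import Pool.Agent.Lib.PolyTime.Lists
import Pool.Agent.Lib.PolyTime.More

/-!
# Linear algebra over the field with two elements, as list programs

Vectors are lists of Booleans, all of the same length `n`; `toV n v : Fin n → ZMod 2` is the vector
coded by `v`.

* `bit l i`: the coordinate of `l` at `i`
* `xorV u v`: the sum
* `solve bad B z`: find `x ∈ z + span B` which vanishes at all coordinates in `bad`
* `inSpan B z`: is `z` in the span of `B`?
-/

set_option autoImplicit false

namespace Pool.Agent.PolyTime

/-! ### The programs -/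

/-- the coordinate of a vector at `i` -/
def bit (l : List Bool) (i : ℕ) : Bool := l.getD i false

/-- sum of two vectors over the field with two elements -/
def xorV (a b : List Bool) : List Bool := List.zipWith xor a b

/-- the vector coded by a list -/
def toV (n : ℕ) (l : List Bool) : Fin n → ZMod 2 := fun i => if bit l i then 1 else 0

/-- one elimination step on coordinate `u`, state = (spanning list, vector) or none = failure -/
def elim (s : Option (List (List Bool) × List Bool)) (u : ℕ) :
    Option (List (List Bool) × List Bool) :=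
  match s with
  | none => none
  | some (B, z) =>
    match B.find? (fun b => bit b u) with
    | none => if bit z u then none else some (B, z)
    | some p =>
      some (B.map (fun b => if bit b u then xorV b p else b), if bit z u then xorV z p else z)

/-- find an element of `z + span B` which vanishes on `bad` -/
def solve (bad : List ℕ) (B : List (List Bool)) (z : List Bool) : Option (List Bool) :=
  (bad.foldl elim (some (B, z))).map Prod.snd

/-- the span of the vectors coded by a list -/
def spanOf (n : ℕ) (B : List (List Bool)) : Submodule (ZMod 2) (Fin n → ZMod 2) :=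
  Submodule.span (ZMod 2) {v | ∃ b ∈ B, v = toV n b}

/-- is `z` in the span of `B`? -/
def inSpan (B : List (List Bool)) (z : List Bool) : Bool := (solve (List.range z.length) B z).isSome

/-! ### Polynomial time -/

section polytime

variable {α β γ δ : Type*} [Enc α] [Enc β] [Enc γ] [Enc δ]

/-- one step of the computation of `zip` -/
def zipStep (s : List (β × γ) × List γ) (b : β) : List (β × γ) × List γ :=
  match s.2 with
  | [] => s
  | c :: l => ((b, c) :: s.1, l)

omit [Enc β] [Enc γ] in
lemma zipStep_spec (l : List β) : ∀ (l' : List γ) (acc : List (β × γ)),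
    (l.foldl zipStep (acc, l')).1 = (l.zip l').reverse ++ acc := by
  induction l with
  | nil => intro l' acc; simp
  | cons b l ih =>
    intro l' acc
    cases l' with
    | nil =>
      have : ∀ l : List β, l.foldl zipStep (acc, ([] : List γ)) = (acc, []) := by
        intro l
        induction l with
        | nil => rfl
        | cons b l ih => rw [List.foldl_cons]; exact ih
      rw [this]; simp
    | cons c l' =>
      rw [List.foldl_cons]
      have : zipStep (acc, c :: l') b = ((b, c) :: acc, l') := rfl
      rw [this, ih]; simp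

lemma zipStep_sz (l : List β) : ∀ s : List (β × γ) × List γ,
    sz (l.foldl zipStep s).1 + sz (l.foldl zipStep s).2 + 1 ≤ sz l + sz s.1 + sz s.2 := by
  induction l with
  | nil => intro s; simp only [List.foldl_nil, sz_nil]; omega
  | cons b l ih =>
    intro s
    rw [List.foldl_cons]
    refine (ih _).trans ?_
    rcases s with ⟨acc, l'⟩
    cases l' with
    | nil => simp only [zipStep, sz_cons]; omega
    | cons c l' => simp only [zipStep, sz_cons, sz_pair]; omega

@[fun_prop] lemma PT.zip {l : α → List β} {l' : α → List γ} (hl : PT l) (hl' : PT l') :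
    PT fun a => (l a).zip (l' a) := by
  have h := PT.foldl (g := fun (_ : α) => (zipStep : List (β × γ) × List γ → β → _))
    (s := fun a => ([], l' a)) (l := l) (by
      refine PT.listCases (l := fun p : α × (List (β × γ) × List γ) × β => p.2.1.2)
        (f := fun p => p.2.1) (g := fun p c l => ((p.2.2, c) :: p.2.1.1, l)) ?_ ?_ ?_ <;> fun_prop)
    (by fun_prop) hl (B := fun a => sz (l a) + sz (l' a) + 2)
    (((PT.bdd hl).add (PT.bdd hl')).add (PBd.const 2)) (by
      intro a l1 l2 h
      have h1 := zipStep_sz l1 (([] : List (β × γ)), l' a)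
      have h2 := sz_append l1 l2
      rw [← h] at h2
      have := one_le_sz l2
      rw [sz_prod]
      simp only [sz_nil] at h1
      omega)
  refine (PT.reverse (PT.fst h)).congr fun a => ?_
  rw [zipStep_spec]; simp

@[fun_prop] lemma PT.xorV {u v : α → List Bool} (hu : PT u) (hv : PT v) :
    PT fun a => xorV (u a) (v a) := by
  have h := PT.map (f := fun (_ : α) (p : Bool × Bool) => Bool.xor p.1 p.2)
    (l := fun a => (u a).zip (v a)) (by fun_prop) (by fun_prop)
  refine h.congr fun a => ?_
  have key : ∀ u v : List Bool,
      (u.zip v).map (fun p : Bool × Bool => Bool.xor p.1 p.2) = List.zipWith Bool.xor u v := by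
    intro u
    induction u with
    | nil => intro v; simp
    | cons a u ih => intro v; cases v with
      | nil => simp
      | cons b v => simp [ih]
  exact key _ _

@[fun_prop] lemma PT.bit {l : α → List Bool} {i : α → ℕ} (hl : PT l) (hi : PT i) :
    PT fun a => bit (l a) (i a) := by
  have h := PT.optionCases (f := fun _ => false) (g := fun (_ : α) (b : Bool) => b)
    (PT.getElem? hl hi) (by fun_prop) (by fun_prop)
  refine h.congr fun a => ?_
  show _ = (l a).getD (i a) false
  rw [List.getD_eq_getElem?_getD]
  cases (l a)[i a]? <;> rfl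

/-- `if` with a Boolean condition -/
lemma PT.ifBool {c : α → Bool} {f g : α → β} (hc : PT c) (hf : PT f) (hg : PT g) :
    PT fun a => if c a = true then f a else g a := by
  refine (PT.bif hc hf hg).congr fun a => ?_
  cases c a <;> rfl

lemma xorV_length (a b : List Bool) : (xorV a b).length = min a.length b.length := by
  simp [xorV]

lemma xorV_length_le (a b : List Bool) : (xorV a b).length ≤ a.length := by
  simp [xorV]

lemma PT.elim {s : α → Option (List (List Bool) × List Bool)} {u : α → ℕ} (hs : PT s) (hu : PT u) :
    PT fun a => elim (s a) (u a) := by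
  -- inner program
  have h1 : PT fun q : (List (List Bool) × List Bool) × ℕ =>
      (match q.1.1.find? (fun b => PolyTime.bit b q.2) with
      | none => if PolyTime.bit q.1.2 q.2 = true then none else some q.1
      | some p =>
        some (q.1.1.map (fun b => if PolyTime.bit b q.2 = true then PolyTime.xorV b p else b),
          if PolyTime.bit q.1.2 q.2 = true then PolyTime.xorV q.1.2 p else q.1.2) :
        Option (List (List Bool) × List Bool)) := by
    refine PT.congr (PT.optionCases
      (o := fun q : (List (List Bool) × List Bool) × ℕ => q.1.1.find? (fun b => PolyTime.bit b q.2))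
      (f := fun q => if PolyTime.bit q.1.2 q.2 = true then none else some q.1)
      (g := fun q p =>
        some (q.1.1.map (fun b => if PolyTime.bit b q.2 = true then PolyTime.xorV b p else b),
          if PolyTime.bit q.1.2 q.2 = true then PolyTime.xorV q.1.2 p else q.1.2)) ?_ ?_ ?_)
      (fun q => by cases q.1.1.find? (fun b => PolyTime.bit b q.2) <;> rfl)
    · exact PT.find? (by fun_prop) (by fun_prop)
    · exact PT.ifBool (by fun_prop) (by fun_prop) (by fun_prop)
    · refine PT.optSome (PT.pair (PT.map (f := fun
        (p : ((List (List Bool) × List Bool) × ℕ) × List Bool) (b : List Bool) =>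
          if PolyTime.bit b p.1.2 = true then PolyTime.xorV b p.2 else b) ?_ (by fun_prop)) ?_)
      · exact PT.ifBool (by fun_prop) (by fun_prop) (by fun_prop)
      · exact PT.ifBool (by fun_prop) (by fun_prop) (by fun_prop)
  have h2 := PT.optionCases (o := s) (f := fun _ => none)
    (g := fun a (q : List (List Bool) × List Bool) =>
      (match q.1.find? (fun b => PolyTime.bit b (u a)) with
      | none => if PolyTime.bit q.2 (u a) = true then none else some q
      | some p =>
        some (q.1.map (fun b => if PolyTime.bit b (u a) = true then PolyTime.xorV b p else b),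
          if PolyTime.bit q.2 (u a) = true then PolyTime.xorV q.2 p else q.2) :
        Option (List (List Bool) × List Bool))) hs (PT.const none)
      (h1.comp (f := fun r : α × (List (List Bool) × List Bool) => (r.2, u r.1)) (by fun_prop))
  refine h2.congr fun a => ?_
  rcases s a with _ | ⟨B, z⟩ <;> rfl

lemma foldl_elim_none (l : List ℕ) : l.foldl elim none = none := by
  induction l with
  | nil => rfl
  | cons u l ih => rw [List.foldl_cons]; exact ih

/-- sizes do not grow -/
lemma foldl_elim_size (L N : ℕ) (l : List ℕ) : ∀ (B : List (List Bool)) (z : List Bool),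
    B.length = N → (∀ b ∈ B, b.length ≤ L) → z.length ≤ L → ∀ B' z',
    l.foldl elim (some (B, z)) = some (B', z') →
    B'.length = N ∧ (∀ b ∈ B', b.length ≤ L) ∧ z'.length ≤ L := by
  induction l with
  | nil =>
    intro B z h1 h2 h3 B' z' h
    simp only [List.foldl_nil, Option.some.injEq, Prod.mk.injEq] at h
    obtain ⟨rfl, rfl⟩ := h
    exact ⟨h1, h2, h3⟩
  | cons u l ih =>
    intro B z h1 h2 h3 B' z' h
    rw [List.foldl_cons] at h
    simp only [elim] at h
    split at h
    · split at h
      · rw [foldl_elim_none] at h; simp at h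
      · exact ih B z h1 h2 h3 B' z' h
    · refine ih _ _ (by simpa using h1) ?_ ?_ B' z' h
      · intro b hb
        rw [List.mem_map] at hb
        obtain ⟨b0, hb0, rfl⟩ := hb
        split
        · exact (xorV_length_le _ _).trans (h2 _ hb0)
        · exact h2 _ hb0
      · split
        · exact (xorV_length_le _ _).trans h3
        · exact h3

lemma PT.foldlElim {bad : α → List ℕ} {B : α → List (List Bool)} {z : α → List Bool}
    (hbad : PT bad) (hB : PT B) (hz : PT z) :
    PT fun a => (bad a).foldl PolyTime.elim (some (B a, z a)) := by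
  refine PT.foldl (g := fun (_ : α) => PolyTime.elim) (PT.elim (by fun_prop) (by fun_prop))
    (by fun_prop) hbad
    (B := fun a => sz (B a) * (4 * (sz (B a) + sz (z a)) + 2) + 4 * (sz (B a) + sz (z a)) + 5) ?_ ?_
  · have h1 : PBd fun a => sz (B a) := PT.bdd hB
    have h2 : PBd fun a => sz (z a) := PT.bdd hz
    have h3 := h1.add h2
    exact ((h1.mul (((PBd.const 4).mul h3).add (PBd.const 2))).add ((PBd.const 4).mul h3)).add
      (PBd.const 5)
  · intro a l1 l2 _
    rcases h : l1.foldl PolyTime.elim (some (B a, z a)) with _ | ⟨B', z'⟩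
    · simp
    · have hlen := length_lt_sz (B a)
      obtain ⟨h1, h2, h3⟩ := foldl_elim_size (sz (B a) + sz (z a)) (B a).length l1 (B a) (z a) rfl
        (fun b hb => by
          have := sz_le_of_mem hb
          have := length_lt_sz b
          omega)
        (by have := length_lt_sz (z a); omega) B' z' h
      have h4 : sz B' ≤ B'.length * ((4 * (sz (B a) + sz (z a)) + 1) + 1) + 1 := by
        refine sz_list_le fun b hb => (sz_bits_le b).trans ?_
        have := h2 b hb
        omega
      have h5 := sz_bits_le z'
      rw [h1] at h4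
      have h6 : (B a).length * ((4 * (sz (B a) + sz (z a)) + 1) + 1) ≤
          sz (B a) * (4 * (sz (B a) + sz (z a)) + 2) := Nat.mul_le_mul hlen.le (by omega)
      rw [sz_some, sz_pair]
      omega

/-- the solver runs in polynomial time -/
@[fun_prop] lemma PT.solve {bad : α → List ℕ} {B : α → List (List Bool)} {z : α → List Bool}
    (hbad : PT bad) (hB : PT B) (hz : PT z) : PT fun a => solve (bad a) (B a) (z a) := by
  have h := PT.optionCases (f := fun _ => none)
    (g := fun (_ : α) (q : List (List Bool) × List Bool) => some q.2)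
    (PT.foldlElim hbad hB hz) (PT.const none) (by fun_prop)
  refine h.congr fun a => ?_
  rw [PolyTime.solve]
  cases List.foldl PolyTime.elim (some (B a, z a)) (bad a) <;> rfl

@[fun_prop] lemma PT.inSpan {B : α → List (List Bool)} {z : α → List Bool}
    (hB : PT B) (hz : PT z) : PT fun a => inSpan (B a) (z a) :=
  PT.isSome (PT.solve (PT.rangeLength hz) hB hz)

end polytime

/-! ### Specification -/

section spec

variable {n : ℕ}

lemma bit_of_length_le {l : List Bool} {i : ℕ} (h : l.length ≤ i) : bit l i = false := by
  simp [bit, List.getD_eq_getElem?_getD, List.getElem?_eq_none h]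

lemma bit_eq_getElem {l : List Bool} {i : ℕ} (h : i < l.length) : bit l i = l[i] := by
  simp [bit, List.getD_eq_getElem?_getD, List.getElem?_eq_getElem h]

lemma bit_xorV {a b : List Bool} (ha : a.length = n) (hb : b.length = n) (i : ℕ) :
    bit (xorV a b) i = xor (bit a i) (bit b i) := by
  by_cases hi : i < n
  · rw [bit_eq_getElem (by rw [xorV_length, ha, hb]; simpa using hi),
      bit_eq_getElem (by omega), bit_eq_getElem (by omega)]
    simp [xorV]
  · rw [bit_of_length_le (by rw [xorV_length]; omega), bit_of_length_le (by omega),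
      bit_of_length_le (by omega)]
    rfl

lemma toV_apply (l : List Bool) (i : Fin n) : toV n l i = if bit l i then 1 else 0 := rfl

lemma toV_eq_zero_iff (l : List Bool) (i : Fin n) : toV n l i = 0 ↔ bit l i = false := by
  rw [toV_apply]
  cases bit l i <;> simp

lemma toV_eq_one_iff (l : List Bool) (i : Fin n) : toV n l i = 1 ↔ bit l i = true := by
  rw [toV_apply]
  cases bit l i <;> simp

lemma toV_xorV {a b : List Bool} (ha : a.length = n) (hb : b.length = n) :
    toV n (xorV a b) = toV n a + toV n b := by
  funext i
  rw [Pi.add_apply, toV_apply, toV_apply, toV_apply, bit_xorV ha hb]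
  cases bit a i <;> cases bit b i <;> decide

lemma toV_injective {a b : List Bool} (ha : a.length = n) (hb : b.length = n)
    (h : toV n a = toV n b) : a = b := by
  refine List.ext_getElem (by rw [ha, hb]) fun i h1 h2 => ?_
  have := congrFun h ⟨i, ha ▸ h1⟩
  rw [toV_apply, toV_apply] at this
  simp only [bit_eq_getElem h1, bit_eq_getElem h2] at this
  cases h3 : a[i] <;> cases h4 : b[i] <;> simp [h3, h4] at this ⊢

lemma toV_surjective (v : Fin n → ZMod 2) : ∃ l : List Bool, l.length = n ∧ toV n l = v := by
  refine ⟨List.ofFn fun i => decide (v i = 1), by simp, ?_⟩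
  funext i
  rw [toV_apply, bit_eq_getElem (by simp)]
  simp only [List.getElem_ofFn, Fin.eta, decide_eq_true_eq]
  generalize v i = x
  revert x; decide

lemma toV_mem_spanOf {B : List (List Bool)} {b : List Bool} (hb : b ∈ B) : toV n b ∈ spanOf n B :=
  Submodule.subset_span ⟨b, hb, rfl⟩

/-- one elimination step: no pivot -/
lemma spanOf_apply_eq_zero {B : List (List Bool)} (u : Fin n)
    (h : ∀ b ∈ B, bit b u = false) {w : Fin n → ZMod 2} (hw : w ∈ spanOf n B) : w u = 0 := by
  have : spanOf n B ≤ LinearMap.ker (LinearMap.proj (R := ZMod 2) (φ := fun _ : Fin n => ZMod 2) u) := by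
    refine Submodule.span_le.2 ?_
    rintro _ ⟨b, hb, rfl⟩
    exact (toV_eq_zero_iff b u).2 (h b hb)
  exact this hw

/-- the new spanning list spans exactly the elements of the span vanishing at the coordinate -/
lemma mem_spanOf_elim {B : List (List Bool)} (hB : ∀ b ∈ B, b.length = n) (u : Fin n)
    {p : List Bool} (hp : p ∈ B) (hpu : bit p u = true) (w : Fin n → ZMod 2) :
    w ∈ spanOf n (B.map fun b => if bit b u then xorV b p else b) ↔ w ∈ spanOf n B ∧ w u = 0 := by
  have hpl := hB p hp
  constructor
  · intro hw
    have : spanOf n (B.map fun b => if bit b u then xorV b p else b) ≤ spanOf n B ⊓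
        LinearMap.ker (LinearMap.proj (R := ZMod 2) (φ := fun _ : Fin n => ZMod 2) u) := by
      refine Submodule.span_le.2 ?_
      rintro _ ⟨b', hb', rfl⟩
      rw [List.mem_map] at hb'
      obtain ⟨b, hb, rfl⟩ := hb'
      by_cases hbu : bit b u = true
      · rw [if_pos hbu]
        refine ⟨?_, ?_⟩
        · rw [toV_xorV (hB b hb) hpl]
          exact add_mem (toV_mem_spanOf hb) (toV_mem_spanOf hp)
        · show toV n (xorV b p) u = 0
          rw [toV_eq_zero_iff, bit_xorV (hB b hb) hpl, hbu, hpu]; rfl
      · rw [if_neg hbu]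
        refine ⟨toV_mem_spanOf hb, ?_⟩
        show toV n b u = 0
        rw [toV_eq_zero_iff]; simpa using hbu
    exact this hw
  · rintro ⟨hw, hwu⟩
    let φ : (Fin n → ZMod 2) →ₗ[ZMod 2] (Fin n → ZMod 2) :=
      LinearMap.id - (LinearMap.proj (R := ZMod 2) (φ := fun _ : Fin n => ZMod 2) u).smulRight
        (toV n p)
    have : spanOf n B ≤
        (spanOf n (B.map fun b => if bit b u then xorV b p else b)).comap φ := by
      refine Submodule.span_le.2 ?_
      rintro _ ⟨b, hb, rfl⟩
      show toV n b - toV n b u • toV n p ∈
        spanOf n (B.map fun b => if bit b u then xorV b p else b)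
      refine Submodule.subset_span ⟨_, List.mem_map_of_mem hb, ?_⟩
      by_cases hbu : bit b u = true
      · rw [if_pos hbu, (toV_eq_one_iff b u).2 hbu, toV_xorV (hB b hb) hpl, one_smul]
        have h2 : -toV n p = toV n p := by
          funext i
          show -(toV n p i) = toV n p i
          generalize toV n p i = x
          revert x; decide
        rw [sub_eq_add_neg, h2]
      · rw [if_neg hbu, (toV_eq_zero_iff b u).2 (by simpa using hbu), zero_smul, sub_zero]
    have h1 := this hw
    have h2 : φ w = w := by
      show w - w u • toV n p = w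
      rw [hwu, zero_smul, sub_zero]
    rw [Submodule.mem_comap, h2] at h1
    exact h1

/-- one step of the elimination: the solution set -/
lemma elim_some {B : List (List Bool)} {z : List Bool} (hB : ∀ b ∈ B, b.length = n)
    (hz : z.length = n) {u : ℕ} (hu : u < n) {B' : List (List Bool)} {z' : List Bool}
    (h : elim (some (B, z)) u = some (B', z')) :
    (∀ b ∈ B', b.length = n) ∧ z'.length = n ∧ ∀ x : Fin n → ZMod 2,
      x - toV n z' ∈ spanOf n B' ↔ x - toV n z ∈ spanOf n B ∧ x ⟨u, hu⟩ = 0 := by
  simp only [elim] at h
  split at h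
  · rename_i hf
    rw [List.find?_eq_none] at hf
    split at h
    · simp at h
    · rename_i hzu
      simp only [Option.some.injEq, Prod.mk.injEq] at h
      obtain ⟨rfl, rfl⟩ := h
      refine ⟨hB, hz, fun x => ⟨fun hx => ⟨hx, ?_⟩, fun hx => hx.1⟩⟩
      have h1 := spanOf_apply_eq_zero ⟨u, hu⟩ (fun b hb => by simpa using hf b hb) hx
      have h2 : toV n z ⟨u, hu⟩ = 0 := (toV_eq_zero_iff z _).2 (by simpa using hzu)
      rw [Pi.sub_apply, h2, sub_zero] at h1
      exact h1
  · rename_i p hf
    have hp := List.mem_of_find?_eq_some hf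
    have hpu : bit p u = true := by simpa using List.find?_some hf
    have hpl := hB p hp
    simp only [Option.some.injEq, Prod.mk.injEq] at h
    obtain ⟨rfl, rfl⟩ := h
    refine ⟨?_, ?_, fun x => ?_⟩
    · intro b hb
      rw [List.mem_map] at hb
      obtain ⟨b0, hb0, rfl⟩ := hb
      split
      · rw [xorV_length, hB b0 hb0, hpl, min_self]
      · exact hB b0 hb0
    · split
      · rw [xorV_length, hz, hpl, min_self]
      · exact hz
    · rw [mem_spanOf_elim hB ⟨u, hu⟩ hp hpu]
      split
      · rename_i hzu
        have h1 : toV n (xorV z p) ⟨u, hu⟩ = 0 := by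
          rw [toV_eq_zero_iff, bit_xorV hz hpl]
          simp only [hzu, hpu]; rfl
        rw [Pi.sub_apply, h1, sub_zero, toV_xorV hz hpl, ← sub_sub]
        refine and_congr_left fun _ => ?_
        exact ⟨fun h => by simpa using add_mem h (toV_mem_spanOf (n := n) hp),
          fun h => sub_mem h (toV_mem_spanOf hp)⟩
      · rename_i hzu
        have h1 : toV n z ⟨u, hu⟩ = 0 := (toV_eq_zero_iff z _).2 (by simpa using hzu)
        rw [Pi.sub_apply, h1, sub_zero]

lemma elim_none {B : List (List Bool)} {z : List Bool} {u : ℕ} (hu : u < n)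
    (h : elim (some (B, z)) u = none) (x : Fin n → ZMod 2) (hx : x - toV n z ∈ spanOf n B) :
    x ⟨u, hu⟩ ≠ 0 := by
  simp only [elim] at h
  split at h
  · rename_i hf
    rw [List.find?_eq_none] at hf
    split at h
    · rename_i hzu
      have h1 := spanOf_apply_eq_zero ⟨u, hu⟩ (fun b hb => by simpa using hf b hb) hx
      have h2 : toV n z ⟨u, hu⟩ = 1 := (toV_eq_one_iff z _).2 (by simpa using hzu)
      rw [Pi.sub_apply, h2] at h1
      intro h3
      rw [h3] at h1
      revert h1; decide
    · simp at h
  · simp at h

lemma foldl_elim_spec (bad : List ℕ) (hbad : ∀ u ∈ bad, u < n) :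
    ∀ (B : List (List Bool)) (z : List Bool) (_ : ∀ b ∈ B, b.length = n) (_ : z.length = n),
    (∀ B' z', bad.foldl elim (some (B, z)) = some (B', z') →
      (∀ b ∈ B', b.length = n) ∧ z'.length = n ∧ ∀ x : Fin n → ZMod 2,
      x - toV n z' ∈ spanOf n B' ↔
        x - toV n z ∈ spanOf n B ∧ ∀ u (hu : u < n), u ∈ bad → x ⟨u, hu⟩ = 0) ∧
    (bad.foldl elim (some (B, z)) = none →
      ¬ ∃ x : Fin n → ZMod 2, x - toV n z ∈ spanOf n B ∧
        ∀ u (hu : u < n), u ∈ bad → x ⟨u, hu⟩ = 0) := by
  induction bad with
  | nil =>
    intro B z hB hz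
    refine ⟨?_, by simp⟩
    intro B' z' h
    simp only [List.foldl_nil, Option.some.injEq, Prod.mk.injEq] at h
    obtain ⟨rfl, rfl⟩ := h
    exact ⟨hB, hz, fun x => by simp⟩
  | cons u bad ih =>
    intro B z hB hz
    have hu : u < n := hbad u (by simp)
    have hbad' : ∀ v ∈ bad, v < n := fun v hv => hbad v (by simp [hv])
    rw [List.foldl_cons]
    rcases h : elim (some (B, z)) u with _ | ⟨B1, z1⟩
    · rw [foldl_elim_none]
      refine ⟨by simp, fun _ => ?_⟩
      rintro ⟨x, hx, hx'⟩
      exact elim_none hu h x hx (hx' u hu (by simp))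
    · obtain ⟨h1, h2, h3⟩ := elim_some hB hz hu h
      obtain ⟨h4, h5⟩ := ih hbad' B1 z1 h1 h2
      have key : ∀ x : Fin n → ZMod 2, (x - toV n z1 ∈ spanOf n B1 ∧
          ∀ v (hv : v < n), v ∈ bad → x ⟨v, hv⟩ = 0) ↔ (x - toV n z ∈ spanOf n B ∧
          ∀ v (hv : v < n), v ∈ u :: bad → x ⟨v, hv⟩ = 0) := by
        intro x
        rw [h3 x, and_assoc]
        refine and_congr_right fun _ => ?_
        constructor
        · rintro ⟨h6, h7⟩ v hv hv'
          rcases List.mem_cons.1 hv' with rfl | hv'
          · exact h6
          · exact h7 v hv hv'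
        · intro h6
          exact ⟨h6 u hu (by simp), fun v hv hv' => h6 v hv (by simp [hv'])⟩
      refine ⟨?_, ?_⟩
      · intro B' z' h6
        obtain ⟨h7, h8, h9⟩ := h4 B' z' h6
        exact ⟨h7, h8, fun x => (h9 x).trans (key x)⟩
      · intro h6
        rintro ⟨x, hx⟩
        exact h5 h6 ⟨x, (key x).2 hx⟩

/-- soundness of the solver -/
theorem solve_some {bad : List ℕ} {B : List (List Bool)} {z x : List Bool}
    (hB : ∀ b ∈ B, b.length = n) (hz : z.length = n) (hbad : ∀ u ∈ bad, u < n)
    (h : solve bad B z = some x) :
    x.length = n ∧ toV n x - toV n z ∈ spanOf n B ∧ ∀ u ∈ bad, bit x u = false := by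
  rw [solve, Option.map_eq_some_iff] at h
  obtain ⟨⟨B', z'⟩, h1, rfl⟩ := h
  obtain ⟨_, h3, h4⟩ := (foldl_elim_spec bad hbad B z hB hz).1 B' z' h1
  obtain ⟨h5, h6⟩ := (h4 (toV n z')).1 (by rw [sub_self]; exact zero_mem _)
  refine ⟨h3, h5, fun u hu => ?_⟩
  exact (toV_eq_zero_iff z' ⟨u, hbad u hu⟩).1 (h6 u (hbad u hu) hu)

/-- completeness of the solver -/
theorem solve_none {bad : List ℕ} {B : List (List Bool)} {z : List Bool}
    (hB : ∀ b ∈ B, b.length = n) (hz : z.length = n) (hbad : ∀ u ∈ bad, u < n)
    (h : solve bad B z = none) :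
    ¬ ∃ w ∈ spanOf n B, ∀ u (hu : u < n), u ∈ bad → (toV n z + w) ⟨u, hu⟩ = 0 := by
  rw [solve, Option.map_eq_none_iff] at h
  rintro ⟨w, hw, hw'⟩
  exact (foldl_elim_spec bad hbad B z hB hz).2 h ⟨toV n z + w, by simpa using hw, hw'⟩

/-- the solver fails exactly if there is no solution -/
theorem solve_isSome_iff {bad : List ℕ} {B : List (List Bool)} {z : List Bool}
    (hB : ∀ b ∈ B, b.length = n) (hz : z.length = n) (hbad : ∀ u ∈ bad, u < n) :
    (solve bad B z).isSome = true ↔
      ∃ w ∈ spanOf n B, ∀ u (hu : u < n), u ∈ bad → (toV n z + w) ⟨u, hu⟩ = 0 := by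
  constructor
  · intro h
    obtain ⟨x, hx⟩ := Option.isSome_iff_exists.1 h
    obtain ⟨_, h2, h3⟩ := solve_some hB hz hbad hx
    refine ⟨_, h2, fun u hu hu' => ?_⟩
    rw [add_sub_cancel]
    exact (toV_eq_zero_iff x ⟨u, hu⟩).2 (h3 u hu')
  · intro h
    by_contra h'
    rw [Option.not_isSome_iff_eq_none] at h'
    exact solve_none hB hz hbad h' h

/-- specification of the membership test -/
theorem inSpan_iff {B : List (List Bool)} {z : List Bool}
    (hB : ∀ b ∈ B, b.length = n) (hz : z.length = n) :
    inSpan B z = true ↔ toV n z ∈ spanOf n B := by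
  rw [inSpan, solve_isSome_iff hB hz (by simp [hz])]
  constructor
  · rintro ⟨w, hw, h⟩
    have h1 : toV n z + w = 0 := by
      funext i
      exact h i i.2 (by simp [hz])
    rw [eq_neg_of_add_eq_zero_left h1]
    exact neg_mem hw
  · intro h
    exact ⟨-toV n z, neg_mem h, fun u hu _ => by rw [add_neg_cancel]; rfl⟩

end spec

end Pool.Agent.PolyTime
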