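import Pool.Agent.Lib.PolyTime.Eq

/-!
# Binary natural numbers in polynomial time
-/

set_option autoImplicit false

namespace Pool.Agent.PolyTime

open D

/-- Natural numbers are encoded in binary. -/
instance : Enc ℕ := ⟨fun n => enc n.bits⟩

lemma enc_nat (n : ℕ) : enc n = enc n.bits := rfl

/-- value of a list of bits, least significant bit first -/
def val : List Bool → ℕ
  | [] => 0
  | b :: l => b.toNat + 2 * val l

@[simp] lemma val_nil : val [] = 0 := rfl
@[simp] lemma val_cons (b : Bool) (l : List Bool) : val (b :: l) = b.toNat + 2 * val l := rfl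

lemma val_append (l1 l2 : List Bool) : val (l1 ++ l2) = val l1 + 2 ^ l1.length * val l2 := by
  induction l1 with
  | nil => simp
  | cons b l ih => simp only [List.cons_append, val_cons, ih, List.length_cons]; ring

lemma val_lt (l : List Bool) : val l < 2 ^ l.length := by
  induction l with
  | nil => simp
  | cons b l ih =>
    rw [val_cons, List.length_cons, pow_succ]
    have : b.toNat ≤ 1 := Bool.toNat_le b
    omega

/-- remove the trailing `false` -/
def trim (l : List Bool) : List Bool := l.foldr (fun b s => bif !b && s.isEmpty then [] else b :: s) []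

@[simp] lemma trim_nil : trim [] = [] := rfl
lemma trim_cons (b : Bool) (l : List Bool) :
    trim (b :: l) = bif !b && (trim l).isEmpty then [] else b :: trim l := rfl

lemma bits_val (l : List Bool) : (val l).bits = trim l := by
  induction l with
  | nil => simp
  | cons b l ih =>
    rw [trim_cons, ← ih, val_cons]
    cases b
    · by_cases h : val l = 0
      · simp [h]
      · have h2 : (val l).bits ≠ [] := by
          intro h3
          have := Nat.size_eq_bits_len (val l)
          rw [h3] at this
          exact h (Nat.size_eq_zero.1 this.symm)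
        have h4 : (val l).bits.isEmpty = false := by
          cases h5 : (val l).bits with
          | nil => exact absurd h5 h2
          | cons _ _ => rfl
        simp only [Bool.toNat_false, zero_add, Nat.bit0_bits _ h, Bool.not_false, h4,
          Bool.and_false, cond_false]
    · simp only [Bool.toNat_true, Bool.not_true, Bool.false_and, cond_false]
      rw [add_comm, Nat.bit1_bits]

lemma val_bits (n : ℕ) : val n.bits = n := by
  induction n using Nat.binaryRec' with
  | zero => simp
  | bit b n h ih =>
    rw [Nat.bits_append_bit n b h, val_cons, ih, Nat.bit_val]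
    omega

lemma bits_inj {m n : ℕ} (h : m.bits = n.bits) : m = n := by
  rw [← val_bits m, h, val_bits]

instance : EncInj ℕ := ⟨fun a b h => by
  rw [enc_nat, enc_nat] at h
  exact bits_inj (EncInj.inj h)⟩

lemma sz_bits_le (l : List Bool) : sz l ≤ 4 * l.length + 1 := by
  have := sz_list_le (l := l) (B := 3) (fun a _ => sz_bool_le a)
  omega

lemma sz_nat (n : ℕ) : sz n = sz n.bits := rfl

lemma sz_nat_le (n : ℕ) : sz n ≤ 4 * n.size + 1 := by
  rw [sz_nat, ← Nat.size_eq_bits_len]
  exact sz_bits_le _

lemma size_lt_sz (n : ℕ) : n.size < sz n := by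
  rw [sz_nat, ← Nat.size_eq_bits_len]
  exact length_lt_sz _

lemma sz_nat_le_of_le {m n : ℕ} (h : m ≤ n) : sz m ≤ 4 * sz n := by
  have h1 := sz_nat_le m
  have h2 := Nat.size_le_size h
  have h3 := size_lt_sz n
  omega

lemma sz_nat_le_self (n : ℕ) : sz n ≤ 4 * n + 1 := by
  have h1 := sz_nat_le n
  have h2 : n.size ≤ n := Nat.size_le.2 n.lt_two_pow_self
  omega

variable {α β γ δ σ : Type*} [Enc α] [Enc β] [Enc γ] [Enc δ] [Enc σ]

@[fun_prop] lemma PT.bits {f : α → ℕ} (hf : PT f) : PT fun a => (f a).bits := hf

lemma PT.trim {f : α → List Bool} (hf : PT f) : PT fun a => trim (f a) := by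
  have h1 : ∀ l : List Bool, sz (PolyTime.trim l) ≤ sz l := by
    intro l
    induction l with
    | nil => simp
    | cons b l ih =>
      rw [trim_cons, sz_cons]
      cases h : (!b && (PolyTime.trim l).isEmpty)
      · simp only [cond_false, sz_cons]; omega
      · simp
  have h2 : ∀ l1 : List Bool,
      l1.foldl (fun s b => bif !b && s.isEmpty then [] else b :: s) [] = PolyTime.trim l1.reverse := by
    intro l1
    rw [PolyTime.trim, List.foldr_reverse]
  have := PT.foldl (g := fun (_ : α) (s : List Bool) (b : Bool) => bif !b && s.isEmpty then [] else b :: s)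
    (s := fun _ => []) (l := fun a => (f a).reverse)
    (PT.bif (by fun_prop) (by fun_prop) (by fun_prop)) (by fun_prop) (by fun_prop)
    (B := fun a => sz (f a)) (PT.bdd hf) (by
      intro a l1 l2 h
      rw [h2]
      refine (h1 _).trans ?_
      rw [sz_reverse]
      refine (sz_sublist_le (l2 := (f a).reverse) ?_).trans (sz_reverse _).le
      rw [h]; exact List.sublist_append_left _ _)
  refine this.congr fun a => ?_
  rw [h2, List.reverse_reverse]

/-- a function given by its list of bits -/
lemma PT.ofBits {f : α → List Bool} (hf : PT f) : PT fun a => val (f a) := by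
  have h : PT fun a => PolyTime.trim (f a) := PT.trim hf
  refine FP.congr h fun a => ?_
  rw [enc_nat, bits_val]

lemma PT.ofBits' {f : α → List Bool} {g : α → ℕ} (hf : PT f) (h : ∀ a, val (f a) = g a) : PT g :=
  (PT.ofBits hf).congr h

@[fun_prop] lemma PT.headD {l : α → List β} {d : α → β} (hl : PT l) (hd : PT d) :
    PT fun a => (l a).headD (d a) := by
  have := PT.listCases (f := d) (g := fun _ b _ => b) hl hd (by fun_prop)
  refine this.congr fun a => ?_
  cases l a <;> rfl

/-- one step of addition -/
def addStep (s : List Bool × Bool × List Bool) (b : Bool) : List Bool × Bool × List Bool :=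
  let h := s.1.headD false
  let c := s.2.1
  (s.1.tail, (b && h) || (c && (b || h)), Bool.xor (Bool.xor b h) c :: s.2.2)

lemma PT.addStep : PT fun p : (List Bool × Bool × List Bool) × Bool => addStep p.1 p.2 := by
  unfold PolyTime.addStep
  fun_prop

lemma addStep_spec (l1 : List Bool) : ∀ (l2 : List Bool) (c : Bool) (acc : List Bool),
    ∃ out : List Bool, ∃ c' : Bool, l1.foldl addStep (l2, c, acc) =
      (l2.drop l1.length, c', out.reverse ++ acc) ∧ out.length = l1.length ∧
      val out + 2 ^ l1.length * (c'.toNat + val (l2.drop l1.length)) = val l1 + val l2 + c.toNat := by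
  induction l1 with
  | nil => intro l2 c acc; exact ⟨[], c, by simp, rfl, by simp; ring⟩
  | cons b l ih =>
    intro l2 c acc
    obtain ⟨out, c', h1, h2, h3⟩ := ih l2.tail ((b && l2.headD false) || (c && (b || l2.headD false)))
      (Bool.xor (Bool.xor b (l2.headD false)) c :: acc)
    refine ⟨Bool.xor (Bool.xor b (l2.headD false)) c :: out, c', ?_, by simp [h2], ?_⟩
    · rw [List.foldl_cons]
      have : addStep (l2, c, acc) b = (l2.tail, ((b && l2.headD false) || (c && (b || l2.headD false))),
        (Bool.xor (Bool.xor b (l2.headD false)) c :: acc)) := rfl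
      rw [this, h1]
      have h5 : List.drop l.length l2.tail = List.drop (b :: l).length l2 := by
        cases l2 <;> simp
      rw [h5]
      simp
    · have h5 : List.drop l.length l2.tail = List.drop (b :: l).length l2 := by
        cases l2 <;> simp
      rw [h5] at h3
      have h6 : val l2 = (l2.headD false).toNat + 2 * val l2.tail := by
        cases l2 <;> simp
      rw [val_cons, val_cons, h6, List.length_cons, pow_succ]
      have h7 : (Bool.xor (Bool.xor b (l2.headD false)) c).toNat +
          2 * ((b && l2.headD false) || (c && (b || l2.headD false))).toNat =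
          b.toNat + (l2.headD false).toNat + c.toNat := by
        cases b <;> cases l2.headD false <;> cases c <;> rfl
      rw [List.length_cons] at h3
      nlinarith [h3, h7]

/-- addition of lists of bits -/
def addBits (l1 l2 : List Bool) : List Bool :=
  let r := (l1 ++ l2.map fun _ => false).foldl addStep (l2, false, [])
  r.2.2.reverse ++ [r.2.1]

lemma val_map_false (l : List Bool) : val (l.map fun _ => false) = 0 := by
  induction l with
  | nil => rfl
  | cons b l ih => rw [List.map_cons, val_cons, ih]; rfl

lemma val_addBits (l1 l2 : List Bool) : val (addBits l1 l2) = val l1 + val l2 := by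
  obtain ⟨out, c', h1, h2, h3⟩ := addStep_spec (l1 ++ l2.map fun _ => false) l2 false []
  rw [addBits, h1]
  have hd : List.drop (l1 ++ l2.map fun _ => false).length l2 = [] := by
    rw [List.drop_eq_nil_iff]; simp
  rw [hd] at h3
  simp only [List.append_nil, List.reverse_reverse, val_append, h2]
  rw [val_append, val_map_false] at h3
  simp only [val_nil, add_zero, mul_zero, Bool.toNat_false] at h3
  rw [val_cons, val_nil, ← h3]
  ring

lemma PT.addBits {f g : α → List Bool} (hf : PT f) (hg : PT g) :
    PT fun a => addBits (f a) (g a) := by
  have h0 : PT fun a => (g a).map fun _ => false :=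
    PT.map (f := fun (_ : α) (_ : Bool) => false) (by fun_prop) hg
  have h1 := PT.foldl (g := fun (_ : α) (s : List Bool × Bool × List Bool) (b : Bool) =>
      PolyTime.addStep s b)
    (s := fun a => (g a, false, [])) (l := fun a => f a ++ (g a).map fun _ => false)
    (PT.addStep.comp (f := fun p : α × (List Bool × Bool × List Bool) × Bool => p.2) (by fun_prop))
    (by fun_prop) (by fun_prop)
    (B := fun a => sz (g a) + 3 + 4 * (sz (f a) + sz (g a)) + 10)
    (((((PT.bdd hg).add (PBd.const 3)).add ((PBd.const 4).mul ((PT.bdd hf).add (PT.bdd hg)))).add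
      (PBd.const 10))) (by
      intro a l1 l2 h
      obtain ⟨out, c', h1, h2, -⟩ := addStep_spec l1 (g a) false []
      rw [h1, sz_pair, sz_pair, List.append_nil, sz_reverse]
      have h3 := sz_bits_le out
      have h4 := sz_drop_le (g a) l1.length
      have h5 := sz_bool_le c'
      have h6 : l1.length ≤ (f a).length + (g a).length := by
        have := congrArg List.length h
        simp at this; omega
      have h7 := length_lt_sz (f a)
      have h8 := length_lt_sz (g a)
      omega)
  unfold PolyTime.addBits
  fun_prop

@[fun_prop] lemma PT.add {f g : α → ℕ} (hf : PT f) (hg : PT g) : PT fun a => f a + g a :=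
  PT.ofBits' (PT.addBits (PT.bits hf) (PT.bits hg)) fun a => by
    rw [val_addBits, val_bits, val_bits]

@[fun_prop] lemma PT.succ {f : α → ℕ} (hf : PT f) : PT fun a => f a + 1 := PT.add hf (PT.const 1)

/-- one step of comparison -/
def leStep (s : List Bool × Bool) (b : Bool) : List Bool × Bool :=
  let h := s.1.headD false
  (s.1.tail, bif Bool.xor b h then h else s.2)

lemma PT.leStep : PT fun p : (List Bool × Bool) × Bool => leStep p.1 p.2 := by
  unfold PolyTime.leStep
  exact PT.pair (by fun_prop) (PT.bif (by fun_prop) (by fun_prop) (by fun_prop))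

lemma leStep_spec (l1 : List Bool) : ∀ (l2 : List Bool) (r : Bool),
    ∃ r', l1.foldl leStep (l2, r) = (l2.drop l1.length, r') ∧
    (r' = true ↔ val l1 < val (l2.take l1.length) ∨ (val l1 = val (l2.take l1.length) ∧ r = true)) := by
  induction l1 with
  | nil => intro l2 r; exact ⟨r, by simp, by simp⟩
  | cons b l ih =>
    intro l2 r
    obtain ⟨r', h1, h2⟩ := ih l2.tail (bif Bool.xor b (l2.headD false) then l2.headD false else r)
    refine ⟨r', ?_, ?_⟩
    · rw [List.foldl_cons]
      have : leStep (l2, r) b = (l2.tail, bif Bool.xor b (l2.headD false) then l2.headD false else r) :=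
        rfl
      rw [this, h1]
      have h5 : List.drop l.length l2.tail = List.drop (b :: l).length l2 := by
        cases l2 <;> simp
      rw [h5]
    · rw [h2]
      have h6 : val (l2.take (b :: l).length) =
          (l2.headD false).toNat + 2 * val (l2.tail.take l.length) := by
        cases l2 <;> simp
      rw [h6, val_cons]
      generalize l2.headD false = h
      generalize val (l2.tail.take l.length) = y
      generalize val l = x
      cases b <;> cases h <;> cases r <;> simp <;> omega

/-- comparison of lists of bits -/
def leBits (l1 l2 : List Bool) : Bool :=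
  ((l1 ++ l2.map fun _ => false).foldl leStep (l2, true)).2

lemma leBits_iff (l1 l2 : List Bool) : leBits l1 l2 = true ↔ val l1 ≤ val l2 := by
  obtain ⟨r', h1, h2⟩ := leStep_spec (l1 ++ l2.map fun _ => false) l2 true
  rw [leBits, h1, h2]
  have hd : List.take (l1 ++ l2.map fun _ => false).length l2 = l2 := by
    rw [List.take_of_length_le]; simp
  rw [hd, val_append, val_map_false]
  simp; omega

lemma PT.leBits {f g : α → List Bool} (hf : PT f) (hg : PT g) :
    PT fun a => leBits (f a) (g a) := by
  have h0 : PT fun a => (g a).map fun _ => false :=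
    PT.map (f := fun (_ : α) (_ : Bool) => false) (by fun_prop) hg
  have h1 := PT.foldl (g := fun (_ : α) (s : List Bool × Bool) (b : Bool) => PolyTime.leStep s b)
    (s := fun a => (g a, true)) (l := fun a => f a ++ (g a).map fun _ => false)
    (PT.leStep.comp (f := fun p : α × (List Bool × Bool) × Bool => p.2) (by fun_prop))
    (by fun_prop) (by fun_prop)
    (B := fun a => sz (g a) + 4)
    ((PT.bdd hg).add (PBd.const 4)) (by
      intro a l1 l2 h
      obtain ⟨r', h1, -⟩ := leStep_spec l1 (g a) true
      rw [h1, sz_pair]
      have h4 := sz_drop_le (g a) l1.length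
      have h5 := sz_bool_le r'
      omega)
  unfold PolyTime.leBits
  fun_prop

@[fun_prop] lemma PT.decide_le {f g : α → ℕ} (hf : PT f) (hg : PT g) :
    PT fun a => decide (f a ≤ g a) := by
  refine (PT.leBits (PT.bits hf) (PT.bits hg)).congr fun a => ?_
  rw [Bool.eq_iff_iff, leBits_iff, val_bits, val_bits, decide_eq_true_iff]

@[fun_prop] lemma PT.decide_lt {f g : α → ℕ} (hf : PT f) (hg : PT g) :
    PT fun a => decide (f a < g a) := by
  refine (PT.decide_le (PT.succ hf) hg).congr fun a => ?_
  rfl

@[fun_prop] lemma PT.max {f g : α → ℕ} (hf : PT f) (hg : PT g) : PT fun a => max (f a) (g a) := by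
  have := PT.ite (p := fun a => f a ≤ g a) (PT.decide_le hf hg) hg hf
  exact this.congr fun a => by rw [max_def]

@[fun_prop] lemma PT.min {f g : α → ℕ} (hf : PT f) (hg : PT g) : PT fun a => min (f a) (g a) := by
  have := PT.ite (p := fun a => f a ≤ g a) (PT.decide_le hf hg) hf hg
  exact this.congr fun a => by rw [min_def]

lemma size_add_le (m n : ℕ) : (m + n).size ≤ m.size + n.size + 1 := by
  rw [Nat.size_le]
  have h1 := Nat.lt_size_self m
  have h2 := Nat.lt_size_self n
  have h3 : 2 ^ m.size ≤ 2 ^ (m.size + n.size) := Nat.pow_le_pow_right (by norm_num) (by omega)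
  have h4 : 2 ^ n.size ≤ 2 ^ (m.size + n.size) := Nat.pow_le_pow_right (by norm_num) (by omega)
  rw [pow_succ]; omega

lemma size_mul_le (m n : ℕ) : (m * n).size ≤ m.size + n.size := by
  rw [Nat.size_le, pow_add]
  exact Nat.mul_lt_mul'' (Nat.lt_size_self m) (Nat.lt_size_self n)

lemma mul_eq_foldr (m n : ℕ) :
    m * n = m.bits.foldr (fun b acc => (bif b then n else 0) + (acc + acc)) 0 := by
  have : ∀ l : List Bool, val l * n = l.foldr (fun b acc => (bif b then n else 0) + (acc + acc)) 0 := by
    intro l
    induction l with
    | nil => simp
    | cons b l ih =>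
      rw [List.foldr_cons, ← ih, val_cons]
      cases b
      · simp; ring
      · simp; ring
  rw [← this, val_bits]

@[fun_prop] lemma PT.mul {f g : α → ℕ} (hf : PT f) (hg : PT g) : PT fun a => f a * g a := by
  have h1 := PT.foldl (g := fun (a : α) (acc : ℕ) (b : Bool) => (bif b then g a else 0) + (acc + acc))
    (s := fun _ => 0) (l := fun a => (f a).bits.reverse)
    (PT.add (PT.bif (by fun_prop) (hg.comp (by fun_prop)) (by fun_prop)) (by fun_prop))
    (by fun_prop) (by fun_prop)
    (B := fun a => 4 * (sz (f a) + sz (g a)) + 1)
    (((PBd.const 4).mul ((PT.bdd hf).add (PT.bdd hg))).add (PBd.const 1)) (by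
      intro a l1 l2 h
      have h2 : ∀ l : List Bool,
          l.foldl (fun (acc : ℕ) (b : Bool) => (bif b then g a else 0) + (acc + acc)) 0 =
          val l.reverse * g a := by
        intro l
        have : ∀ l : List Bool, val l * g a = l.foldr (fun b acc => (bif b then g a else 0) + (acc + acc)) 0 := by
          intro l
          induction l with
          | nil => simp
          | cons b l ih =>
            rw [List.foldr_cons, ← ih, val_cons]
            cases b
            · simp; ring
            · simp; ring
        rw [this, List.foldr_reverse]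
      rw [h2]
      refine (sz_nat_le _).trans ?_
      have h3 := size_mul_le (val l1.reverse) (g a)
      have h4 : (val l1.reverse).size ≤ l1.length := by
        rw [Nat.size_le]
        have := val_lt l1.reverse
        rwa [List.length_reverse] at this
      have h5 : l1.length ≤ (f a).bits.length := by
        have := congrArg List.length h
        simp at this; omega
      have h6 := length_lt_sz (f a).bits
      rw [← sz_nat] at h6
      have h7 := size_lt_sz (g a)
      omega)
  refine h1.congr fun a => ?_
  rw [mul_eq_foldr, List.foldl_reverse]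

/-- length -/
@[fun_prop] lemma PT.length {l : α → List β} (hl : PT l) : PT fun a => (l a).length := by
  have h2 : ∀ (l : List β) (n : ℕ), l.foldl (fun (n : ℕ) (_ : β) => n + 1) n = n + l.length := by
    intro l
    induction l with
    | nil => intro n; simp
    | cons b l ih => intro n; simp [ih]; ring
  have h1 := PT.foldl (g := fun (_ : α) (n : ℕ) (_ : β) => n + 1) (s := fun _ => 0) (l := l)
    (by fun_prop) (by fun_prop) hl (B := fun a => 4 * sz (l a) + 1)
    (((PBd.const 4).mul (PT.bdd hl)).add (PBd.const 1)) (by
      intro a l1 l2 h
      rw [h2, zero_add]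
      have h3 := sz_nat_le_self l1.length
      have h4 : l1.length ≤ (l a).length := by rw [h]; simp
      have h5 := length_lt_sz (l a)
      omega)
  refine h1.congr fun a => ?_
  rw [h2, zero_add]

end Pool.Agent.PolyTime
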