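import Pool.Agent.Lib.PolyTime.F2

/-!
# More list programs: `take`, `drop`, `getD`, `set`, `zipWith`, `count`, sublists of fixed length

* `ksubs k l`: the list of sublists of `l` of length `k` (polynomial time for fixed `k`)
* `tsubs k l`: the same with `min k l.length` instead of `k`
* `vecOf n l`: the parity vector of a list of indices
* `chunks n l`: cut a list into `n` pieces of length `n`
-/

set_option autoImplicit false

namespace Pool.Agent.PolyTime

section general

variable {α β γ δ σ : Type*} [Enc α] [Enc β] [Enc γ] [Enc δ] [Enc σ]

/-! ### general list functions -/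

lemma PT.zipWith {f : α → β → γ → δ} {l : α → List β} {l' : α → List γ}
    (hf : PT fun p : α × β × γ => f p.1 p.2.1 p.2.2) (hl : PT l) (hl' : PT l') :
    PT fun a => List.zipWith (f a) (l a) (l' a) := by
  have h := PT.map (f := fun (a : α) (p : β × γ) => f a p.1 p.2)
    (l := fun a => (l a).zip (l' a)) (hf.comp (f := fun q : α × β × γ => (q.1, q.2.1, q.2.2))
      (by fun_prop)) (by fun_prop)
  refine h.congr fun a => ?_
  exact List.map_zip_eq_zipWith.trans rfl

@[fun_prop] lemma PT.take {l : α → List β} {n : α → ℕ} (hl : PT l) (hn : PT n) :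
    PT fun a => (l a).take (n a) := by
  have h1 := PT.filter (f := fun (a : α) (p : β × ℕ) => decide (p.2 < n a))
    (l := fun a => (l a).zipIdx) (by fun_prop) (by fun_prop)
  have h2 := PT.map (f := fun (_ : α) (p : β × ℕ) => p.1) (by fun_prop) h1
  refine h2.congr fun a => ?_
  have key : ∀ (l : List β) (k n : ℕ),
      ((l.zipIdx k).filter (fun p => decide (p.2 < n))).map (fun p => p.1) = l.take (n - k) := by
    intro l
    induction l with
    | nil => intro k n; simp
    | cons b l ih =>
      intro k n
      rw [List.zipIdx_cons, List.filter_cons]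
      by_cases h : k < n
      · have e : n - k = (n - (k + 1)) + 1 := by omega
        simp only [h, decide_true, if_true, List.map_cons, ih, e, List.take_succ_cons]
      · have e : n - k = 0 := by omega
        have e' : n - (k + 1) = 0 := by omega
        simp [h, ih, e, e']
  have := key (l a) 0 (n a)
  rwa [Nat.sub_zero] at this

@[fun_prop] lemma PT.drop {l : α → List β} {n : α → ℕ} (hl : PT l) (hn : PT n) :
    PT fun a => (l a).drop (n a) := by
  have h1 := PT.filter (f := fun (a : α) (p : β × ℕ) => decide (n a ≤ p.2))
    (l := fun a => (l a).zipIdx) (by fun_prop) (by fun_prop)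
  have h2 := PT.map (f := fun (_ : α) (p : β × ℕ) => p.1) (by fun_prop) h1
  refine h2.congr fun a => ?_
  have key : ∀ (l : List β) (k n : ℕ),
      ((l.zipIdx k).filter (fun p => decide (n ≤ p.2))).map (fun p => p.1) = l.drop (n - k) := by
    intro l
    induction l with
    | nil => intro k n; simp
    | cons b l ih =>
      intro k n
      rw [List.zipIdx_cons, List.filter_cons]
      by_cases h : k < n
      · have e : n - k = (n - (k + 1)) + 1 := by omega
        have h' : ¬ n ≤ k := by omega
        simp [h', ih, e]
      · have e : n - k = 0 := by omega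
        have e' : n - (k + 1) = 0 := by omega
        have h' : n ≤ k := by omega
        simp [h', ih, e, e']
  have := key (l a) 0 (n a)
  rwa [Nat.sub_zero] at this

@[fun_prop] lemma PT.getD {l : α → List β} {n : α → ℕ} {d : α → β} (hl : PT l) (hn : PT n)
    (hd : PT d) : PT fun a => (l a).getD (n a) (d a) := by
  have h := PT.optionCases (f := d) (g := fun (_ : α) (b : β) => b)
    (PT.getElem? hl hn) hd (by fun_prop)
  refine h.congr fun a => ?_
  rw [List.getD_eq_getElem?_getD]
  cases (l a)[n a]? <;> rfl

@[fun_prop] lemma PT.optGetD {o : α → Option β} {d : α → β} (ho : PT o) (hd : PT d) :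
    PT fun a => (o a).getD (d a) := by
  have h := PT.optionCases (f := d) (g := fun (_ : α) (b : β) => b) ho hd (by fun_prop)
  refine h.congr fun a => ?_
  cases o a <;> rfl

lemma PT.optMap {o : α → Option β} {f : α → β → γ} (hf : PT fun p : α × β => f p.1 p.2)
    (ho : PT o) : PT fun a => (o a).map (f a) := by
  have h := PT.optionCases (γ := Option γ) (f := fun _ => none) (g := fun a b => some (f a b)) ho
    (PT.const none) (PT.optSome hf)
  refine h.congr fun a => ?_
  cases o a <;> rfl

lemma PT.optBind {o : α → Option β} {f : α → β → Option γ} (hf : PT fun p : α × β => f p.1 p.2)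
    (ho : PT o) : PT fun a => (o a).bind (f a) := by
  have h := PT.optionCases (γ := Option γ) (f := fun _ => none) (g := fun a b => f a b) ho
    (PT.const none) hf
  refine h.congr fun a => ?_
  cases o a <;> rfl

/-- replace an entry -/
@[fun_prop] lemma PT.set {l : α → List β} {n : α → ℕ} {x : α → β} (hl : PT l) (hn : PT n)
    (hx : PT x) : PT fun a => (l a).set (n a) (x a) := by
  have h := PT.map (f := fun (a : α) (p : β × ℕ) => if p.2 = n a then x a else p.1)
    (l := fun a => (l a).zipIdx)
    (PT.ite (p := fun p : α × β × ℕ => p.2.2 = n p.1) (by fun_prop) (by fun_prop) (by fun_prop))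
    (by fun_prop)
  refine h.congr fun a => ?_
  apply List.ext_getElem
  · simp
  · intro i h1 h2
    simp only [List.getElem_map, List.getElem_zipIdx, List.getElem_set, zero_add]
    by_cases h : i = n a
    · simp [h]
    · simp [h, Ne.symm h]

/-- a constant list of the same length as another one -/
@[fun_prop] lemma PT.replicateLength {m : α → List β} {x : α → γ} (hm : PT m) (hx : PT x) :
    PT fun a => List.replicate (m a).length (x a) := by
  have h := PT.map (f := fun (a : α) (_ : β) => x a) (by fun_prop) hm
  refine h.congr fun a => ?_
  rw [List.map_const']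

/-- tabulation -/
lemma PT.tabulate {m : α → List β} {f : α → ℕ → γ} (hm : PT m)
    (hf : PT fun p : α × ℕ => f p.1 p.2) :
    PT fun a => (List.range (m a).length).map (f a) :=
  PT.map hf (PT.rangeLength hm)

lemma PT.countP {f : α → β → Bool} {l : α → List β} (hf : PT fun p : α × β => f p.1 p.2)
    (hl : PT l) : PT fun a => (l a).countP (f a) := by
  refine (PT.length (PT.filter hf hl)).congr fun a => ?_
  rw [List.countP_eq_length_filter]

@[fun_prop] lemma PT.count [EncInj β] [DecidableEq β] {l : α → List β} {x : α → β} (hl : PT l)
    (hx : PT x) : PT fun a => (l a).count (x a) := by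
  have h := PT.countP (f := fun (a : α) (b : β) => decide (b = x a))
    (by fun_prop) hl
  refine h.congr fun a => ?_
  rw [List.count]
  congr 1

/-- longest prefix satisfying a predicate -/
lemma PT.takeWhile {f : α → β → Bool} {l : α → List β} (hf : PT fun p : α × β => f p.1 p.2)
    (hl : PT l) : PT fun a => (l a).takeWhile (f a) := by
  have key : ∀ a (l : List β) (s : Bool × List β),
      l.foldl (fun (s : Bool × List β) (b : β) =>
        bif s.1 && f a b then (true, b :: s.2) else (false, s.2)) s =
      (bif s.1 then (l.all (f a), (l.takeWhile (f a)).reverse ++ s.2) else (s.1, s.2)) := by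
    intro a l
    induction l with
    | nil => intro s; rcases s with ⟨s1, s2⟩; cases s1 <;> simp
    | cons b l ih =>
      intro s
      rw [List.foldl_cons, ih]
      rcases s with ⟨s1, s2⟩
      cases s1 with
      | false => simp
      | true =>
        cases h : f a b
        · simp [h]
        · simp [h]
  have h1 := PT.foldl (g := fun (a : α) (s : Bool × List β) (b : β) =>
      bif s.1 && f a b then (true, b :: s.2) else (false, s.2))
    (s := fun _ => (true, [])) (l := l) (by
      refine PT.bif (PT.and (by fun_prop) ?_) (by fun_prop) (by fun_prop)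
      exact hf.comp (f := fun p : α × (Bool × List β) × β => (p.1, p.2.2)) (by fun_prop))
    (by fun_prop) hl (B := fun a => sz (l a) + 4) ((PT.bdd hl).add (PBd.const 4)) (by
      intro a l1 l2 h
      rw [key]
      simp only [cond_true, List.append_nil, sz_pair, sz_reverse]
      have h2 := sz_bool_le (l1.all (f a))
      have h3 : sz (l1.takeWhile (f a)) ≤ sz (l a) := by
        apply sz_sublist_le
        rw [h]
        exact (List.takeWhile_sublist _).trans (List.sublist_append_left _ _)
      omega)
  refine (PT.reverse (PT.snd h1)).congr fun a => ?_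
  rw [key]; simp

/-- remove the longest prefix satisfying a predicate -/
lemma PT.dropWhile {f : α → β → Bool} {l : α → List β} (hf : PT fun p : α × β => f p.1 p.2)
    (hl : PT l) : PT fun a => (l a).dropWhile (f a) := by
  have h := PT.drop hl (PT.length (PT.takeWhile hf hl))
  refine h.congr fun a => ?_
  have key : ∀ l : List β, l.drop (l.takeWhile (f a)).length = l.dropWhile (f a) := by
    intro l
    induction l with
    | nil => simp
    | cons b l ih =>
      cases h : f a b
      · simp [h]
      · simp [h, ih]
  exact key _

@[fun_prop] lemma PT.getLast? {l : α → List β} (hl : PT l) : PT fun a => (l a).getLast? := by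
  refine (PT.head? (PT.reverse hl)).congr fun a => ?_
  rw [List.head?_reverse]

@[fun_prop] lemma PT.dropLast {l : α → List β} (hl : PT l) : PT fun a => (l a).dropLast := by
  refine (PT.reverse (PT.tail (PT.reverse hl))).congr fun a => ?_
  rw [List.tail_reverse, List.reverse_reverse]

end general

/-! ### sublists of a given length -/

section ksubs

/-- the sublists of length `k` -/
def ksubs {α : Type*} : ℕ → List α → List (List α)
  | 0, _ => [[]]
  | _ + 1, [] => []
  | k + 1, a :: l => (ksubs k l).map (fun t => a :: t) ++ ksubs (k + 1) l

/-- the sublists of length `min k l.length` -/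
def tsubs {α : Type*} (k : ℕ) (l : List α) : List (List α) :=
  if k ≤ l.length then ksubs k l else [l]

variable {α β γ : Type*}

@[simp] lemma ksubs_zero (l : List β) : ksubs 0 l = [[]] := by cases l <;> rfl

@[simp] lemma ksubs_succ_nil (k : ℕ) : ksubs (k + 1) ([] : List β) = [] := rfl

lemma ksubs_succ_cons (k : ℕ) (a : β) (l : List β) :
    ksubs (k + 1) (a :: l) = (ksubs k l).map (fun t => a :: t) ++ ksubs (k + 1) l := rfl

lemma mem_ksubs {k : ℕ} {l T : List β} : T ∈ ksubs k l ↔ T.Sublist l ∧ T.length = k := by
  induction l generalizing k T with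
  | nil =>
    cases k with
    | zero => simp
    | succ k =>
      simp only [ksubs_succ_nil, List.not_mem_nil, List.sublist_nil, false_iff, not_and]
      rintro rfl; simp
  | cons a l ih =>
    cases k with
    | zero =>
      simp only [ksubs_zero, List.mem_singleton, List.length_eq_zero_iff]
      constructor
      · rintro rfl; exact ⟨List.nil_sublist _, rfl⟩
      · exact fun h => h.2
    | succ k =>
      rw [ksubs_succ_cons, List.mem_append, List.mem_map, ih]
      constructor
      · rintro (⟨t, ht, rfl⟩ | ⟨h1, h2⟩)
        · rw [ih] at ht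
          exact ⟨ht.1.cons_cons a, by simp [ht.2]⟩
        · exact ⟨h1.cons a, h2⟩
      · rintro ⟨h1, h2⟩
        cases h1 with
        | cons _ h => exact Or.inr ⟨h, h2⟩
        | cons_cons _ h =>
          refine Or.inl ⟨_, ih.2 ⟨h, ?_⟩, rfl⟩
          simpa using h2

lemma mem_tsubs {k : ℕ} {l T : List β} :
    T ∈ tsubs k l ↔ T.Sublist l ∧ T.length = min k l.length := by
  unfold tsubs
  split_ifs with h
  · rw [mem_ksubs, min_eq_left h]
  · rw [List.mem_singleton, min_eq_right (by omega)]
    constructor
    · rintro rfl; exact ⟨List.Sublist.refl _, rfl⟩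
    · rintro ⟨h1, h2⟩; exact h1.eq_of_length h2

variable [Enc α] [Enc β] [Enc γ]

lemma length_ksubs_le (k : ℕ) (l : List β) : (ksubs k l).length ≤ sz l ^ k := by
  induction l generalizing k with
  | nil => cases k <;> simp
  | cons a l ih =>
    cases k with
    | zero => simp
    | succ k =>
      rw [ksubs_succ_cons, List.length_append, List.length_map, sz_cons]
      have h1 := ih k
      have h2 := ih (k + 1)
      have h3 : sz l + 1 ≤ sz a + sz l + 1 := by omega
      calc (ksubs k l).length + (ksubs (k + 1) l).length ≤ sz l ^ k + sz l ^ (k + 1) :=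
            add_le_add h1 h2
        _ = sz l ^ k * (sz l + 1) := by ring
        _ ≤ (sz l + 1) ^ k * (sz l + 1) := by gcongr; omega
        _ = (sz l + 1) ^ (k + 1) := by ring
        _ ≤ (sz a + sz l + 1) ^ (k + 1) := by gcongr

lemma sz_ksubs_le (k : ℕ) (l : List β) : sz (ksubs k l) ≤ sz l ^ k * (sz l + 1) + 1 := by
  have h1 : sz (ksubs k l) ≤ (ksubs k l).length * (sz l + 1) + 1 :=
    sz_list_le fun T hT => sz_sublist_le (mem_ksubs.1 hT).1
  have h2 := Nat.mul_le_mul_right (sz l + 1) (length_ksubs_le k l)
  omega

/-- for fixed `k`, the list of sublists of length `k` is computable in polynomial time -/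
@[fun_prop] lemma PT.ksubs (k : ℕ) {l : α → List β} (hl : PT l) : PT fun a => ksubs k (l a) := by
  suffices h : ∀ k : ℕ, PT fun l : List β => PolyTime.ksubs k l from (h k).comp hl
  clear hl l k
  intro k
  induction k with
  | zero => simpa using PT.const (α := List β) ([[]] : List (List β))
  | succ k ih =>
    have key : ∀ (l suf : List β),
        l.foldl (fun (s : List β × List (List β)) (b : β) =>
          (b :: s.1, (PolyTime.ksubs k s.1).map (fun t => b :: t) ++ s.2))
          (suf, PolyTime.ksubs (k + 1) suf) =
        (l.reverse ++ suf, PolyTime.ksubs (k + 1) (l.reverse ++ suf)) := by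
      intro l
      induction l with
      | nil => intro suf; simp
      | cons b l ih2 =>
        intro suf
        rw [List.foldl_cons, ← ksubs_succ_cons, ih2]
        simp
    have h1 := PT.foldl (g := fun (_ : List β) (s : List β × List (List β)) (b : β) =>
        (b :: s.1, (PolyTime.ksubs k s.1).map (fun t => b :: t) ++ s.2))
      (s := fun _ => ([], [])) (l := fun l : List β => l.reverse) (by
        refine PT.pair (by fun_prop) (PT.append ?_ (by fun_prop))
        refine PT.map (f := fun (p : List β × (List β × List (List β)) × β) (t : List β) =>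
          p.2.2 :: t) (by fun_prop) ?_
        exact ih.comp (by fun_prop)) (by fun_prop) (by fun_prop)
      (B := fun l => sz l + (sz l ^ (k + 1) * (sz l + 1) + 1) + 1)
      (((PBd.sz).add ((((PBd.sz).pow (k + 1)).mul ((PBd.sz).add (PBd.const 1))).add
        (PBd.const 1))).add (PBd.const 1)) (by
        intro l l1 l2 h
        have h2 := key l1 []
        simp only [ksubs_succ_nil, List.append_nil] at h2
        rw [h2, sz_pair, sz_reverse]
        have h3 : sz l1 ≤ sz l := by
          rw [← sz_reverse l, h]
          exact sz_sublist_le (List.sublist_append_left _ _)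
        have h4 := sz_ksubs_le (k + 1) l1.reverse
        rw [sz_reverse] at h4
        have h5 : sz l1 ^ (k + 1) * (sz l1 + 1) ≤ sz l ^ (k + 1) * (sz l + 1) := by gcongr
        omega)
    refine (PT.snd h1).congr fun l => ?_
    have h2 := key l.reverse []
    simp only [ksubs_succ_nil, List.append_nil, List.reverse_reverse] at h2
    rw [h2]

@[fun_prop] lemma PT.tsubs (k : ℕ) {l : α → List β} (hl : PT l) : PT fun a => tsubs k (l a) := by
  unfold PolyTime.tsubs
  exact PT.ite (p := fun a => k ≤ (l a).length) (by fun_prop) (by fun_prop) (by fun_prop)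

end ksubs

/-! ### parity vectors and chunks -/

section vec

/-- parity vector of a list of indices -/
def vecOf (n : ℕ) (l : List ℕ) : List Bool := (List.range n).map fun i => decide (l.count i % 2 = 1)

/-- cut a list into `n` pieces of length `n` -/
def chunks {α : Type*} (n : ℕ) (l : List α) : List (List α) :=
  (List.range n).map fun i => (l.drop (i * n)).take n

variable {α β γ : Type*} [Enc α] [Enc β] [Enc γ]

@[simp] lemma length_vecOf (n : ℕ) (l : List ℕ) : (vecOf n l).length = n := by simp [vecOf]

lemma bit_vecOf (n : ℕ) (l : List ℕ) (i : ℕ) :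
    bit (vecOf n l) i = (decide (i < n) && decide (l.count i % 2 = 1)) := by
  by_cases h : i < n
  · rw [bit_eq_getElem (by simpa using h)]
    simp [vecOf, h]
  · rw [bit_of_length_le (by simpa using h)]
    simp [h]

lemma PT.vecOf {m : α → List β} {l : α → List ℕ} (hm : PT m) (hl : PT l) :
    PT fun a => vecOf (m a).length (l a) := by
  unfold PolyTime.vecOf
  refine PT.map (f := fun a i => decide ((l a).count i % 2 = 1)) ?_ (by fun_prop)
  refine PT.decide_eq (PT.mod (PT.count (hl.comp (by fun_prop)) (by fun_prop)) (PT.const 2))
    (PT.const 1)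

lemma PT.chunks {m : α → List β} {l : α → List γ} (hm : PT m) (hl : PT l) :
    PT fun a => chunks (m a).length (l a) := by
  unfold PolyTime.chunks
  refine PT.map (f := fun a i => ((l a).drop (i * (m a).length)).take (m a).length) ?_
    (by fun_prop)
  have h1 : PT fun p : α × ℕ => l p.1 := hl.comp (by fun_prop)
  have h2 : PT fun p : α × ℕ => m p.1 := hm.comp (by fun_prop)
  fun_prop

lemma length_chunks {β : Type*} (n : ℕ) (l : List β) : (chunks n l).length = n := by simp [chunks]

lemma chunks_getElem {β : Type*} (n : ℕ) (l : List β) (i : ℕ) (h : i < (chunks n l).length) :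
    (chunks n l)[i] = (l.drop (i * n)).take n := by
  simp [chunks]

/-- the entries of the pieces are entries of the list -/
lemma chunks_getElem?_getElem? {β : Type*} (n : ℕ) (l : List β) (i j : ℕ) (hi : i < n)
    (hj : j < n) : (((chunks n l)[i]?).getD [])[j]? = l[i * n + j]? := by
  simp [chunks, hi, hj, List.getElem?_drop]

end vec

end Pool.Agent.PolyTime
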