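import Pool.Agent.Lib.PolyTime.Final
import Pool.Agent.Lib.PolyTime.More

/-!
# Machines whose input is a string over `Option Bool`

`tmOptBool` : a program which, from the doubled string `dbl (ea a)` (two Booleans for each input
symbol) computes the Boolean `f a`, gives a machine deciding `f` with input `ea a : List (Option Bool)`.

`PT.tmPair` : if `R : List Bool × List Bool → Bool` is in `PT`, then it is decided in polynomial
time by a machine to which the pair `(x, y)` is given as the string `x # y`, where `#` is `none`.
-/

set_option autoImplicit false

namespace Pool.Agent.PolyTime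

open Turing

/-- the doubled string: two Booleans for every symbol -/
def dbl (l : List (Option Bool)) : List Bool := l.flatMap fun o => [o.isSome, o.getD false]

lemma dbl_nil : dbl [] = [] := rfl

lemma dbl_cons (o : Option Bool) (l : List (Option Bool)) :
    dbl (o :: l) = o.isSome :: o.getD false :: dbl l := rfl

lemma dbl_append (l l' : List (Option Bool)) : dbl (l ++ l') = dbl l ++ dbl l' :=
  List.flatMap_append

lemma length_dbl (l : List (Option Bool)) : (dbl l).length = 2 * l.length := by
  induction l with
  | nil => rfl
  | cons o l ih => rw [dbl_cons, List.length_cons, List.length_cons, List.length_cons, ih]; ring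

/-! ### A machine with one more stack -/

/-- the alphabets: one stack over `Option Bool`, the others over `Bool` -/
abbrev XG : Option Reg → Type
  | none => Option Bool
  | some _ => Bool

/-- add a passive stack to a statement and change the labels -/
def liftStmt {Λ Λ' : Type} (e : Λ → Λ') : TM2.Stmt (fun _ : Reg => Bool) Λ (Option Bool) →
    TM2.Stmt XG Λ' (Option Bool × Option (Option Bool))
  | .push k f q => .push (some k) (fun v => f v.1) (liftStmt e q)
  | .peek k f q => .peek (some k) (fun v x => (f v.1 x, v.2)) (liftStmt e q)
  | .pop k f q => .pop (some k) (fun v x => (f v.1 x, v.2)) (liftStmt e q)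
  | .load f q => .load (fun v => (f v.1, v.2)) (liftStmt e q)
  | .branch p q₁ q₂ => .branch (fun v => p v.1) (liftStmt e q₁) (liftStmt e q₂)
  | .goto l => .goto fun v => e (l v.1)
  | .halt => .halt

/-- add the contents of the additional stack -/
def liftSt (u : List (Option Bool)) (s : St) : ∀ k, List (XG k)
  | none => u
  | some k => s k

/-- the configuration with the additional stack -/
def liftCfg {Λ Λ' : Type} (e : Λ → Λ') (w : Option (Option Bool)) (u : List (Option Bool))
    (c : TM2.Cfg (fun _ : Reg => Bool) Λ (Option Bool)) :
    TM2.Cfg XG Λ' (Option Bool × Option (Option Bool)) :=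
  ⟨c.l.map e, (c.var, w), liftSt u c.stk⟩

lemma liftSt_update (u : List (Option Bool)) (s : St) (k : Reg) (l : List Bool) :
    Function.update (liftSt u s) (some k) l = liftSt u (Function.update s k l) := by
  funext k'
  cases k' with
  | none => rfl
  | some k' =>
    by_cases h : k' = k
    · subst h
      rw [Function.update_self]
      show _ = Function.update s k' l k'
      rw [Function.update_self]
    · rw [Function.update_of_ne (by simpa using h)]
      show s k' = Function.update s k l k'
      rw [Function.update_of_ne h]

lemma stepAux_lift {Λ Λ' : Type} (e : Λ → Λ') (w : Option (Option Bool))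
    (u : List (Option Bool)) (q : TM2.Stmt (fun _ : Reg => Bool) Λ (Option Bool)) :
    ∀ (v : Option Bool) (s : St),
      TM2.stepAux (liftStmt e q) (v, w) (liftSt u s) = liftCfg e w u (TM2.stepAux q v s) := by
  induction q with
  | push k f q ih =>
    intro v s
    show TM2.stepAux (liftStmt e q) (v, w) (Function.update (liftSt u s) (some k) (f v :: s k)) = _
    rw [liftSt_update]
    exact ih _ _
  | peek k f q ih => intro v s; exact ih _ _
  | pop k f q ih =>
    intro v s
    show TM2.stepAux (liftStmt e q) (f v (s k).head?, w)
      (Function.update (liftSt u s) (some k) (s k).tail) = _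
    rw [liftSt_update]
    exact ih _ _
  | load f q ih => intro v s; exact ih _ _
  | branch p q₁ q₂ ih₁ ih₂ =>
    intro v s
    show cond (p v) (TM2.stepAux (liftStmt e q₁) (v, w) (liftSt u s))
      (TM2.stepAux (liftStmt e q₂) (v, w) (liftSt u s)) =
        liftCfg e w u (cond (p v) (TM2.stepAux q₁ v s) (TM2.stepAux q₂ v s))
    cases p v with
    | true => exact ih₁ _ _
    | false => exact ih₂ _ _
  | goto l => intro v s; rfl
  | halt => intro v s; rfl

/-- the statement which reads one input symbol -/
def readStmt {Λ : Type} (next : Λ) :
    TM2.Stmt XG (Option Λ) (Option Bool × Option (Option Bool)) :=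
  .pop none (fun v x => (v.1, x)) (.branch (fun v => v.2.isSome)
    (.push (some .a) (fun v => (v.2.getD none).isSome)
      (.push (some .a) (fun v => (v.2.getD none).getD false) (.goto fun _ => none)))
    (.goto fun _ => some next))

/-- the statements of the machine of a command -/
def mfun (c : Cmd) :
    Option (Lbl c) → TM2.Stmt (fun _ : Reg => Bool) (Option (Lbl c)) (Option Bool)
  | none => .load (fun _ => none) .halt
  | some l => stmt c some none l

/-- the statements of the machine which first reads the input, then runs the command -/
def xfun (c : Cmd) : Option (Option (Lbl c)) →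
    TM2.Stmt XG (Option (Option (Lbl c))) (Option Bool × Option (Option Bool))
  | none => readStmt (some (entry c))
  | some l => liftStmt some (mfun c l)

/-- the machine: first read the input, then run the command -/
def xmachine (c : Cmd) : FinTM2 where
  K := Option Reg
  k₀ := none
  k₁ := some .m
  Γ := XG
  Λ := Option (Option (Lbl c))
  main := none
  σ := Option Bool × Option (Option Bool)
  initialState := (none, none)
  Γk₀Fin := inferInstanceAs (Fintype (Option Bool))
  m := xfun c

lemma xstep_lift (c : Cmd) (w : Option (Option Bool)) (u : List (Option Bool))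
    (x : TM2.Cfg (fun _ : Reg => Bool) (Option (Lbl c)) (Option Bool)) :
    TM2.step (xfun c) (liftCfg some w u x) =
      (TM2.step (mfun c) x).map (liftCfg some w u) := by
  obtain ⟨l, v, s⟩ := x
  cases l with
  | none => rfl
  | some l =>
    show some (TM2.stepAux (liftStmt some (mfun c l)) (v, w) (liftSt u s)) = _
    rw [stepAux_lift]
    rfl

lemma xsteps_lift (c : Cmd) (w : Option (Option Bool)) (u : List (Option Bool)) (t : ℕ) :
    ∀ x : Option (TM2.Cfg (fun _ : Reg => Bool) (Option (Lbl c)) (Option Bool)),
      (flip bind (TM2.step (xfun c)))^[t] (x.map (liftCfg some w u)) =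
        ((flip bind (TM2.step (mfun c)))^[t] x).map (liftCfg some w u) := by
  induction t with
  | zero => intro x; rfl
  | succ t ih =>
    intro x
    rw [Function.iterate_succ_apply, Function.iterate_succ_apply, ← ih]
    congr 1
    cases x with
    | none => rfl
    | some x => exact xstep_lift c w u x

/-- the reading loop -/
lemma read_steps (c : Cmd) (l : List (Option Bool)) : ∀ (a : List Bool)
    (w : Option (Option Bool)),
    (flip bind (TM2.step (xfun c)))^[l.length + 1]
      (some ⟨some none, (none, w), liftSt l (st [] a [] [])⟩) =
      some ⟨some (some (some (entry c))), (none, none),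
        liftSt [] (st [] ((dbl l).reverse ++ a) [] [])⟩ := by
  induction l with
  | nil =>
    intro a w
    show some _ = some _
    congr 1
    show TM2.Cfg.mk _ _ (Function.update (liftSt [] (st [] a [] [])) none []) = _
    congr 1
    funext k
    cases k with
    | none => rfl
    | some k => rfl
  | cons o l ih =>
    intro a w
    rw [List.length_cons, Function.iterate_succ_apply]
    have h := ih (o.getD false :: o.isSome :: a) (some o)
    have e : (dbl (o :: l)).reverse ++ a = (dbl l).reverse ++ (o.getD false :: o.isSome :: a) := by
      rw [dbl_cons]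
      simp
    rw [e, ← h]
    congr 1
    show some _ = some _
    congr 1
    show TM2.Cfg.mk _ _ _ = _
    congr 1
    funext k
    cases k with
    | none => rfl
    | some k => cases k <;> rfl

/-- the result of the whole machine -/
theorem xmachine_outputs {c : Cmd} {x : List (Option Bool)} {y : List Bool} {t : ℕ}
    (h : Run c (st [] (dbl x).reverse [] []) (st y [] [] []) t) :
    Nonempty (TM2OutputsInTime (xmachine c) x (some y) (x.length + 1 + (t + 1))) := by
  obtain ⟨v, hv⟩ := run_steps (mfun c) h some none (fun l => rfl) none
  have h1 : initList (xmachine c) x = ⟨some none, (none, none), liftSt x (st [] [] [] [])⟩ := by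
    unfold initList
    congr 1
    funext k
    cases k with
    | none => rfl
    | some k => cases k <;> rfl
  have h2 : haltList (xmachine c) y = ⟨none, (none, none), liftSt [] (st y [] [] [])⟩ := by
    unfold haltList
    congr 1
    funext k
    cases k with
    | none => rfl
    | some k => cases k <;> rfl
  have h3 : (flip bind (TM2.step (mfun c)))^[t + 1] (some ⟨some (some (entry c)), none,
      st [] (dbl x).reverse [] []⟩) = some ⟨none, none, st y [] [] []⟩ :=
    steps_trans _ hv rfl
  have h4 := read_steps c x [] none
  rw [List.append_nil] at h4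
  have h5 := xsteps_lift c none [] (t + 1) (some ⟨some (some (entry c)), none,
      st [] (dbl x).reverse [] []⟩)
  rw [h3] at h5
  have h6 := steps_trans _ h4 h5
  refine ⟨⟨⟨x.length + 1 + (t + 1), ?_⟩, le_rfl⟩⟩
  show (flip bind (xmachine c).step)^[x.length + 1 + (t + 1)] (some (initList (xmachine c) x)) =
    some (haltList (xmachine c) y)
  rw [h1, h2]
  exact h6

/-- the general criterion -/
theorem xcomputable_of {α β : Type} (ea : α → List (Option Bool)) (eb : β → List Bool)
    (f : α → β) (c : Cmd) (p : Polynomial ℕ)
    (h : ∀ a, Ex c (st [] (dbl (ea a)).reverse [] []) (st (eb (f a)) [] [] [])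
      (p.eval (ea a).length)) :
    Nonempty (TM2ComputableInPolyTime ea eb f) := by
  have h1 : ∀ a, Nonempty (TM2OutputsInTime (xmachine c) (ea a) (some (eb (f a)))
      ((ea a).length + 1 + (p.eval (ea a).length + 1))) := by
    intro a
    obtain ⟨t, ht, hr⟩ := h a
    obtain ⟨⟨o, ho⟩⟩ := xmachine_outputs hr
    exact ⟨⟨o, le_trans ho (by omega)⟩⟩
  refine ⟨⟨⟨xmachine c, Equiv.refl _, Equiv.refl _⟩, p + Polynomial.X + Polynomial.C 2,
    fun a => ?_⟩⟩
  have e3 : (p + Polynomial.X + Polynomial.C 2).eval (ea a).length =
      (ea a).length + 1 + (p.eval (ea a).length + 1) := by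
    simp; ring
  have e1 : List.map id (ea a) = ea a := List.map_id _
  have e2 : List.map id (eb (f a)) = eb (f a) := List.map_id _
  have o := Classical.choice (h1 a)
  rw [← e3] at o
  obtain ⟨⟨n, hn⟩, hle⟩ := o
  refine ⟨⟨n, ?_⟩, hle⟩
  rw [← e1, ← e2] at hn
  exact hn

/-- Boolean functions of strings over `Option Bool`. -/
theorem tmOptBool {α : Type} {ea : α → List (Option Bool)} {f : α → Bool}
    (h : FP (fun a => enc (dbl (ea a))) fun a => enc (f a)) :
    Nonempty (TM2ComputableInPolyTime ea Computability.encodeBool f) := by
  obtain ⟨c, T, ⟨C, k, hC⟩, hF⟩ := h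
  refine xcomputable_of ea _ f (.seq (.push .m false) (.seq consLoop (.seq c boolOut)))
    (Polynomial.C 14 * Polynomial.X + Polynomial.C 7 + Polynomial.C C *
      (Polynomial.C 8 * Polynomial.X + Polynomial.C 1) ^ k) fun a => ?_
  have h1 := hF a []
  rw [List.append_nil, List.append_nil] at h1
  have h2 := consLoop_run (dbl (ea a)).reverse []
  rw [List.append_nil, List.reverse_reverse, List.length_reverse] at h2
  refine (Ex.push_m.seq (h2.seq (h1.seq (boolOut_run (f a))))).mono ?_
  have h3 : T a ≤ C * (enc (dbl (ea a))).size ^ k := hC a
  have h4 : (enc (dbl (ea a))).size ≤ 8 * (ea a).length + 1 := by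
    have := sz_boolList_le (dbl (ea a))
    rw [length_dbl] at this
    unfold sz at this
    omega
  have h5 : C * (enc (dbl (ea a))).size ^ k ≤ C * (8 * (ea a).length + 1) ^ k :=
    Nat.mul_le_mul le_rfl (Nat.pow_le_pow_left h4 k)
  have h6 : (Polynomial.C 14 * Polynomial.X + Polynomial.C 7 + Polynomial.C C *
      (Polynomial.C 8 * Polynomial.X + Polynomial.C 1) ^ k).eval (ea a).length =
      14 * (ea a).length + 7 + C * (8 * (ea a).length + 1) ^ k := by
    simp
  rw [h6, length_dbl]
  omega

/-! ### Pairs -/

/-- state of the decoder: pending symbol, phase, the two strings (reversed) -/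
abbrev PS : Type := Option Bool × Bool × List Bool × List Bool

/-- one step of the decoder -/
def pairStep (s : PS) (b : Bool) : PS :=
  match s.1 with
  | none => (some b, s.2)
  | some m => bif m then (bif s.2.1 then (none, true, s.2.2.1, b :: s.2.2.2)
      else (none, false, b :: s.2.2.1, s.2.2.2)) else (none, true, s.2.2.1, s.2.2.2)

/-- decode the doubled string of a pair -/
def undbl (l : List Bool) : List Bool × List Bool :=
  ((l.foldl pairStep (none, false, [], [])).2.2.1.reverse,
    (l.foldl pairStep (none, false, [], [])).2.2.2.reverse)

lemma foldl_pairStep_snd (y : List Bool) : ∀ (a b : List Bool),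
    (dbl (y.map some)).foldl pairStep (none, true, a, b) = (none, true, a, y.reverse ++ b) := by
  induction y with
  | nil => intro a b; rfl
  | cons x y ih =>
    intro a b
    rw [List.map_cons, dbl_cons, List.foldl_cons, List.foldl_cons]
    show (dbl (y.map some)).foldl pairStep (none, true, a, x :: b) = _
    rw [ih]
    simp

lemma foldl_pairStep_fst (x : List Bool) : ∀ (a : List Bool),
    (dbl (x.map some)).foldl pairStep (none, false, a, []) = (none, false, x.reverse ++ a, []) := by
  induction x with
  | nil => intro a; rfl
  | cons z x ih =>
    intro a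
    rw [List.map_cons, dbl_cons, List.foldl_cons, List.foldl_cons]
    show (dbl (x.map some)).foldl pairStep (none, false, z :: a, []) = _
    rw [ih]
    simp

lemma undbl_dbl (x y : List Bool) : undbl (dbl (x.map some ++ none :: y.map some)) = (x, y) := by
  have h : (dbl (x.map some ++ none :: y.map some)).foldl pairStep (none, false, [], []) =
      (none, true, x.reverse, y.reverse) := by
    rw [dbl_append, List.foldl_append, foldl_pairStep_fst, dbl_cons, List.foldl_cons,
      List.foldl_cons]
    show (dbl (y.map some)).foldl pairStep (none, true, x.reverse ++ [], []) = _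
    rw [foldl_pairStep_snd]
    simp
  rw [undbl, h]
  simp

lemma PT_pairStep : PT fun p : PS × Bool => pairStep p.1 p.2 := by
  have h := PT.optionCases (o := fun p : PS × Bool => p.1.1) (f := fun p : PS × Bool =>
    ((some p.2, p.1.2) : PS)) (g := fun (p : PS × Bool) (m : Bool) =>
    ((bif m then (bif p.1.2.1 then (none, true, p.1.2.2.1, p.2 :: p.1.2.2.2)
      else (none, false, p.2 :: p.1.2.2.1, p.1.2.2.2)) else
      (none, true, p.1.2.2.1, p.1.2.2.2)) : PS)) (by fun_prop) (by fun_prop)
    (PT.bif (by fun_prop) (PT.bif (by fun_prop) (by fun_prop) (by fun_prop)) (by fun_prop))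
  refine h.congr fun p => ?_
  obtain ⟨⟨o, q⟩, b⟩ := p
  cases o <;> rfl

lemma pairStep_sz (s : PS) (b : Bool) : sz (pairStep s b) ≤ sz s + sz b + 8 := by
  obtain ⟨o, h, x, y⟩ := s
  have h1 := sz_bool_le h
  have h2 := one_le_sz h
  have h3 := one_le_sz b
  cases o with
  | none =>
    show sz (some b, h, x, y) ≤ _
    simp only [sz_pair, sz_some, sz_none]
    omega
  | some m =>
    have h4 := one_le_sz m
    show sz (bif m then (bif h then (none, true, x, b :: y)
      else (none, false, b :: x, y)) else (none, true, x, y) : PS) ≤ _
    cases m <;> cases h <;> simp only [cond_true, cond_false, sz_pair, sz_some, sz_none, sz_cons,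
      sz_true, sz_false] at * <;> omega

lemma foldl_pairStep_sz (l : List Bool) : ∀ s : PS,
    sz (l.foldl pairStep s) ≤ sz s + 11 * l.length := by
  induction l with
  | nil => intro s; simp
  | cons b l ih =>
    intro s
    rw [List.foldl_cons, List.length_cons]
    have h1 := ih (pairStep s b)
    have h2 := pairStep_sz s b
    have h3 := sz_bool_le b
    omega

lemma PT_undbl : PT undbl := by
  have h := PT.foldl (g := fun (_ : List Bool) (s : PS) (b : Bool) => pairStep s b)
    (s := fun _ => (none, false, [], [])) (l := fun l : List Bool => l)
    (PT_pairStep.comp (f := fun p : List Bool × PS × Bool => (p.2.1, p.2.2)) (by fun_prop))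
    (by fun_prop) PT.id
    (B := fun l => 20 + 11 * sz l) ((PBd.const 20).add ((PBd.const 11).mul PBd.sz)) (by
      intro l l1 l2 h
      have h1 := foldl_pairStep_sz l1 (none, false, [], [])
      have h2 : l1.length ≤ sz l := by
        have := length_lt_sz l
        have h3 : l.length = l1.length + l2.length := by rw [h]; simp
        omega
      have h4 : sz ((none, false, [], []) : PS) ≤ 20 := by
        simp only [sz_pair, sz_none, sz_false, sz_nil]
        omega
      show sz (l1.foldl pairStep (none, false, [], [])) ≤ _
      omega)
  exact PT.pair (PT.reverse (PT.fst (PT.snd (PT.snd h))))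
    (PT.reverse (PT.snd (PT.snd (PT.snd h))))

/-- Relations in `PT` are decided by machines with input `x # y`. -/
theorem PT.tmPair {R : List Bool × List Bool → Bool} (h : PT R) :
    Nonempty (TM2ComputableInPolyTime
      (fun p : List Bool × List Bool => p.1.map some ++ none :: p.2.map some)
      Computability.encodeBool R) := by
  refine tmOptBool ?_
  have h1 := FP.reindex (PT.comp h PT_undbl)
    (fun p : List Bool × List Bool => dbl (p.1.map some ++ none :: p.2.map some))
  refine h1.congr fun p => ?_
  show enc (R (undbl (dbl (p.1.map some ++ none :: p.2.map some)))) = _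
  rw [undbl_dbl]

end Pool.Agent.PolyTime
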