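import Pool.Agent.Lib.PolyTime.Lists

/-!
# Equality tests in polynomial time
-/

set_option autoImplicit false

namespace Pool.Agent.PolyTime

open D

section

variable {α β γ δ σ : Type*} [Enc α] [Enc β] [Enc γ] [Enc δ] [Enc σ]

@[fun_prop] lemma PT.hdD {f : α → D} (hf : PT f) : PT fun a => D.hd (f a) := FP.hd hf
@[fun_prop] lemma PT.tlD {f : α → D} (hf : PT f) : PT fun a => D.tl (f a) := FP.tl hf
@[fun_prop] lemma PT.consD {f g : α → D} (hf : PT f) (hg : PT g) :
    PT fun a => D.cons (f a) (g a) := FP.cons hf hg

/-- test for `nil` -/
def isNil : D → Bool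
  | D.nil => true
  | D.cons _ _ => false

@[fun_prop] lemma PT.isNil {f : α → D} (hf : PT f) : PT fun a => isNil (f a) := by
  refine (FP.ite hf (FP.const _ (enc true)) (FP.const _ (enc false))).congr fun a => ?_
  cases h : f a <;> simp [PolyTime.isNil, h]

/-- the code of a value, as a datum -/
@[fun_prop] lemma PT.encD {f : α → β} (hf : PT f) : PT fun a => (enc (f a) : D) := hf

/-- One step of the comparison. -/
def eqStep (s : List (D × D) × Bool) : List (D × D) × Bool :=
  match s.1 with
  | [] => s
  | p :: l =>
    bif isNil p.1 then (l, s.2 && isNil p.2)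
    else bif isNil p.2 then (l, false)
    else ((D.hd p.1, D.hd p.2) :: (D.tl p.1, D.tl p.2) :: l, s.2)

lemma PT.eqStep : PT eqStep := by
  refine (PT.listCases (l := fun s : List (D × D) × Bool => s.1) (f := fun s => s)
    (g := fun s p l => bif PolyTime.isNil p.1 then (l, s.2 && PolyTime.isNil p.2)
    else bif PolyTime.isNil p.2 then (l, false)
    else ((D.hd p.1, D.hd p.2) :: (D.tl p.1, D.tl p.2) :: l, s.2)) (by fun_prop) (by fun_prop)
    ?_).congr (fun s => by unfold PolyTime.eqStep; cases s.1 <;> rfl)
  refine PT.bif (by fun_prop) (by fun_prop) (PT.bif (by fun_prop) (by fun_prop) (by fun_prop))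

/-- weight of a stack: number of steps needed -/
def wt (l : List (D × D)) : ℕ := (l.map fun p => p.1.size).sum

lemma eqStep_run (n : ℕ) : ∀ (l : List (D × D)) (b : Bool), wt l ≤ n →
    eqStep^[n] (l, b) = ([], b && l.all fun p => decide (p.1 = p.2)) := by
  induction n with
  | zero =>
    intro l b h
    cases l with
    | nil => simp
    | cons p l =>
      have := D.size_pos p.1
      simp [wt] at h; omega
  | succ n ih =>
    intro l b h
    rw [Function.iterate_succ_apply]
    cases l with
    | nil =>
      have : eqStep ([], b) = ([], b) := rfl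
      rw [this, ih _ _ (by simp [wt])]
    | cons p l =>
      obtain ⟨x, y⟩ := p
      simp only [wt, List.map_cons, List.sum_cons] at h
      cases x with
      | nil =>
        have : eqStep ((D.nil, y) :: l, b) = (l, b && isNil y) := rfl
        rw [this, ih l _ (by simp [wt]; simp at h; omega)]
        cases y <;> simp [isNil]
      | cons x1 x2 =>
        cases y with
        | nil =>
          have : eqStep ((D.cons x1 x2, D.nil) :: l, b) = (l, false) := rfl
          rw [this, ih l _ (by simp [wt]; simp at h; omega)]
          simp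
        | cons y1 y2 =>
          have : eqStep ((D.cons x1 x2, D.cons y1 y2) :: l, b) = ((x1, y1) :: (x2, y2) :: l, b) := rfl
          rw [this, ih _ _ (by simp [wt]; simp at h; omega)]
          congr 2
          simp [Bool.and_assoc]

lemma eqStep_bdd (n : ℕ) : ∀ (l : List (D × D)) (b : Bool),
    sz (eqStep^[n] (l, b)).1 ≤ sz l + (n : ℕ) := by
  induction n with
  | zero => intro l b; simp
  | succ n ih =>
    intro l b
    rw [Function.iterate_succ_apply]
    cases l with
    | nil =>
      have : eqStep ([], b) = ([], b) := rfl
      rw [this]; have := ih [] b; omega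
    | cons p l =>
      obtain ⟨x, y⟩ := p
      cases x with
      | nil =>
        have : eqStep ((D.nil, y) :: l, b) = (l, b && isNil y) := rfl
        rw [this]; have := ih l (b && isNil y); rw [sz_cons]; omega
      | cons x1 x2 =>
        cases y with
        | nil =>
          have : eqStep ((D.cons x1 x2, D.nil) :: l, b) = (l, false) := rfl
          rw [this]; have := ih l false; rw [sz_cons]; omega
        | cons y1 y2 =>
          have : eqStep ((D.cons x1 x2, D.cons y1 y2) :: l, b) = ((x1, y1) :: (x2, y2) :: l, b) := rfl
          rw [this]; have := ih ((x1, y1) :: (x2, y2) :: l) b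
          rw [sz_cons, sz_cons, sz_pair, sz_pair] at this
          rw [sz_cons, sz_pair]
          have e1 : sz (D.cons x1 x2) = sz x1 + sz x2 + 1 := rfl
          have e2 : sz (D.cons y1 y2) = sz y1 + sz y2 + 1 := rfl
          omega

/-- equality of data -/
lemma PT.eqD {f g : α → D} (hf : PT f) (hg : PT g) : PT fun a => decide (f a = g a) := by
  have h1 := PT.iterate_sz (f := PolyTime.eqStep) (s := fun a => ([(f a, g a)], true))
    (n := f) (B := fun a => 2 * (sz (f a) + sz (g a)) + 10)
    PT.eqStep (by fun_prop) hf
    (((PBd.const 2).mul ((PT.bdd hf).add (PT.bdd hg))).add (PBd.const 10)) (by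
      intro a i hi
      have h2 := eqStep_bdd i [(f a, g a)] true
      rw [sz_cons, sz_pair, sz_nil] at h2
      rw [sz_prod]
      have := sz_bool_le (PolyTime.eqStep^[i] ([(f a, g a)], true)).2
      omega)
  refine (PT.snd h1).congr fun a => ?_
  rw [eqStep_run _ _ _ (by simp [wt]; exact le_rfl)]
  simp

end

/-- Types with an injective encoding. -/
class EncInj (α : Type*) [Enc α] : Prop where
  inj : Function.Injective (enc : α → D)

variable {α β γ δ σ : Type*} [Enc α] [Enc β] [Enc γ] [Enc δ] [Enc σ]

instance : EncInj D := ⟨fun _ _ h => h⟩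
instance : EncInj Unit := ⟨fun _ _ _ => rfl⟩
instance : EncInj Bool := ⟨fun a b h => by cases a <;> cases b <;> simp_all⟩
instance [EncInj α] [EncInj β] : EncInj (α × β) := ⟨fun a b h => by
  rw [enc_prod, enc_prod, D.cons.injEq] at h
  exact Prod.ext (EncInj.inj h.1) (EncInj.inj h.2)⟩
instance [EncInj α] : EncInj (Option α) := ⟨fun a b h => by
  cases a <;> cases b <;> simp at h ⊢
  exact EncInj.inj h⟩
instance [EncInj α] [EncInj β] : EncInj (α ⊕ β) := ⟨fun a b h => by
  cases a <;> cases b <;> simp at h ⊢ <;> exact EncInj.inj h⟩
instance [EncInj α] : EncInj (List α) := ⟨fun a => by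
  induction a with
  | nil => intro b h; cases b <;> simp at h ⊢
  | cons x l ih =>
    intro b h
    cases b with
    | nil => simp at h
    | cons y l' =>
      simp only [enc_cons, D.cons.injEq] at h
      rw [EncInj.inj h.1, ih h.2]⟩

/-- equality test -/
@[fun_prop]
lemma PT.decide_eq [EncInj β] [DecidableEq β] {f g : α → β} (hf : PT f) (hg : PT g) :
    PT fun a => decide (f a = g a) := by
  refine (PT.eqD hf hg).congr fun a => ?_
  by_cases h : f a = g a
  · simp [h]
  · rw [decide_eq_false h, decide_eq_false]
    intro h'
    exact h (EncInj.inj h')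

/-- membership test -/
lemma PT.mem [EncInj β] [DecidableEq β] {f : α → β} {l : α → List β} (hf : PT f) (hl : PT l) :
    PT fun a => decide (f a ∈ l a) := by
  have := PT.any (f := fun a b => decide (f a = b)) (l := l)
    (PT.decide_eq (hf.comp (by fun_prop)) (by fun_prop)) hl
  refine this.congr fun a => ?_
  rw [Bool.eq_iff_iff]
  simp

/-- lookup in an association list -/
lemma PT.lookup [EncInj β] [DecidableEq β] {f : α → β} {l : α → List (β × γ)} (hf : PT f)
    (hl : PT l) : PT fun a => (l a).lookup (f a) := by
  have := PT.find? (f := fun a (p : β × γ) => decide (f a = p.1)) (l := l)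
    (PT.decide_eq (hf.comp (by fun_prop)) (by fun_prop)) hl
  have h2 := PT.optionCases (γ := Option γ) (f := fun _ => none) (g := fun _ p => some p.2) this
    (PT.const none) (by fun_prop)
  refine h2.congr fun a => ?_
  induction l a with
  | nil => rfl
  | cons p l ih =>
    obtain ⟨b, c⟩ := p
    rw [List.find?_cons, List.lookup_cons]
    by_cases h : f a = b
    · simp [h]
    · have h' : (f a == b) = false := by simpa using h
      simp only [h', decide_eq_false h]
      exact ih

end Pool.Agent.PolyTime
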