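import Pool.Agent.Lib.PolyTime.Typed

/-!
# Polynomial time functions on lists
-/

set_option autoImplicit false

namespace Pool.Agent.PolyTime

open D

variable {α β γ δ σ : Type*} [Enc α] [Enc β] [Enc γ] [Enc δ] [Enc σ]

lemma sz_take_le (l : List β) (i : ℕ) : sz (l.take i) ≤ sz l := by
  have h4 := sz_append (l.take i) (l.drop i)
  rw [List.take_append_drop] at h4
  have := one_le_sz (l.drop i)
  omega

lemma sz_drop_le (l : List β) (i : ℕ) : sz (l.drop i) ≤ sz l := by
  have h4 := sz_append (l.take i) (l.drop i)
  rw [List.take_append_drop] at h4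
  have := one_le_sz (l.take i)
  omega

lemma sz_sublist_le {l1 l2 : List β} (h : l1.Sublist l2) : sz l1 ≤ sz l2 := by
  induction h with
  | slnil => exact le_rfl
  | cons a _ ih => rw [sz_cons]; omega
  | cons_cons a _ ih => rw [sz_cons, sz_cons]; omega

@[fun_prop] lemma PT.reverse {l : α → List β} (hl : PT l) : PT fun a => (l a).reverse := by
  have h := PT.foldl (g := fun (_ : α) (s : List β) (b : β) => b :: s) (s := fun _ => []) (l := l)
    (by fun_prop) (by fun_prop) hl (B := fun a => sz (l a)) (PT.bdd hl) (by
      intro a l1 l2 h
      have h1 : l1.foldl (fun (s : List β) (b : β) => b :: s) [] = l1.reverse := by simp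
      rw [h1, sz_reverse, h]
      have := sz_append l1 l2
      have := one_le_sz l2
      omega)
  refine h.congr fun a => ?_
  simp

@[fun_prop] lemma PT.append {l l' : α → List β} (hl : PT l) (hl' : PT l') :
    PT fun a => l a ++ l' a := by
  have h := PT.foldl (g := fun (_ : α) (s : List β) (b : β) => b :: s) (s := l')
    (l := fun a => (l a).reverse)
    (by fun_prop) (by fun_prop) (by fun_prop) (B := fun a => sz (l a) + sz (l' a))
    ((PT.bdd hl).add (PT.bdd hl')) (by
      intro a l1 l2 h
      have h1 : l1.foldl (fun (s : List β) (b : β) => b :: s) (l' a) = l1.reverse ++ l' a := by simp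
      rw [h1]
      have h2 := sz_append l1.reverse (l' a)
      rw [sz_reverse] at h2
      have h3 := sz_append l1 l2
      rw [← h, sz_reverse] at h3
      have := one_le_sz l2
      omega)
  refine h.congr fun a => ?_
  simp

/-- map with a parameter -/
lemma PT.map {f : α → β → γ} {l : α → List β} (hf : PT fun p : α × β => f p.1 p.2) (hl : PT l) :
    PT fun a => (l a).map (f a) := by
  obtain ⟨c, k, hc⟩ := PT.bdd hf
  have h := PT.foldl (g := fun (a : α) (s : List γ) (b : β) => f a b :: s) (s := fun _ => [])
    (l := l) (by
      have : PT fun p : α × List γ × β => f p.1 p.2.2 :=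
        hf.comp (f := fun p : α × List γ × β => (p.1, p.2.2)) (by fun_prop)
      fun_prop) (by fun_prop) hl
    (B := fun a => sz (l a) * (c * (sz a + sz (l a) + 1) ^ k + 1) + 1)
    (((PT.bdd hl).mul ((((PBd.const c).mul (((PBd.sz.add (PT.bdd hl)).add (PBd.const 1)).pow k))).add
      (PBd.const 1))).add (PBd.const 1)) (by
      intro a l1 l2 h
      have h1 : ∀ (l1 : List β) (s : List γ), l1.foldl (fun (s : List γ) (b : β) => f a b :: s) s =
          (l1.map (f a)).reverse ++ s := by
        intro l1
        induction l1 with
        | nil => intro s; simp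
        | cons b l ih => intro s; simp [ih]
      rw [h1, List.append_nil, sz_reverse]
      have h2 : ∀ x ∈ l1.map (f a), sz x ≤ c * (sz a + sz (l a) + 1) ^ k := by
        intro x hx
        obtain ⟨b, hb, rfl⟩ := List.mem_map.1 hx
        refine (hc (a, b)).trans ?_
        rw [sz_pair]
        have : sz b ≤ sz (l a) := sz_le_of_mem (by rw [h]; simp [hb])
        gcongr
      refine (sz_list_le h2).trans ?_
      rw [List.length_map]
      have h3 : l1.length ≤ sz (l a) := by
        have := length_lt_sz (l a)
        rw [h, List.length_append] at this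
        rw [h]; omega
      gcongr)
  have h' := PT.reverse h
  refine h'.congr fun a => ?_
  have h1 : ∀ (l1 : List β) (s : List γ), l1.foldl (fun (s : List γ) (b : β) => f a b :: s) s =
          (l1.map (f a)).reverse ++ s := by
    intro l1
    induction l1 with
    | nil => intro s; simp
    | cons b l ih => intro s; simp [ih]
  rw [h1]; simp

/-- filter with a parameter -/
lemma PT.filter {f : α → β → Bool} {l : α → List β} (hf : PT fun p : α × β => f p.1 p.2)
    (hl : PT l) : PT fun a => (l a).filter (f a) := by
  have h1 : ∀ a (l1 : List β) (s : List β),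
      l1.foldl (fun (s : List β) (b : β) => bif f a b then b :: s else s) s =
          (l1.filter (f a)).reverse ++ s := by
    intro a l1
    induction l1 with
    | nil => intro s; simp
    | cons b l ih => intro s; cases h : f a b <;> simp [ih, h]
  have h := PT.foldl (g := fun (a : α) (s : List β) (b : β) => bif f a b then b :: s else s)
    (s := fun _ => []) (l := l) (by
      refine PT.bif (hf.comp (f := fun p : α × List β × β => (p.1, p.2.2)) (by fun_prop)) ?_ ?_
      · fun_prop
      · fun_prop) (by fun_prop) hl
    (B := fun a => sz (l a)) (PT.bdd hl) (by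
      intro a l1 l2 h
      rw [h1, List.append_nil, sz_reverse]
      refine sz_sublist_le (List.Sublist.trans List.filter_sublist ?_)
      rw [h]; exact List.sublist_append_left _ _)
  refine (PT.reverse h).congr fun a => ?_
  rw [h1]; simp

/-- fold with a Boolean state -/
lemma PT.foldl_bool {g : α → Bool → β → Bool} {s : α → Bool} {l : α → List β}
    (hg : PT fun p : α × Bool × β => g p.1 p.2.1 p.2.2) (hs : PT s) (hl : PT l) :
    PT fun a => (l a).foldl (g a) (s a) :=
  PT.foldl hg hs hl (B := fun _ => 3) (PBd.const 3) (fun _ _ _ _ => sz_bool_le _)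

lemma PT.any {f : α → β → Bool} {l : α → List β} (hf : PT fun p : α × β => f p.1 p.2)
    (hl : PT l) : PT fun a => (l a).any (f a) := by
  have h := PT.foldl_bool (g := fun (a : α) (s : Bool) (b : β) => s || f a b) (s := fun _ => false)
    (l := l) (by
      refine PT.or (by fun_prop) ?_
      exact hf.comp (f := fun p : α × Bool × β => (p.1, p.2.2)) (by fun_prop)) (by fun_prop) hl
  refine h.congr fun a => ?_
  have : ∀ (l : List β) (s : Bool), l.foldl (fun (s : Bool) (b : β) => s || f a b) s =
      (s || l.any (f a)) := by
    intro l
    induction l with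
    | nil => intro s; simp
    | cons b l ih => intro s; simp [ih, Bool.or_assoc]
  rw [this]; simp

lemma PT.all {f : α → β → Bool} {l : α → List β} (hf : PT fun p : α × β => f p.1 p.2)
    (hl : PT l) : PT fun a => (l a).all (f a) := by
  have h := PT.foldl_bool (g := fun (a : α) (s : Bool) (b : β) => s && f a b) (s := fun _ => true)
    (l := l) (by
      refine PT.and (by fun_prop) ?_
      exact hf.comp (f := fun p : α × Bool × β => (p.1, p.2.2)) (by fun_prop)) (by fun_prop) hl
  refine h.congr fun a => ?_
  have : ∀ (l : List β) (s : Bool), l.foldl (fun (s : Bool) (b : β) => s && f a b) s =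
      (s && l.all (f a)) := by
    intro l
    induction l with
    | nil => intro s; simp
    | cons b l ih => intro s; simp [ih, Bool.and_assoc]
  rw [this]; simp

/-- `find?` with a parameter -/
lemma PT.find? {f : α → β → Bool} {l : α → List β} (hf : PT fun p : α × β => f p.1 p.2)
    (hl : PT l) : PT fun a => (l a).find? (f a) := by
  have h := PT.head? (PT.filter hf hl)
  refine h.congr fun a => ?_
  rw [List.head?_filter]

/-- concatenation -/
lemma PT.flatten {l : α → List (List β)} (hl : PT l) : PT fun a => (l a).flatten := by
  have h1 : ∀ (l1 : List (List β)) (s : List β),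
      l1.foldl (fun (s : List β) (b : List β) => s ++ b) s = s ++ l1.flatten := by
    intro l1
    induction l1 with
    | nil => intro s; simp
    | cons b l ih => intro s; simp [ih]
  have h2 : ∀ l : List (List β), sz l.flatten ≤ sz l := by
    intro l
    induction l with
    | nil => simp
    | cons b l ih =>
      rw [List.flatten_cons, sz_cons]
      have := sz_append b l.flatten
      omega
  have h := PT.foldl (g := fun (_ : α) (s : List β) (b : List β) => s ++ b) (s := fun _ => [])
    (l := l) (by fun_prop) (by fun_prop) hl
    (B := fun a => sz (l a)) (PT.bdd hl) (by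
      intro a l1 l2 h
      rw [h1, List.nil_append]
      refine (h2 _).trans (sz_sublist_le ?_)
      rw [h]; exact List.sublist_append_left _ _)
  refine h.congr fun a => ?_
  rw [h1]; simp

lemma PT.flatMap {f : α → β → List γ} {l : α → List β} (hf : PT fun p : α × β => f p.1 p.2)
    (hl : PT l) : PT fun a => (l a).flatMap (f a) := by
  refine (PT.flatten (PT.map hf hl)).congr fun a => ?_
  rw [List.flatMap_def]

/-- all pairs -/
lemma PT.product {l : α → List β} {l' : α → List γ} (hl : PT l) (hl' : PT l') :
    PT fun a => (l a) ×ˢ (l' a) := by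
  have h := PT.flatMap (f := fun a b => (l' a).map fun c => (b, c)) (l := l) (by
    refine PT.map (f := fun (p : α × β) (c : γ) => (p.2, c)) (by fun_prop) ?_
    exact hl'.comp (by fun_prop)) hl
  refine h.congr fun a => ?_
  rfl

end Pool.Agent.PolyTime
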