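import Pool.Agent.Lib.PolyTime.Subsets

/-!
# Numbers that are lengths of lists computed in polynomial time

`PL n`: the number `n a` is the length of a list computed in polynomial time. Then lists like
`List.range (n a)`, `List.replicate (n a) b` are computed in polynomial time. `PL` is closed under
sums and products; `PL.min`: the minimum of a `PT` number and a `PL` number is `PL`.
-/

set_option autoImplicit false

namespace Pool.Agent.PolyTime

section PL

variable {α : Type*} [Enc α]

/-- the number `n a` is the length of a list computed in polynomial time -/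
def PL (n : α → ℕ) : Prop := ∃ l : α → List Unit, PT l ∧ ∀ a, (l a).length = n a

lemma PL.congr {m n : α → ℕ} (hm : PL m) (h : ∀ a, m a = n a) : PL n := by
  obtain ⟨l, hl, hl'⟩ := hm
  exact ⟨l, hl, fun a => by rw [hl', h]⟩

lemma PL.length {β : Type*} [Enc β] {l : α → List β} (hl : PT l) : PL fun a => (l a).length :=
  ⟨fun a => (l a).map fun _ => (), PT.map (f := fun (_ : α) (_ : β) => ()) (PT.const ()) hl,
    fun a => by simp⟩

lemma PL.const (n : ℕ) : PL fun _ : α => n :=
  ⟨fun _ => List.replicate n (), PT.const _, fun a => by simp⟩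

lemma PL.add {m n : α → ℕ} (hm : PL m) (hn : PL n) : PL fun a => m a + n a := by
  obtain ⟨l, hl, hl'⟩ := hm
  obtain ⟨k, hk, hk'⟩ := hn
  exact ⟨fun a => l a ++ k a, PT.append hl hk, fun a => by simp [hl', hk']⟩

lemma PL.mul {m n : α → ℕ} (hm : PL m) (hn : PL n) : PL fun a => m a * n a := by
  obtain ⟨l, hl, hl'⟩ := hm
  obtain ⟨k, hk, hk'⟩ := hn
  refine (PL.length (PT.product hl hk)).congr fun a => ?_
  show ((l a) ×ˢ (k a)).length = _
  rw [List.length_product, hl', hk']

lemma PL.comp {β : Type*} [Enc β] {n : β → ℕ} {f : α → β} (hn : PL n) (hf : PT f) :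
    PL fun a => n (f a) := by
  obtain ⟨l, hl, hl'⟩ := hn
  exact ⟨fun a => l (f a), PT.comp hl hf, fun a => hl' _⟩

lemma PL.pt {n : α → ℕ} (hn : PL n) : PT n := by
  obtain ⟨l, hl, hl'⟩ := hn
  exact (PT.length hl).congr hl'

lemma PL.range {n : α → ℕ} (hn : PL n) : PT fun a => List.range (n a) := by
  obtain ⟨l, hl, hl'⟩ := hn
  exact (PT.rangeLength hl).congr fun a => by rw [hl']

lemma PL.replicate {β : Type*} [Enc β] {n : α → ℕ} {b : α → β} (hn : PL n) (hb : PT b) :
    PT fun a => List.replicate (n a) (b a) := by
  have h := PT.map (f := fun (a : α) (_ : ℕ) => b a)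
    (PT.comp hb (f := fun p : α × ℕ => p.1) (by fun_prop)) hn.range
  refine h.congr fun a => ?_
  rw [List.map_const', List.length_range]

lemma filter_lt_range (m n : ℕ) :
    (List.range n).filter (fun i => decide (i < m)) = List.range (Nat.min m n) := by
  induction n with
  | zero => simp
  | succ n ih =>
    rw [List.range_succ, List.filter_append, ih]
    by_cases h : n < m
    · have h1 : Nat.min m n = n := Nat.min_eq_right h.le
      have h2 : Nat.min m (n + 1) = n + 1 := Nat.min_eq_right h
      rw [h1, h2, List.range_succ]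
      simp [h]
    · have h1 : Nat.min m n = m := Nat.min_eq_left (not_lt.1 h)
      have h2 : Nat.min m (n + 1) = m := Nat.min_eq_left ((not_lt.1 h).trans (Nat.le_succ n))
      rw [h1, h2]
      simp [h]

lemma PL.min {m n : α → ℕ} (hm : PT m) (hn : PL n) : PL fun a => Nat.min (m a) (n a) := by
  have h := PL.length (PT.filter (f := fun (a : α) (i : ℕ) => decide (i < m a))
    (PT.decide_lt (f := fun p : α × ℕ => p.2) (g := fun p : α × ℕ => m p.1) (by fun_prop)
      (by fun_prop)) hn.range)
  refine h.congr fun a => ?_
  rw [filter_lt_range, List.length_range]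

lemma PL.of_le {m n : α → ℕ} (hm : PT m) (hn : PL n) (h : ∀ a, m a ≤ n a) : PL m :=
  (PL.min hm hn).congr fun a => Nat.min_eq_left (h a)

/-- a function of a Boolean -/
lemma PT_bool1 {β : Type*} [Enc β] (f : Bool → β) {b : α → Bool} (hb : PT b) :
    PT fun a => f (b a) := by
  refine (PT.bif hb (PT.const (f true)) (PT.const (f false))).congr fun a => ?_
  cases b a <;> rfl

/-- a function of two Booleans -/
lemma PT_bool2 {β : Type*} [Enc β] (f : Bool → Bool → β) {b c : α → Bool} (hb : PT b)
    (hc : PT c) : PT fun a => f (b a) (c a) := by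
  refine (PT.bif hb (PT_bool1 (f true) hc) (PT_bool1 (f false) hc)).congr fun a => ?_
  cases b a <;> rfl

end PL

end Pool.Agent.PolyTime
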