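import Pool.Agent.Lib.PolyTime.FP

/-!
# Typed layer

`Enc α` encodes a type into the universal data `D`; `PT f` says that `f` is computable in polynomial
time with respect to the encodings.
-/

set_option autoImplicit false

namespace Pool.Agent.PolyTime

open D

/-- Types with an encoding into the universal data. -/
class Enc (α : Type*) where
  /-- the encoding -/
  enc : α → D

export Enc (enc)

/-- size of the code -/
def sz {α : Type*} [Enc α] (a : α) : ℕ := (enc a).size

/-- polynomial time computable functions -/
@[fun_prop]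
def PT {α β : Type*} [Enc α] [Enc β] (f : α → β) : Prop :=
  FP (fun a : α => enc a) fun a => enc (f a)

/-- polynomially bounded functions -/
def PBd {α : Type*} [Enc α] (g : α → ℕ) : Prop := ∃ c k : ℕ, ∀ a, g a ≤ c * sz a ^ k

instance : Enc D := ⟨fun d => d⟩

instance : Enc Unit := ⟨fun _ => D.nil⟩

instance : Enc Bool := ⟨fun b => if b then D.cons D.nil D.nil else D.nil⟩

instance {α β : Type*} [Enc α] [Enc β] : Enc (α × β) := ⟨fun p => D.cons (enc p.1) (enc p.2)⟩

instance {α : Type*} [Enc α] : Enc (Option α) :=
  ⟨fun o => match o with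
    | none => D.nil
    | some a => D.cons (enc a) D.nil⟩

instance {α β : Type*} [Enc α] [Enc β] : Enc (α ⊕ β) :=
  ⟨fun o => match o with
    | Sum.inl a => D.cons D.nil (enc a)
    | Sum.inr b => D.cons (D.cons D.nil D.nil) (enc b)⟩

/-- encoding of lists -/
def encList {α : Type*} [Enc α] : List α → D
  | [] => D.nil
  | a :: l => D.cons (enc a) (encList l)

instance {α : Type*} [Enc α] : Enc (List α) := ⟨encList⟩

@[simp] lemma enc_nil {α : Type*} [Enc α] : enc ([] : List α) = D.nil := rfl
@[simp] lemma enc_cons {α : Type*} [Enc α] (a : α) (l : List α) :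
    enc (a :: l) = D.cons (enc a) (enc l) := rfl
@[simp] lemma enc_none {α : Type*} [Enc α] : enc (none : Option α) = D.nil := rfl
@[simp] lemma enc_some {α : Type*} [Enc α] (a : α) : enc (some a) = D.cons (enc a) D.nil := rfl
lemma enc_prod {α β : Type*} [Enc α] [Enc β] (p : α × β) :
    enc p = D.cons (enc p.1) (enc p.2) := rfl
@[simp] lemma enc_pair {α β : Type*} [Enc α] [Enc β] (a : α) (b : β) :
    enc (a, b) = D.cons (enc a) (enc b) := rfl
@[simp] lemma enc_true : enc true = D.cons D.nil D.nil := rfl
@[simp] lemma enc_false : enc false = D.nil := rfl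
@[simp] lemma enc_unit : enc () = D.nil := rfl
@[simp] lemma enc_inl {α β : Type*} [Enc α] [Enc β] (a : α) :
    enc (Sum.inl a : α ⊕ β) = D.cons D.nil (enc a) := rfl
@[simp] lemma enc_inr {α β : Type*} [Enc α] [Enc β] (b : β) :
    enc (Sum.inr b : α ⊕ β) = D.cons (D.cons D.nil D.nil) (enc b) := rfl
@[simp] lemma enc_D (d : D) : enc d = d := rfl

/-- transfer along an equality of functions -/
lemma FP.congr {α : Type*} {x y z : α → D} (h : FP x y) (hyz : ∀ a, y a = z a) : FP x z := by
  have : y = z := funext hyz
  rwa [← this]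

section sizes

variable {α β γ δ : Type*} [Enc α] [Enc β] [Enc γ] [Enc δ]

lemma one_le_sz (a : α) : 1 ≤ sz a := D.size_pos _

@[simp] lemma sz_nil : sz ([] : List α) = 1 := rfl
@[simp] lemma sz_cons (a : α) (l : List α) : sz (a :: l) = sz a + sz l + 1 := rfl
@[simp] lemma sz_none : sz (none : Option α) = 1 := rfl
@[simp] lemma sz_some (a : α) : sz (some a) = sz a + 2 := rfl
@[simp] lemma sz_pair (a : α) (b : β) : sz (a, b) = sz a + sz b + 1 := rfl
lemma sz_prod (p : α × β) : sz p = sz p.1 + sz p.2 + 1 := rfl
@[simp] lemma sz_true : sz true = 3 := rfl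
@[simp] lemma sz_false : sz false = 1 := rfl
@[simp] lemma sz_inl (a : α) : sz (Sum.inl a : α ⊕ β) = sz a + 2 := by
  show D.size (D.cons _ _) = _
  simp [sz]; omega
@[simp] lemma sz_inr (b : β) : sz (Sum.inr b : α ⊕ β) = sz b + 4 := by
  show D.size (D.cons _ _) = _
  simp [sz]; omega

lemma sz_bool_le (b : Bool) : sz b ≤ 3 := by cases b <;> simp

lemma length_lt_sz (l : List α) : l.length < sz l := by
  induction l with
  | nil => simp
  | cons a l ih => rw [List.length_cons, sz_cons]; have := one_le_sz a; omega

lemma sz_le_of_mem {a : α} {l : List α} (h : a ∈ l) : sz a ≤ sz l := by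
  induction l with
  | nil => simp at h
  | cons b l ih =>
    rw [sz_cons]
    rcases List.mem_cons.1 h with rfl | h
    · omega
    · have := ih h; omega

lemma sz_append (l1 l2 : List α) : sz (l1 ++ l2) + 1 = sz l1 + sz l2 := by
  induction l1 with
  | nil => simp; omega
  | cons a l ih => rw [List.cons_append, sz_cons, sz_cons]; omega

lemma sz_reverse (l : List α) : sz l.reverse = sz l := by
  induction l with
  | nil => rfl
  | cons a l ih =>
    rw [List.reverse_cons, sz_cons]
    have := sz_append l.reverse [a]
    rw [ih] at this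
    simp at this
    omega

lemma sz_list_le {l : List α} {B : ℕ} (h : ∀ a ∈ l, sz a ≤ B) : sz l ≤ l.length * (B + 1) + 1 := by
  induction l with
  | nil => simp
  | cons a l ih =>
    rw [sz_cons, List.length_cons]
    have h1 := h a (by simp)
    have h2 := ih fun b hb => h b (by simp [hb])
    nlinarith

end sizes

namespace PBd

variable {α β γ : Type*} [Enc α] [Enc β] [Enc γ]

lemma mono {g h : α → ℕ} (hgh : ∀ a, g a ≤ h a) (hh : PBd h) : PBd g := by
  obtain ⟨c, k, hc⟩ := hh
  exact ⟨c, k, fun a => (hgh a).trans (hc a)⟩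

lemma const (n : ℕ) : PBd (fun _ : α => n) := ⟨n, 0, fun a => by simp⟩

lemma sz : PBd (fun a : α => sz a) := ⟨1, 1, fun a => by simp⟩

lemma add {g h : α → ℕ} (hg : PBd g) (hh : PBd h) : PBd fun a => g a + h a := by
  obtain ⟨c, k, hc⟩ := hg
  obtain ⟨d, l, hd⟩ := hh
  refine ⟨c + d, max k l, fun a => ?_⟩
  have h1 := one_le_sz a
  calc g a + h a ≤ c * PolyTime.sz a ^ k + d * PolyTime.sz a ^ l := add_le_add (hc a) (hd a)
    _ ≤ c * PolyTime.sz a ^ max k l + d * PolyTime.sz a ^ max k l := by
        gcongr
        · exact le_max_left _ _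
        · exact le_max_right _ _
    _ = (c + d) * PolyTime.sz a ^ max k l := by ring

lemma mul {g h : α → ℕ} (hg : PBd g) (hh : PBd h) : PBd fun a => g a * h a := by
  obtain ⟨c, k, hc⟩ := hg
  obtain ⟨d, l, hd⟩ := hh
  refine ⟨c * d, k + l, fun a => ?_⟩
  calc g a * h a ≤ (c * PolyTime.sz a ^ k) * (d * PolyTime.sz a ^ l) := Nat.mul_le_mul (hc a) (hd a)
    _ = (c * d) * PolyTime.sz a ^ (k + l) := by ring

lemma pow {g : α → ℕ} (hg : PBd g) (n : ℕ) : PBd fun a => g a ^ n := by
  induction n with
  | zero => simpa using const 1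
  | succ n ih => simp only [pow_succ]; exact mul ih hg

/-- composition with a function whose size is polynomially bounded -/
lemma comp {g : β → ℕ} {f : α → β} (hg : PBd g) (hf : PBd fun a => PolyTime.sz (f a)) :
    PBd fun a => g (f a) := by
  obtain ⟨c, k, hc⟩ := hg
  exact mono (fun a => hc (f a)) (mul (const c) (pow hf k))

end PBd

section basic

variable {α β γ δ σ : Type*} [Enc α] [Enc β] [Enc γ] [Enc δ] [Enc σ]

lemma PT.bdd {f : α → β} (hf : PT f) : PBd fun a => sz (f a) := FP.bdd hf

@[fun_prop] lemma PT.id : PT (fun a : α => a) := FP.id _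

@[fun_prop] lemma PT.const (b : β) : PT (fun _ : α => b) := FP.const _ (enc b)

@[fun_prop] lemma PT.comp {g : β → γ} {f : α → β} (hg : PT g) (hf : PT f) : PT fun a => g (f a) :=
  FP.comp hf (FP.reindex hg f)

@[fun_prop] lemma PT.pair {f : α → β} {g : α → γ} (hf : PT f) (hg : PT g) :
    PT fun a => (f a, g a) := FP.cons hf hg

@[fun_prop] lemma PT.fst' : PT (Prod.fst : α × β → α) := FP.hd (FP.id (fun a : α × β => enc a))
@[fun_prop] lemma PT.snd' : PT (Prod.snd : α × β → β) := FP.tl (FP.id (fun a : α × β => enc a))

@[fun_prop] lemma PT.fst {f : α → β × γ} (hf : PT f) : PT fun a => (f a).1 := PT.comp PT.fst' hf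
@[fun_prop] lemma PT.snd {f : α → β × γ} (hf : PT f) : PT fun a => (f a).2 := PT.comp PT.snd' hf

/-- transfer along an equality of functions -/
lemma PT.congr {f g : α → β} (hf : PT f) (h : ∀ a, f a = g a) : PT g := by
  have : f = g := funext h
  rwa [← this]

/-- conditional -/
lemma PT.bif {c : α → Bool} {f g : α → β} (hc : PT c) (hf : PT f) (hg : PT g) :
    PT fun a => bif c a then f a else g a := by
  refine (FP.ite hc hg hf).congr fun a => ?_
  cases h : c a <;> simp [h]

lemma PT.ite {p : α → Prop} [DecidablePred p] {f g : α → β} (hc : PT fun a => decide (p a))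
    (hf : PT f) (hg : PT g) : PT fun a => if p a then f a else g a := by
  have := PT.bif hc hf hg
  convert this using 2 with a
  by_cases h : p a <;> simp [h]

@[fun_prop] lemma PT.and {f g : α → Bool} (hf : PT f) (hg : PT g) : PT fun a => f a && g a := by
  have := PT.bif hf hg (PT.const false)
  convert this using 2 with a
  cases f a <;> simp

@[fun_prop] lemma PT.or {f g : α → Bool} (hf : PT f) (hg : PT g) : PT fun a => f a || g a := by
  have := PT.bif hf (PT.const true) hg
  convert this using 2 with a
  cases f a <;> simp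

@[fun_prop] lemma PT.not {f : α → Bool} (hf : PT f) : PT fun a => !f a := by
  have := PT.bif hf (PT.const false) (PT.const true)
  convert this using 2 with a
  cases f a <;> simp

@[fun_prop] lemma PT.xor {f g : α → Bool} (hf : PT f) (hg : PT g) :
    PT fun a => Bool.xor (f a) (g a) := by
  have := PT.bif hf (PT.not hg) hg
  convert this using 2 with a
  cases f a <;> simp

lemma PT.decide_and {p q : α → Prop} [DecidablePred p] [DecidablePred q]
    (hp : PT fun a => decide (p a)) (hq : PT fun a => decide (q a)) :
    PT fun a => decide (p a ∧ q a) := by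
  simp only [Bool.decide_and]
  exact PT.and hp hq

lemma PT.decide_or {p q : α → Prop} [DecidablePred p] [DecidablePred q]
    (hp : PT fun a => decide (p a)) (hq : PT fun a => decide (q a)) :
    PT fun a => decide (p a ∨ q a) := by
  simp only [Bool.decide_or]
  exact PT.or hp hq

lemma PT.decide_not {p : α → Prop} [DecidablePred p]
    (hp : PT fun a => decide (p a)) : PT fun a => decide (¬ p a) := by
  have := PT.not hp
  convert this using 2 with a
  by_cases h : p a <;> simp [h]

@[fun_prop] lemma PT.optSome {f : α → β} (hf : PT f) : PT fun a => (Option.some (f a) : Option β) :=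
  FP.cons hf (FP.const _ D.nil)

/-- case distinction on a type with two kinds of codes -/
lemma PT.cases {f : α → β} (w : α → D) (hw : FP (fun a : α => enc a) w) (p : α → Prop)
    (hp : ∀ a, w a = D.nil ↔ p a)
    (h1 : FP (fun a : {a // p a} => enc a.1) fun a => enc (f a.1))
    (h2 : FP (fun a : {a // ¬ p a} => enc a.1) fun a => enc (f a.1)) : PT f :=
  FP.cases hw hp h1 h2

/-- case distinction on an option -/
lemma PT.optionElim {o : α → Option β} {f : α → γ} {g : α × β → γ} (ho : PT o) (hf : PT f)
    (hg : PT g) : PT fun a => (o a).elim (f a) (fun b => g (a, b)) := by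
  refine PT.cases _ ho (fun a => o a = none) (fun a => ?_) ?_ ?_
  · rcases o a with _ | b <;> simp
  · refine (FP.reindex hf (fun a : {a // o a = none} => a.1)).congr ?_
    rintro ⟨a, ha⟩; simp [ha]
  · -- the value
    let v : {a // ¬ o a = none} → β := fun a => (o a.1).get (Option.isSome_iff_ne_none.2 a.2)
    have h1 : FP (fun a : {a // ¬ o a = none} => enc a.1) fun a => enc (a.1, v a) := by
      refine (FP.cons (FP.id _) (FP.hd (FP.reindex ho (fun a : {a // ¬ o a = none} => a.1)))).congr
        ?_
      rintro ⟨a, ha⟩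
      obtain ⟨b, hb⟩ := Option.ne_none_iff_exists'.1 ha
      simp [v, hb]
    refine (FP.comp h1 (FP.reindex hg (fun a : {a // ¬ o a = none} => (a.1, v a)))).congr ?_
    rintro ⟨a, ha⟩
    obtain ⟨b, hb⟩ := Option.ne_none_iff_exists'.1 ha
    simp [v, hb]

/-- case distinction on an option (match form) -/
lemma PT.optionCases {o : α → Option β} {f : α → γ} {g : α → β → γ} (ho : PT o) (hf : PT f)
    (hg : PT fun p : α × β => g p.1 p.2) :
    PT fun a => (match o a with | none => f a | some b => g a b) := by
  have := PT.optionElim ho hf hg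
  convert this using 2 with a
  cases o a <;> rfl

@[fun_prop] lemma PT.inl {f : α → β} (hf : PT f) : PT fun a => (Sum.inl (f a) : β ⊕ γ) :=
  FP.cons (FP.const _ D.nil) hf

@[fun_prop] lemma PT.inr {f : α → γ} (hf : PT f) : PT fun a => (Sum.inr (f a) : β ⊕ γ) :=
  FP.cons (FP.const _ (D.cons D.nil D.nil)) hf

lemma PT.sumCases {o : α → β ⊕ γ} {f : α → β → δ} {g : α → γ → δ} (ho : PT o)
    (hf : PT fun p : α × β => f p.1 p.2) (hg : PT fun p : α × γ => g p.1 p.2) :
    PT fun a => (match o a with | Sum.inl b => f a b | Sum.inr c => g a c) := by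
  refine PT.cases _ (FP.hd ho) (fun a => (o a).isLeft = true) (fun a => ?_) ?_ ?_
  · rcases o a with b | b <;> simp
  · let v : {a // (o a).isLeft = true} → β := fun a => (o a.1).getLeft a.2
    have h1 : FP (fun a : {a // (o a).isLeft = true} => enc a.1) fun a => enc (a.1, v a) := by
      refine (FP.cons (FP.id _) (FP.tl (FP.reindex ho (fun a : {a // (o a).isLeft = true} => a.1)))).congr ?_
      rintro ⟨a, ha⟩
      obtain ⟨b, hb⟩ := Sum.isLeft_iff.1 ha
      simp [v, hb]
    refine (FP.comp h1 (FP.reindex hf (fun a : {a // (o a).isLeft = true} => (a.1, v a)))).congr ?_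
    rintro ⟨a, ha⟩
    obtain ⟨b, hb⟩ := Sum.isLeft_iff.1 ha
    simp [v, hb]
  · have hr : ∀ a, ¬ (o a).isLeft = true → (o a).isRight = true := by
      intro a; rcases o a with b | b <;> simp
    let v : {a // ¬ (o a).isLeft = true} → γ := fun a => (o a.1).getRight (hr _ a.2)
    have h1 : FP (fun a : {a // ¬ (o a).isLeft = true} => enc a.1) fun a => enc (a.1, v a) := by
      refine (FP.cons (FP.id _) (FP.tl (FP.reindex ho (fun a : {a // ¬ (o a).isLeft = true} => a.1)))).congr ?_
      rintro ⟨a, ha⟩
      obtain ⟨b, hb⟩ := Sum.isRight_iff.1 (hr _ ha)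
      simp [v, hb]
    refine (FP.comp h1 (FP.reindex hg (fun a : {a // ¬ (o a).isLeft = true} => (a.1, v a)))).congr ?_
    rintro ⟨a, ha⟩
    obtain ⟨b, hb⟩ := Sum.isRight_iff.1 (hr _ ha)
    simp [v, hb]

@[fun_prop] lemma PT.cons {f : α → β} {g : α → List β} (hf : PT f) (hg : PT g) :
    PT fun a => (f a :: g a) := FP.cons hf hg

@[fun_prop] lemma PT.tail {f : α → List β} (hf : PT f) : PT fun a => (f a).tail := by
  refine (FP.tl hf).congr fun a => ?_
  cases h : f a <;> simp [h]

/-- case distinction on a list -/
lemma PT.listCases {l : α → List β} {f : α → γ} {g : α → β → List β → γ} (hl : PT l) (hf : PT f)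
    (hg : PT fun p : α × β × List β => g p.1 p.2.1 p.2.2) :
    PT fun a => (match l a with | [] => f a | b :: l' => g a b l') := by
  refine PT.cases _ hl (fun a => l a = []) (fun a => ?_) ?_ ?_
  · rcases l a with _ | ⟨b, l'⟩ <;> simp
  · refine (FP.reindex hf (fun a : {a // l a = []} => a.1)).congr ?_
    rintro ⟨a, ha⟩; simp [ha]
  · let v : {a // ¬ l a = []} → β := fun a => (l a.1).head a.2
    have h1 : FP (fun a : {a // ¬ l a = []} => enc a.1) fun a => enc (a.1, v a, (l a.1).tail) := by
      refine (FP.cons (FP.id _) (FP.reindex hl (fun a : {a // ¬ l a = []} => a.1))).congr ?_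
      rintro ⟨a, ha⟩
      obtain ⟨b, l', hb⟩ := List.exists_cons_of_ne_nil ha
      simp [v, hb]
    refine (FP.comp h1 (FP.reindex hg (fun a : {a // ¬ l a = []} => (a.1, v a, (l a.1).tail)))).congr ?_
    rintro ⟨a, ha⟩
    obtain ⟨b, l', hb⟩ := List.exists_cons_of_ne_nil ha
    simp [v, hb]

lemma PT.head? {f : α → List β} (hf : PT f) : PT fun a => (f a).head? := by
  have := PT.listCases (γ := Option β) (f := fun _ => none) (g := fun _ b _ => some b) hf
    (PT.const none) (by fun_prop)
  convert this using 2 with a
  cases f a <;> rfl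

@[fun_prop] lemma PT.isEmpty {f : α → List β} (hf : PT f) : PT fun a => (f a).isEmpty := by
  have := PT.listCases (γ := Bool) (f := fun _ => true) (g := fun _ _ _ => false) hf
    (PT.const true) (PT.const false)
  convert this using 2 with a
  cases f a <;> rfl

@[fun_prop] lemma PT.isSome {f : α → Option β} (hf : PT f) : PT fun a => (f a).isSome := by
  have := PT.optionCases (γ := Bool) (f := fun _ => false) (g := fun _ _ => true) hf
    (PT.const false) (PT.const true)
  convert this using 2 with a
  cases f a <;> rfl

end basic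

section iteration

variable {α β γ δ σ : Type*} [Enc α] [Enc β] [Enc γ] [Enc δ] [Enc σ]

/-- Bounded iteration, as many times as the size of `n a`. -/
lemma PT.iterate_sz {f : σ → σ} {s : α → σ} {n : α → β} (hf : PT f) (hs : PT s) (hn : PT n)
    {B : α → ℕ} (hB : PBd B) (hb : ∀ a i, i ≤ sz (n a) → sz (f^[i] (s a)) ≤ B a) :
    PT fun a => f^[sz (n a)] (s a) := by
  obtain ⟨c, k, hc⟩ := hB
  exact FP.iter (e := enc) hf hs hn ⟨c, k, fun a i hi => (hb a i hi).trans (hc a)⟩

/-- Bounded iteration, as many times as the length of `l a`. -/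
lemma PT.iterate_length {f : σ → σ} {s : α → σ} {l : α → List β} (hf : PT f) (hs : PT s)
    (hl : PT l) {B : α → ℕ} (hB : PBd B)
    (hb : ∀ a i, i ≤ (l a).length → sz (f^[i] (s a)) ≤ B a) :
    PT fun a => f^[(l a).length] (s a) := by
  let step : σ × List β → σ × List β := fun p => bif p.2.isEmpty then p else (f p.1, p.2.tail)
  have hstep : PT step := PT.bif (by fun_prop) (by fun_prop) (by fun_prop)
  have key : ∀ i s (l : List β), step^[i] (s, l) = (f^[min i l.length] s, l.drop i) := by
    intro i
    induction i with
    | zero => intro s l; simp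
    | succ i ih =>
      intro s l
      rw [Function.iterate_succ_apply]
      cases l with
      | nil =>
        have : step (s, []) = (s, []) := by simp [step]
        rw [this, ih]; simp
      | cons b l =>
        have : step (s, b :: l) = (f s, l) := by simp [step]
        rw [this, ih, List.length_cons, Nat.succ_min_succ, Function.iterate_succ_apply,
          List.drop_succ_cons]
  have h1 := PT.iterate_sz (s := fun a => (s a, l a)) (n := l) (B := fun a => B a + sz (l a) + 1)
    hstep (PT.pair hs hl) hl ((hB.add (PT.bdd hl)).add (PBd.const 1)) (by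
      intro a i _
      rw [key, sz_pair]
      have h2 := hb a (min i (l a).length) (min_le_right _ _)
      have h3 : ∀ (i : ℕ) (l : List β), sz (l.drop i) ≤ sz l := by
        intro i
        induction i with
        | zero => intro l; simp
        | succ i ih =>
          intro l
          cases l with
          | nil => simp
          | cons b l => rw [List.drop_succ_cons, sz_cons]; have := ih l; omega
      have := h3 i (l a)
      omega)
  have h2 := PT.fst h1
  refine h2.congr fun a => ?_
  rw [key, min_eq_right (length_lt_sz _).le]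

/-- Fold over a list with a parameter. -/
lemma PT.foldl {g : α → σ → β → σ} {s : α → σ} {l : α → List β}
    (hg : PT fun p : α × σ × β => g p.1 p.2.1 p.2.2) (hs : PT s) (hl : PT l)
    {B : α → ℕ} (hB : PBd B)
    (hb : ∀ a l1 l2, l a = l1 ++ l2 → sz (l1.foldl (g a) (s a)) ≤ B a) :
    PT fun a => (l a).foldl (g a) (s a) := by
  let step : α × σ × List β → α × σ × List β := fun p =>
    match p.2.2 with
    | [] => p
    | b :: l => (p.1, g p.1 p.2.1 b, l)
  have hstep : PT step := by
    refine PT.listCases (l := fun p : α × σ × List β => p.2.2) (f := fun p => p)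
      (g := fun p b l => (p.1, g p.1 p.2.1 b, l)) (by fun_prop) (by fun_prop) ?_
    have h1 : PT fun p : (α × σ × List β) × β × List β => g p.1.1 p.1.2.1 p.2.1 :=
      hg.comp (f := fun p : (α × σ × List β) × β × List β => (p.1.1, p.1.2.1, p.2.1)) (by fun_prop)
    fun_prop
  have key : ∀ i a s (l : List β), step^[i] (a, s, l) = (a, (l.take i).foldl (g a) s, l.drop i) := by
    intro i
    induction i with
    | zero => intro a s l; simp
    | succ i ih =>
      intro a s l
      rw [Function.iterate_succ_apply]
      cases l with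
      | nil =>
        have : step (a, s, []) = (a, s, []) := by simp [step]
        rw [this, ih]; simp
      | cons b l =>
        have : step (a, s, b :: l) = (a, g a s b, l) := by simp [step]
        rw [this, ih, List.take_succ_cons, List.foldl_cons, List.drop_succ_cons]
  have h1 := PT.iterate_length (f := step) (s := fun a => (a, s a, l a)) (l := l)
    (B := fun a => sz a + B a + sz (l a) + 2)
    hstep (by fun_prop) hl (by
      exact ((((PBd.sz).add hB).add (PT.bdd hl)).add (PBd.const 2))) (by
      intro a i _
      rw [key, sz_pair, sz_pair]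
      have h2 := hb a ((l a).take i) ((l a).drop i) (List.take_append_drop _ _).symm
      have h3 : sz ((l a).drop i) ≤ sz (l a) := by
        have h4 := sz_append ((l a).take i) ((l a).drop i)
        rw [List.take_append_drop] at h4
        have := one_le_sz ((l a).take i)
        omega
      omega)
  refine (PT.fst (PT.snd h1)).congr fun a => ?_
  rw [key]
  simp

end iteration

end Pool.Agent.PolyTime
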