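import Mathlib

/-!
# Composition of polynomial time computations

`tmComp` : the composition of two functions which are computed by machines of Mathlib
(`Turing.TM2ComputableInPolyTime`) in polynomial time is computed by such a machine.
-/

set_option autoImplicit false

namespace Pool.Agent.PolyTime

open Turing

namespace Comp

section general

variable {K1 K2 : Type} [DecidableEq K1] [DecidableEq K2] {Γ1 : K1 → Type} {Γ2 : K2 → Type}
  {Λ1 Λ2 σ1 σ2 X : Type}

/-- the stack alphabets: those of both machines, and one more stack -/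
abbrev CG (Γ1 : K1 → Type) (Γ2 : K2 → Type) (X : Type) : K1 ⊕ (K2 ⊕ Unit) → Type
  | .inl k => Γ1 k
  | .inr (.inl k) => Γ2 k
  | .inr (.inr _) => X

/-- the stacks -/
def cst (S1 : ∀ k, List (Γ1 k)) (S2 : ∀ k, List (Γ2 k)) (t : List X) :
    ∀ k, List (CG Γ1 Γ2 X k)
  | .inl k => S1 k
  | .inr (.inl k) => S2 k
  | .inr (.inr _) => t

lemma update_cst1 (S1 : ∀ k, List (Γ1 k)) (S2 : ∀ k, List (Γ2 k)) (t : List X) (k : K1)
    (l : List (Γ1 k)) :
    Function.update (cst S1 S2 t) (.inl k) l = cst (Function.update S1 k l) S2 t := by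
  funext k'
  rcases k' with k' | k' | k'
  · by_cases h : k' = k
    · subst h
      rw [Function.update_self]
      show _ = Function.update S1 k' l k'
      rw [Function.update_self]
    · rw [Function.update_of_ne (by simpa using h)]
      show S1 k' = Function.update S1 k l k'
      rw [Function.update_of_ne h]
  · rfl
  · rfl

lemma update_cst2 (S1 : ∀ k, List (Γ1 k)) (S2 : ∀ k, List (Γ2 k)) (t : List X) (k : K2)
    (l : List (Γ2 k)) :
    Function.update (cst S1 S2 t) (.inr (.inl k)) l = cst S1 (Function.update S2 k l) t := by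
  funext k'
  rcases k' with k' | k' | k'
  · rfl
  · by_cases h : k' = k
    · subst h
      rw [Function.update_self]
      show _ = Function.update S2 k' l k'
      rw [Function.update_self]
    · rw [Function.update_of_ne (by simpa using h)]
      show S2 k' = Function.update S2 k l k'
      rw [Function.update_of_ne h]
  · rfl

lemma update_cst3 (S1 : ∀ k, List (Γ1 k)) (S2 : ∀ k, List (Γ2 k)) (t l : List X) (u : Unit) :
    Function.update (cst S1 S2 t) (.inr (.inr u)) l = cst S1 S2 l := by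
  funext k'
  rcases k' with k' | k' | k'
  · rfl
  · rfl
  · rfl

/-- the statements of the first machine; instead of halting, it goes on with the transfer -/
def lift1 : TM2.Stmt Γ1 Λ1 σ1 →
    TM2.Stmt (CG Γ1 Γ2 X) (Λ1 ⊕ (Bool ⊕ Λ2)) (σ1 × (σ2 × Option X))
  | .push k f q => .push (.inl k) (fun v => f v.1) (lift1 q)
  | .peek k f q => .peek (.inl k) (fun v x => (f v.1 x, v.2)) (lift1 q)
  | .pop k f q => .pop (.inl k) (fun v x => (f v.1 x, v.2)) (lift1 q)
  | .load f q => .load (fun v => (f v.1, v.2)) (lift1 q)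
  | .branch p q₁ q₂ => .branch (fun v => p v.1) (lift1 q₁) (lift1 q₂)
  | .goto l => .goto fun v => .inl (l v.1)
  | .halt => .goto fun _ => .inr (.inl true)

/-- the statements of the second machine -/
def lift2 : TM2.Stmt Γ2 Λ2 σ2 →
    TM2.Stmt (CG Γ1 Γ2 X) (Λ1 ⊕ (Bool ⊕ Λ2)) (σ1 × (σ2 × Option X))
  | .push k f q => .push (.inr (.inl k)) (fun v => f v.2.1) (lift2 q)
  | .peek k f q => .peek (.inr (.inl k)) (fun v x => (v.1, f v.2.1 x, v.2.2)) (lift2 q)
  | .pop k f q => .pop (.inr (.inl k)) (fun v x => (v.1, f v.2.1 x, v.2.2)) (lift2 q)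
  | .load f q => .load (fun v => (v.1, f v.2.1, v.2.2)) (lift2 q)
  | .branch p q₁ q₂ => .branch (fun v => p v.2.1) (lift2 q₁) (lift2 q₂)
  | .goto l => .goto fun v => .inr (.inr (l v.2.1))
  | .halt => .halt

/-- the configurations of the first machine -/
def cfg1 (s2 : σ2) (S2 : ∀ k, List (Γ2 k)) (c : TM2.Cfg Γ1 Λ1 σ1) :
    TM2.Cfg (CG Γ1 Γ2 X) (Λ1 ⊕ (Bool ⊕ Λ2)) (σ1 × (σ2 × Option X)) :=
  ⟨some (match c.l with | some l => .inl l | none => .inr (.inl true)), (c.var, (s2, none)),
    cst c.stk S2 []⟩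

/-- the configurations of the second machine -/
def cfg2 (s1 : σ1) (S1 : ∀ k, List (Γ1 k)) (c : TM2.Cfg Γ2 Λ2 σ2) :
    TM2.Cfg (CG Γ1 Γ2 X) (Λ1 ⊕ (Bool ⊕ Λ2)) (σ1 × (σ2 × Option X)) :=
  ⟨c.l.map fun l => .inr (.inr l), (s1, (c.var, none)), cst S1 c.stk []⟩

lemma stepAux_lift1 (s2 : σ2) (S2 : ∀ k, List (Γ2 k)) (q : TM2.Stmt Γ1 Λ1 σ1) :
    ∀ (v : σ1) (S : ∀ k, List (Γ1 k)),
      TM2.stepAux (lift1 (Γ2 := Γ2) (Λ2 := Λ2) (X := X) q) (v, (s2, none)) (cst S S2 []) =
        cfg1 s2 S2 (TM2.stepAux q v S) := by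
  induction q with
  | push k f q ih =>
    intro v S
    show TM2.stepAux (lift1 q) (v, (s2, none))
      (Function.update (cst S S2 []) (.inl k) (f v :: S k)) = _
    rw [update_cst1]
    exact ih _ _
  | peek k f q ih => intro v S; exact ih _ _
  | pop k f q ih =>
    intro v S
    show TM2.stepAux (lift1 q) (f v (S k).head?, (s2, none))
      (Function.update (cst S S2 []) (.inl k) (S k).tail) = _
    rw [update_cst1]
    exact ih _ _
  | load f q ih => intro v S; exact ih _ _
  | branch p q₁ q₂ ih₁ ih₂ =>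
    intro v S
    show cond (p v) (TM2.stepAux (lift1 q₁) (v, (s2, none)) (cst S S2 []))
      (TM2.stepAux (lift1 q₂) (v, (s2, none)) (cst S S2 [])) =
        cfg1 s2 S2 (cond (p v) (TM2.stepAux q₁ v S) (TM2.stepAux q₂ v S))
    cases p v with
    | true => exact ih₁ _ _
    | false => exact ih₂ _ _
  | goto l => intro v S; rfl
  | halt => intro v S; rfl

lemma stepAux_lift2 (s1 : σ1) (S1 : ∀ k, List (Γ1 k)) (q : TM2.Stmt Γ2 Λ2 σ2) :
    ∀ (v : σ2) (S : ∀ k, List (Γ2 k)),
      TM2.stepAux (lift2 (Γ1 := Γ1) (Λ1 := Λ1) (X := X) q) (s1, (v, none)) (cst S1 S []) =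
        cfg2 s1 S1 (TM2.stepAux q v S) := by
  induction q with
  | push k f q ih =>
    intro v S
    show TM2.stepAux (lift2 q) (s1, (v, none))
      (Function.update (cst S1 S []) (.inr (.inl k)) (f v :: S k)) = _
    rw [update_cst2]
    exact ih _ _
  | peek k f q ih => intro v S; exact ih _ _
  | pop k f q ih =>
    intro v S
    show TM2.stepAux (lift2 q) (s1, (f v (S k).head?, none))
      (Function.update (cst S1 S []) (.inr (.inl k)) (S k).tail) = _
    rw [update_cst2]
    exact ih _ _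
  | load f q ih => intro v S; exact ih _ _
  | branch p q₁ q₂ ih₁ ih₂ =>
    intro v S
    show cond (p v) (TM2.stepAux (lift2 q₁) (s1, (v, none)) (cst S1 S []))
      (TM2.stepAux (lift2 q₂) (s1, (v, none)) (cst S1 S [])) =
        cfg2 s1 S1 (cond (p v) (TM2.stepAux q₁ v S) (TM2.stepAux q₂ v S))
    cases p v with
    | true => exact ih₁ _ _
    | false => exact ih₂ _ _
  | goto l => intro v S; rfl
  | halt => intro v S; rfl

/-- the statements of the composed machine -/
def cfun (M1 : Λ1 → TM2.Stmt Γ1 Λ1 σ1) (M2 : Λ2 → TM2.Stmt Γ2 Λ2 σ2) (k₁ : K1) (k₀ : K2)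
    (e : Γ1 k₁ → Γ2 k₀) (d : Γ2 k₀) (main2 : Λ2) : Λ1 ⊕ (Bool ⊕ Λ2) →
    TM2.Stmt (CG Γ1 Γ2 (Γ2 k₀)) (Λ1 ⊕ (Bool ⊕ Λ2)) (σ1 × (σ2 × Option (Γ2 k₀)))
  | .inl l => lift1 (M1 l)
  | .inr (.inl true) => .pop (.inl k₁) (fun v x => (v.1, (v.2.1, x.map e)))
      (.branch (fun v => v.2.2.isSome)
        (.push (.inr (.inr ())) (fun v => v.2.2.getD d) (.goto fun _ => .inr (.inl true)))
        (.goto fun _ => .inr (.inl false)))
  | .inr (.inl false) => .pop (.inr (.inr ())) (fun v x => (v.1, (v.2.1, x)))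
      (.branch (fun v => v.2.2.isSome)
        (.push (.inr (.inl k₀)) (fun v => v.2.2.getD d) (.goto fun _ => .inr (.inl false)))
        (.goto fun _ => .inr (.inr main2)))
  | .inr (.inr l) => lift2 (M2 l)

lemma iterate_none {σ : Type} (f : σ → Option σ) (t : ℕ) : (flip bind f)^[t] none = none := by
  induction t with
  | zero => rfl
  | succ t ih => rw [Function.iterate_succ_apply]; exact ih

lemma iterate_some {σ : Type} (f : σ → Option σ) (t : ℕ) (x : σ) :
    (flip bind f)^[t + 1] (some x) = (flip bind f)^[t] (f x) := by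
  rw [Function.iterate_succ_apply]; rfl

lemma steps_trans {σ : Type} (f : σ → Option σ) {x y z : Option σ} {t₁ t₂ : ℕ}
    (h₁ : (flip bind f)^[t₁] x = y) (h₂ : (flip bind f)^[t₂] y = z) :
    (flip bind f)^[t₁ + t₂] x = z := by
  rw [Nat.add_comm, Function.iterate_add_apply, h₁, h₂]

variable (M1 : Λ1 → TM2.Stmt Γ1 Λ1 σ1) (M2 : Λ2 → TM2.Stmt Γ2 Λ2 σ2) (k₁ : K1) (k₀ : K2)
    (e : Γ1 k₁ → Γ2 k₀) (d : Γ2 k₀) (main2 : Λ2)

/-- the first machine runs inside of the composed machine -/
lemma run1 (s2 : σ2) (S2 : ∀ k, List (Γ2 k)) (t : ℕ) : ∀ (x y : TM2.Cfg Γ1 Λ1 σ1),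
    (flip bind (TM2.step M1))^[t] (some x) = some y →
    (flip bind (TM2.step (cfun M1 M2 k₁ k₀ e d main2)))^[t] (some (cfg1 s2 S2 x)) =
      some (cfg1 s2 S2 y) := by
  induction t with
  | zero => intro x y h; simp only [Function.iterate_zero, id_eq, Option.some.injEq] at h ⊢; rw [h]
  | succ t ih =>
    intro x y h
    rw [iterate_some] at h ⊢
    obtain ⟨l, v, S⟩ := x
    cases l with
    | none =>
      rw [show TM2.step M1 ⟨none, v, S⟩ = none from rfl, iterate_none] at h
      exact absurd h (by simp)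
    | some l =>
      have h1 : TM2.step (cfun M1 M2 k₁ k₀ e d main2) (cfg1 s2 S2 ⟨some l, v, S⟩) =
          some (cfg1 s2 S2 (TM2.stepAux (M1 l) v S)) := by
        show some (TM2.stepAux (lift1 (M1 l)) (v, (s2, none)) (cst S S2 [])) = _
        rw [stepAux_lift1]
      rw [h1]
      exact ih _ _ h

/-- the second machine runs inside of the composed machine -/
lemma run2 (s1 : σ1) (S1 : ∀ k, List (Γ1 k)) (t : ℕ) : ∀ (x y : TM2.Cfg Γ2 Λ2 σ2),
    (flip bind (TM2.step M2))^[t] (some x) = some y →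
    (flip bind (TM2.step (cfun M1 M2 k₁ k₀ e d main2)))^[t] (some (cfg2 s1 S1 x)) =
      some (cfg2 s1 S1 y) := by
  induction t with
  | zero => intro x y h; simp only [Function.iterate_zero, id_eq, Option.some.injEq] at h ⊢; rw [h]
  | succ t ih =>
    intro x y h
    rw [iterate_some] at h ⊢
    obtain ⟨l, v, S⟩ := x
    cases l with
    | none =>
      rw [show TM2.step M2 ⟨none, v, S⟩ = none from rfl, iterate_none] at h
      exact absurd h (by simp)
    | some l =>
      have h1 : TM2.step (cfun M1 M2 k₁ k₀ e d main2) (cfg2 s1 S1 ⟨some l, v, S⟩) =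
          some (cfg2 s1 S1 (TM2.stepAux (M2 l) v S)) := by
        show some (TM2.stepAux (lift2 (M2 l)) (s1, (v, none)) (cst S1 S [])) = _
        rw [stepAux_lift2]
      rw [h1]
      exact ih _ _ h

/-- the stacks which are empty but one -/
def one {K : Type} [DecidableEq K] {Γ : K → Type} (k : K) (l : List (Γ k)) : ∀ k, List (Γ k) :=
  Function.update (fun _ => []) k l

lemma one_self {K : Type} [DecidableEq K] {Γ : K → Type} (k : K) (l : List (Γ k)) :
    one k l k = l := Function.update_self _ _ _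

lemma update_one {K : Type} [DecidableEq K] {Γ : K → Type} (k : K) (l l' : List (Γ k)) :
    Function.update (one k l) k l' = one k l' := by
  unfold one
  rw [Function.update_idem]

lemma one_ne {K : Type} [DecidableEq K] {Γ : K → Type} {k k' : K} (h : k' ≠ k)
    (l : List (Γ k)) : one k l k' = [] := Function.update_of_ne h _ _

lemma one_nil {K : Type} [DecidableEq K] {Γ : K → Type} (k k' : K) :
    one (Γ := Γ) k [] k' = [] := by
  by_cases h : k' = k
  · subst h; exact one_self _ _
  · exact one_ne h _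

lemma one_cst1 (k : K1) (k' : K2) (x : List (Γ1 k)) :
    (one (.inl k) x : ∀ k, List (CG Γ1 Γ2 X k)) = cst (one k x) (one k' []) [] := by
  funext j
  rcases j with j | j | j
  · show one (Γ := CG Γ1 Γ2 X) (.inl k) x (.inl j) = one k x j
    by_cases h : j = k
    · subst h
      rw [one_self, one_self]
    · rw [one_ne h]
      exact one_ne (Γ := CG Γ1 Γ2 X) (fun h2 => h (Sum.inl.inj h2)) _
  · show one (Γ := CG Γ1 Γ2 X) (.inl k) x (.inr (.inl j)) = one k' [] j
    rw [one_nil]
    exact one_ne (Γ := CG Γ1 Γ2 X) (by simp) _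
  · exact one_ne (Γ := CG Γ1 Γ2 X) (by simp) _

lemma one_cst2 (k : K1) (k' : K2) (x : List (Γ2 k')) :
    (one (.inr (.inl k')) x : ∀ k, List (CG Γ1 Γ2 X k)) = cst (one k []) (one k' x) [] := by
  funext j
  rcases j with j | j | j
  · show one (Γ := CG Γ1 Γ2 X) (.inr (.inl k')) x (.inl j) = one k [] j
    rw [one_nil]
    exact one_ne (Γ := CG Γ1 Γ2 X) (by simp) _
  · show one (Γ := CG Γ1 Γ2 X) (.inr (.inl k')) x (.inr (.inl j)) = one k' x j
    by_cases h : j = k'
    · subst h
      rw [one_self, one_self]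
    · rw [one_ne h]
      exact one_ne (Γ := CG Γ1 Γ2 X) (fun h2 => h (Sum.inl.inj (Sum.inr.inj h2))) _
  · exact one_ne (Γ := CG Γ1 Γ2 X) (by simp) _

/-- the first transfer loop -/
lemma transfer1 (v1 : σ1) (v2 : σ2) (y : List (Γ1 k₁)) : ∀ (t : List (Γ2 k₀))
    (w : Option (Γ2 k₀)),
    (flip bind (TM2.step (cfun M1 M2 k₁ k₀ e d main2)))^[y.length + 1]
      (some ⟨some (.inr (.inl true)), (v1, (v2, w)), cst (one k₁ y) (one k₀ []) t⟩) =
      some ⟨some (.inr (.inl false)), (v1, (v2, none)),
        cst (one k₁ []) (one k₀ []) ((y.map e).reverse ++ t)⟩ := by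
  induction y with
  | nil =>
    intro t w
    rw [List.length_nil, iterate_some]
    have h1 : TM2.step (cfun M1 M2 k₁ k₀ e d main2)
        ⟨some (.inr (.inl true)), (v1, (v2, w)), cst (one k₁ []) (one k₀ []) t⟩ =
        some (TM2.stepAux (.branch (fun v => v.2.2.isSome)
          (.push (.inr (.inr ())) (fun v => v.2.2.getD d) (.goto fun _ => .inr (.inl true)))
          (.goto fun _ => .inr (.inl false))) (v1, (v2, (one k₁ ([] : List (Γ1 k₁)) k₁).head?.map e))
          (Function.update (cst (one k₁ []) (one k₀ []) t) (.inl k₁)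
            (one k₁ ([] : List (Γ1 k₁)) k₁).tail)) := rfl
    rw [h1, one_self, update_cst1, List.tail_nil, update_one]
    rfl
  | cons x y ih =>
    intro t w
    rw [List.length_cons, iterate_some]
    have h1 : TM2.step (cfun M1 M2 k₁ k₀ e d main2)
        ⟨some (.inr (.inl true)), (v1, (v2, w)), cst (one k₁ (x :: y)) (one k₀ []) t⟩ =
        some (TM2.stepAux (.branch (fun v => v.2.2.isSome)
          (.push (.inr (.inr ())) (fun v => v.2.2.getD d) (.goto fun _ => .inr (.inl true)))
          (.goto fun _ => .inr (.inl false))) (v1, (v2, (one k₁ (x :: y) k₁).head?.map e))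
          (Function.update (cst (one k₁ (x :: y)) (one k₀ []) t) (.inl k₁)
            (one k₁ (x :: y) k₁).tail)) := rfl
    rw [h1, one_self, update_cst1, List.tail_cons, update_one]
    have h2 : TM2.stepAux (Λ := Λ1 ⊕ (Bool ⊕ Λ2)) (.branch (fun v => v.2.2.isSome)
          (.push (.inr (.inr ())) (fun v => v.2.2.getD d) (.goto fun _ => .inr (.inl true)))
          (.goto fun _ => .inr (.inl false))) (v1, (v2, (x :: y).head?.map e))
          (cst (one k₁ y) (one (Γ := Γ2) k₀ []) t) =
        ⟨some (.inr (.inl true)), (v1, (v2, some (e x))),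
          Function.update (cst (one k₁ y) (one (Γ := Γ2) k₀ []) t) (.inr (.inr ())) (e x :: t)⟩ :=
      rfl
    rw [h2, update_cst3, ih]
    simp

/-- the second transfer loop -/
lemma transfer2 (v1 : σ1) (v2 : σ2) (y : List (Γ2 k₀)) : ∀ (t : List (Γ2 k₀))
    (w : Option (Γ2 k₀)),
    (flip bind (TM2.step (cfun M1 M2 k₁ k₀ e d main2)))^[y.length + 1]
      (some ⟨some (.inr (.inl false)), (v1, (v2, w)), cst (one k₁ []) (one k₀ t) y⟩) =
      some ⟨some (.inr (.inr main2)), (v1, (v2, none)),
        cst (one k₁ []) (one k₀ (y.reverse ++ t)) []⟩ := by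
  induction y with
  | nil =>
    intro t w
    rw [List.length_nil, iterate_some]
    have h1 : TM2.step (cfun M1 M2 k₁ k₀ e d main2)
        ⟨some (.inr (.inl false)), (v1, (v2, w)), cst (one k₁ []) (one k₀ t) []⟩ =
        some (TM2.stepAux (.branch (fun v => v.2.2.isSome)
          (.push (.inr (.inl k₀)) (fun v => v.2.2.getD d) (.goto fun _ => .inr (.inl false)))
          (.goto fun _ => .inr (.inr main2))) (v1, (v2, none))
          (Function.update (cst (one k₁ []) (one k₀ t) []) (.inr (.inr ())) [])) := rfl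
    rw [h1, update_cst3]
    rfl
  | cons x y ih =>
    intro t w
    rw [List.length_cons, iterate_some]
    have h1 : TM2.step (cfun M1 M2 k₁ k₀ e d main2)
        ⟨some (.inr (.inl false)), (v1, (v2, w)), cst (one k₁ []) (one k₀ t) (x :: y)⟩ =
        some (TM2.stepAux (.branch (fun v => v.2.2.isSome)
          (.push (.inr (.inl k₀)) (fun v => v.2.2.getD d) (.goto fun _ => .inr (.inl false)))
          (.goto fun _ => .inr (.inr main2))) (v1, (v2, some x))
          (Function.update (cst (one k₁ []) (one k₀ t) (x :: y)) (.inr (.inr ())) y)) := rfl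
    rw [h1, update_cst3]
    have h2 : TM2.stepAux (Λ := Λ1 ⊕ (Bool ⊕ Λ2)) (.branch (fun v => v.2.2.isSome)
          (.push (.inr (.inl k₀)) (fun v => v.2.2.getD d) (.goto fun _ => .inr (.inl false)))
          (.goto fun _ => .inr (.inr main2))) (v1, (v2, some x))
          (cst (one (Γ := Γ1) k₁ []) (one k₀ t) y) =
        ⟨some (.inr (.inl false)), (v1, (v2, some x)),
          Function.update (cst (one (Γ := Γ1) k₁ []) (one k₀ t) y) (.inr (.inl k₀))
            (x :: one k₀ t k₀)⟩ := rfl
    rw [h2, update_cst2, one_self, update_one, ih]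
    simp

/-! ### Lengths of stacks -/

/-- the maximal number of symbols pushed by a statement -/
def pushes : TM2.Stmt Γ1 Λ1 σ1 → ℕ
  | .push _ _ q => pushes q + 1
  | .peek _ _ q => pushes q
  | .pop _ _ q => pushes q
  | .load _ q => pushes q
  | .branch _ q₁ q₂ => max (pushes q₁) (pushes q₂)
  | .goto _ => 0
  | .halt => 0

lemma stepAux_length (k : K1) (q : TM2.Stmt Γ1 Λ1 σ1) : ∀ (v : σ1) (S : ∀ k, List (Γ1 k)),
    ((TM2.stepAux q v S).stk k).length ≤ (S k).length + pushes q := by
  induction q with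
  | push k' f q ih =>
    intro v S
    refine (ih _ _).trans ?_
    show _ ≤ _ + (pushes q + 1)
    by_cases h : k = k'
    · subst h; rw [Function.update_self, List.length_cons]; omega
    · rw [Function.update_of_ne h]; omega
  | peek k' f q ih => intro v S; exact ih _ _
  | pop k' f q ih =>
    intro v S
    refine (ih _ _).trans ?_
    show _ ≤ _ + pushes q
    by_cases h : k = k'
    · subst h; rw [Function.update_self, List.length_tail]; omega
    · rw [Function.update_of_ne h]
  | load f q ih => intro v S; exact ih _ _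
  | branch p q₁ q₂ ih₁ ih₂ =>
    intro v S
    show ((cond (p v) (TM2.stepAux q₁ v S) (TM2.stepAux q₂ v S)).stk k).length ≤
      _ + max (pushes q₁) (pushes q₂)
    have h1 := ih₁ v S
    have h2 := ih₂ v S
    cases p v with
    | true => exact h1.trans (by omega)
    | false => exact h2.trans (by omega)
  | goto l => intro v S; exact le_rfl
  | halt => intro v S; exact le_rfl

lemma steps_length [Fintype Λ1] (k : K1) (t : ℕ) : ∀ (x y : TM2.Cfg Γ1 Λ1 σ1),
    (flip bind (TM2.step M1))^[t] (some x) = some y →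
    (y.stk k).length ≤ (x.stk k).length + t * Finset.univ.sup fun l => pushes (M1 l) := by
  induction t with
  | zero =>
    intro x y h
    simp only [Function.iterate_zero, id_eq, Option.some.injEq] at h
    rw [h]; omega
  | succ t ih =>
    intro x y h
    rw [iterate_some] at h
    obtain ⟨l, v, S⟩ := x
    cases l with
    | none =>
      rw [show TM2.step M1 ⟨none, v, S⟩ = none from rfl, iterate_none] at h
      exact absurd h (by simp)
    | some l =>
      have h1 := ih _ _ h
      have h2 := stepAux_length k (M1 l) v S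
      have h3 : pushes (M1 l) ≤ Finset.univ.sup fun l => pushes (M1 l) :=
        Finset.le_sup (f := fun l => pushes (M1 l)) (Finset.mem_univ l)
      show _ ≤ (S k).length + _
      have h4 : (t + 1) * (Finset.univ.sup fun l => pushes (M1 l)) =
          t * (Finset.univ.sup fun l => pushes (M1 l)) +
            Finset.univ.sup fun l => pushes (M1 l) := by ring
      omega

end general

/-- the composed machine -/
def machine (tm1 tm2 : FinTM2) (e : tm1.Γ tm1.k₁ → tm2.Γ tm2.k₀) (d : tm2.Γ tm2.k₀) : FinTM2 where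
  K := tm1.K ⊕ (tm2.K ⊕ Unit)
  kDecidableEq := inferInstance
  kFin := letI := tm1.kFin; letI := tm2.kFin; inferInstance
  k₀ := .inl tm1.k₀
  k₁ := .inr (.inl tm2.k₁)
  Γ := CG tm1.Γ tm2.Γ (tm2.Γ tm2.k₀)
  Λ := tm1.Λ ⊕ (Bool ⊕ tm2.Λ)
  main := .inl tm1.main
  ΛFin := letI := tm1.ΛFin; letI := tm2.ΛFin; inferInstance
  σ := tm1.σ × (tm2.σ × Option (tm2.Γ tm2.k₀))
  initialState := (tm1.initialState, (tm2.initialState, none))
  σFin := letI := tm1.σFin; letI := tm2.σFin; letI := tm2.Γk₀Fin; inferInstance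
  Γk₀Fin := tm1.Γk₀Fin
  m := cfun tm1.m tm2.m tm1.k₁ tm2.k₀ e d tm2.main

lemma initList_eq (tm : FinTM2) (s : List (tm.Γ tm.k₀)) :
    initList tm s = ⟨some tm.main, tm.initialState, one tm.k₀ s⟩ := by
  unfold initList
  congr 1
  funext k
  by_cases h : k = tm.k₀
  · subst h
    rw [one_self]
    simp
  · unfold one
    rw [Function.update_of_ne h]
    simp [h]

lemma haltList_eq (tm : FinTM2) (s : List (tm.Γ tm.k₁)) :
    haltList tm s = ⟨none, tm.initialState, one tm.k₁ s⟩ := by
  unfold haltList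
  congr 1
  funext k
  by_cases h : k = tm.k₁
  · subst h
    rw [one_self]
    simp
  · unfold one
    rw [Function.update_of_ne h]
    simp [h]

lemma length_one_le {K : Type} [DecidableEq K] {Γ : K → Type} (k k' : K) (l : List (Γ k)) :
    (one k l k').length ≤ l.length := by
  by_cases h : k' = k
  · subst h; rw [one_self]
  · unfold one
    rw [Function.update_of_ne h]
    simp

lemma eval_mono (p : Polynomial ℕ) {m n : ℕ} (h : m ≤ n) : p.eval m ≤ p.eval n := by
  induction p using Polynomial.induction_on' with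
  | add p q hp hq => rw [Polynomial.eval_add, Polynomial.eval_add]; exact add_le_add hp hq
  | monomial k a =>
    rw [Polynomial.eval_monomial, Polynomial.eval_monomial]
    exact Nat.mul_le_mul le_rfl (Nat.pow_le_pow_left h k)

/-- the run of the composed machine -/
lemma run (tm1 tm2 : FinTM2) (e : tm1.Γ tm1.k₁ → tm2.Γ tm2.k₀) (d : tm2.Γ tm2.k₀)
    (x : List (tm1.Γ tm1.k₀)) (y : List (tm1.Γ tm1.k₁)) (z : List (tm2.Γ tm2.k₁)) (t₁ t₂ : ℕ)
    (h1 : (flip bind (TM2.step tm1.m))^[t₁] (some ⟨some tm1.main, tm1.initialState,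
      one tm1.k₀ x⟩) = some ⟨none, tm1.initialState, one tm1.k₁ y⟩)
    (h2 : (flip bind (TM2.step tm2.m))^[t₂] (some ⟨some tm2.main, tm2.initialState,
      one tm2.k₀ (y.map e)⟩) = some ⟨none, tm2.initialState, one tm2.k₁ z⟩) :
    (flip bind (TM2.step (cfun tm1.m tm2.m tm1.k₁ tm2.k₀ e d tm2.main)))^[t₁ +
      ((y.length + 1) + ((y.length + 1) + t₂))]
      (some ⟨some (.inl tm1.main), (tm1.initialState, (tm2.initialState, none)),
        cst (one tm1.k₀ x) (one tm2.k₀ []) []⟩) =
      some ⟨none, (tm1.initialState, (tm2.initialState, none)),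
        cst (one tm1.k₁ []) (one tm2.k₁ z) []⟩ := by
  have a1 := run1 tm1.m tm2.m tm1.k₁ tm2.k₀ e d tm2.main tm2.initialState (one tm2.k₀ []) t₁ _ _ h1
  have a2 := transfer1 tm1.m tm2.m tm1.k₁ tm2.k₀ e d tm2.main tm1.initialState tm2.initialState y
    [] none
  have a3 := transfer2 tm1.m tm2.m tm1.k₁ tm2.k₀ e d tm2.main tm1.initialState tm2.initialState
    ((y.map e).reverse ++ []) [] none
  have a4 := run2 tm1.m tm2.m tm1.k₁ tm2.k₀ e d tm2.main tm1.initialState (one tm1.k₁ []) t₂ _ _ h2
  rw [List.append_nil] at a2 a3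
  rw [List.append_nil, List.reverse_reverse, List.length_reverse, List.length_map] at a3
  exact steps_trans _ a1 (steps_trans _ a2 (steps_trans _ a3 a4))

end Comp

open Pool.Agent.PolyTime.Comp in
/-- Compositions of polynomial time computations are polynomial time computations. -/
theorem tmComp {α β γ αΓ βΓ γΓ : Type} [Nonempty βΓ] {ea : α → List αΓ} {eb : β → List βΓ}
    {ec : γ → List γΓ} {f : α → β} {g : β → γ} (hf : TM2ComputableInPolyTime ea eb f)
    (hg : TM2ComputableInPolyTime eb ec g) :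
    Nonempty (TM2ComputableInPolyTime ea ec (fun a => g (f a))) := by
  obtain ⟨⟨tm1, i1, o1⟩, p1, H1⟩ := hf
  obtain ⟨⟨tm2, i2, o2⟩, p2, H2⟩ := hg
  simp only at H1 H2
  let e : tm1.Γ tm1.k₁ → tm2.Γ tm2.k₀ := fun x => i2.symm (o1 x)
  let d : tm2.Γ tm2.k₀ := i2.symm (Classical.arbitrary βΓ)
  let _ := tm1.ΛFin
  let C : ℕ := Finset.univ.sup fun l => pushes (tm1.m l)
  let L : Polynomial ℕ := Polynomial.X + Polynomial.C C * p1
  refine ⟨⟨⟨machine tm1 tm2 e d, i1, o2⟩, p1 + (2 * L + 2) + p2.comp L, fun a => ?_⟩⟩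
  obtain ⟨⟨n1, hn1⟩, hle1⟩ := H1 a
  obtain ⟨⟨n2, hn2⟩, hle2⟩ := H2 (f a)
  simp only at hle1 hle2
  have h1 : (flip bind (TM2.step tm1.m))^[n1] (some ⟨some tm1.main, tm1.initialState,
      one tm1.k₀ ((ea a).map i1.invFun)⟩) =
      some ⟨none, tm1.initialState, one tm1.k₁ ((eb (f a)).map o1.invFun)⟩ := by
    rw [← initList_eq, ← haltList_eq]
    exact hn1
  have he : ((eb (f a)).map o1.invFun).map e = (eb (f a)).map i2.invFun := by
    rw [List.map_map]
    apply List.map_congr_left
    intro b _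
    show i2.symm (o1 (o1.symm b)) = i2.symm b
    rw [Equiv.apply_symm_apply]
  have h2 : (flip bind (TM2.step tm2.m))^[n2] (some ⟨some tm2.main, tm2.initialState,
      one tm2.k₀ (((eb (f a)).map o1.invFun).map e)⟩) =
      some ⟨none, tm2.initialState, one tm2.k₁ ((ec (g (f a))).map o2.invFun)⟩ := by
    rw [he, ← initList_eq, ← haltList_eq]
    exact hn2
  have h3 := run tm1 tm2 e d _ _ _ n1 n2 h1 h2
  have h4 : (eb (f a)).length ≤ (ea a).length + n1 * C := by
    have h5 := steps_length tm1.m tm1.k₁ n1 _ _ h1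
    have h6 := length_one_le tm1.k₀ tm1.k₁ ((ea a).map i1.invFun)
    rw [List.length_map] at h6
    have h7 : (one tm1.k₁ ((eb (f a)).map o1.invFun) tm1.k₁).length = (eb (f a)).length := by
      rw [one_self, List.length_map]
    have h8 : (one tm1.k₁ ((eb (f a)).map o1.invFun) tm1.k₁).length ≤
      (one tm1.k₀ ((ea a).map i1.invFun) tm1.k₁).length + n1 * C := h5
    omega
  have h5 : (eb (f a)).length ≤ L.eval (ea a).length := by
    have h6 : L.eval (ea a).length = (ea a).length + C * p1.eval (ea a).length := by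
      simp [L]
    have h7 : n1 * C ≤ C * p1.eval (ea a).length := by
      rw [mul_comm]; exact Nat.mul_le_mul le_rfl hle1
    omega
  have h6 : n2 ≤ (p2.comp L).eval (ea a).length := by
    rw [Polynomial.eval_comp]
    exact hle2.trans (eval_mono p2 h5)
  refine ⟨⟨n1 + (((eb (f a)).map o1.invFun).length + 1 + (((eb (f a)).map o1.invFun).length + 1 +
    n2)), ?_⟩, ?_⟩
  · show (flip bind (machine tm1 tm2 e d).step)^[_]
      (some (initList (machine tm1 tm2 e d) ((ea a).map i1.invFun))) =
      some (haltList (machine tm1 tm2 e d) ((ec (g (f a))).map o2.invFun))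
    rw [initList_eq, haltList_eq]
    have e1 : (one (machine tm1 tm2 e d).k₀ ((ea a).map i1.invFun) :
        ∀ k, List ((machine tm1 tm2 e d).Γ k)) =
        cst (one tm1.k₀ ((ea a).map i1.invFun)) (one tm2.k₀ []) [] :=
      one_cst1 tm1.k₀ tm2.k₀ ((ea a).map i1.invFun)
    have e2 : (one (machine tm1 tm2 e d).k₁ ((ec (g (f a))).map o2.invFun) :
        ∀ k, List ((machine tm1 tm2 e d).Γ k)) =
        cst (one tm1.k₁ []) (one tm2.k₁ ((ec (g (f a))).map o2.invFun)) [] :=
      one_cst2 tm1.k₁ tm2.k₁ ((ec (g (f a))).map o2.invFun)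
    rw [e1, e2]
    exact h3
  · have h7 : (p1 + (2 * L + 2) + p2.comp L).eval (ea a).length = p1.eval (ea a).length +
        (2 * L.eval (ea a).length + 2) + (p2.comp L).eval (ea a).length := by
      simp
    show n1 + (((eb (f a)).map o1.invFun).length + 1 + (((eb (f a)).map o1.invFun).length + 1 +
      n2)) ≤ (p1 + (2 * L + 2) + p2.comp L).eval (ea a).length
    rw [h7, List.length_map]
    omega

/-- Composition, in the form with `Nonempty`. -/
theorem tm_comp {α β γ : Type} (ea : α → List Bool) (eb : β → List Bool) (ec : γ → List Bool)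
    (f : α → β) (g : β → γ) (hf : Nonempty (TM2ComputableInPolyTime ea eb f))
    (hg : Nonempty (TM2ComputableInPolyTime eb ec g)) :
    Nonempty (TM2ComputableInPolyTime ea ec (fun a => g (f a))) := by
  obtain ⟨hf⟩ := hf
  obtain ⟨hg⟩ := hg
  exact tmComp hf hg

end Pool.Agent.PolyTime
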