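import Mathlib

/-!
# A small structured language over four stacks of Booleans

`Cmd` is a language of structured programs acting on four stacks of Booleans, with a big-step
semantics `Run c s s' t` (the command `c` transforms the state `s` into `s'` in exactly `t` steps).
It is compiled into the stack machines `Turing.FinTM2` of Mathlib, with the same number of steps.
-/

set_option autoImplicit false

namespace Pool.Agent.PolyTime

open Turing

/-- the four stacks -/
inductive Reg : Type
  | m | a | b | c
  deriving DecidableEq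

instance : Fintype Reg :=
  ⟨⟨{Reg.m, Reg.a, Reg.b, Reg.c}, by decide⟩, fun x => by cases x <;> decide⟩

/-- the state of the machine: the contents of the four stacks -/
abbrev St : Type := Reg → List Bool

/-- programs -/
inductive Cmd : Type
  | skip : Cmd
  | push (k : Reg) (x : Bool) : Cmd
  | pop (k : Reg) : Cmd
  | seq (c₁ c₂ : Cmd) : Cmd
  | case (k : Reg) (cn cf ct : Cmd) : Cmd
  | loop (k : Reg) (p : Option Bool → Bool) (c : Cmd) : Cmd

/-- big step semantics with exact running time -/
inductive Run : Cmd → St → St → ℕ → Prop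
  | skip (s : St) : Run .skip s s 1
  | push (k : Reg) (x : Bool) (s : St) : Run (.push k x) s (Function.update s k (x :: s k)) 1
  | pop (k : Reg) (s : St) : Run (.pop k) s (Function.update s k (s k).tail) 1
  | seq {c₁ c₂ : Cmd} {s s' s'' : St} {t₁ t₂ : ℕ} :
      Run c₁ s s' t₁ → Run c₂ s' s'' t₂ → Run (.seq c₁ c₂) s s'' (t₁ + t₂)
  | case_none {k : Reg} {cn cf ct : Cmd} {s s' : St} {t : ℕ} :
      (s k).head? = none → Run cn s s' t → Run (.case k cn cf ct) s s' (t + 1)
  | case_false {k : Reg} {cn cf ct : Cmd} {s s' : St} {t : ℕ} :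
      (s k).head? = some false → Run cf s s' t → Run (.case k cn cf ct) s s' (t + 1)
  | case_true {k : Reg} {cn cf ct : Cmd} {s s' : St} {t : ℕ} :
      (s k).head? = some true → Run ct s s' t → Run (.case k cn cf ct) s s' (t + 1)
  | loop_stop {k : Reg} {p : Option Bool → Bool} {c : Cmd} {s : St} :
      p (s k).head? = false → Run (.loop k p c) s s 1
  | loop_step {k : Reg} {p : Option Bool → Bool} {c : Cmd} {s s' s'' : St} {t₁ t₂ : ℕ} :
      p (s k).head? = true → Run c s s' t₁ → Run (.loop k p c) s' s'' t₂ →
      Run (.loop k p c) s s'' (t₁ + t₂ + 1)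

/-- program points of a command -/
def Lbl : Cmd → Type
  | .skip => Unit
  | .push _ _ => Unit
  | .pop _ => Unit
  | .seq c₁ c₂ => Lbl c₁ ⊕ Lbl c₂
  | .case _ cn cf ct => Option (Lbl cn ⊕ (Lbl cf ⊕ Lbl ct))
  | .loop _ _ c => Option (Lbl c)

/-- there are finitely many program points -/
@[instance_reducible] def Lbl.fintype : (c : Cmd) → Fintype (Lbl c)
  | .skip => inferInstanceAs (Fintype Unit)
  | .push _ _ => inferInstanceAs (Fintype Unit)
  | .pop _ => inferInstanceAs (Fintype Unit)
  | .seq c₁ c₂ =>
      letI := Lbl.fintype c₁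
      letI := Lbl.fintype c₂
      inferInstanceAs (Fintype (Lbl c₁ ⊕ Lbl c₂))
  | .case _ cn cf ct =>
      letI := Lbl.fintype cn
      letI := Lbl.fintype cf
      letI := Lbl.fintype ct
      inferInstanceAs (Fintype (Option (Lbl cn ⊕ (Lbl cf ⊕ Lbl ct))))
  | .loop _ _ c =>
      letI := Lbl.fintype c
      inferInstanceAs (Fintype (Option (Lbl c)))

instance (c : Cmd) : Fintype (Lbl c) := Lbl.fintype c

/-- the entry point -/
def entry : (c : Cmd) → Lbl c
  | .skip => ()
  | .push _ _ => ()
  | .pop _ => ()
  | .seq c₁ _ => Sum.inl (entry c₁)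
  | .case _ _ _ _ => none
  | .loop _ _ _ => none

/-- the statement attached to a program point; `next` is the label to be reached at the end -/
def stmt : (c : Cmd) → {Λ : Type} → (Lbl c → Λ) → Λ → Lbl c →
    TM2.Stmt (fun _ : Reg => Bool) Λ (Option Bool)
  | .skip, _, _, next, _ => .goto fun _ => next
  | .push k x, _, _, next, _ => .push k (fun _ => x) (.goto fun _ => next)
  | .pop k, _, _, next, _ => .pop k (fun v _ => v) (.goto fun _ => next)
  | .seq c₁ c₂, _, emb, _, Sum.inl l =>
      stmt c₁ (fun l => emb (Sum.inl l)) (emb (Sum.inr (entry c₂))) l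
  | .seq _ c₂, _, emb, next, Sum.inr l => stmt c₂ (fun l => emb (Sum.inr l)) next l
  | .case k cn cf ct, _, emb, _, none =>
      .peek k (fun _ x => x) (.goto fun v => match v with
        | none => emb (some (Sum.inl (entry cn)))
        | some false => emb (some (Sum.inr (Sum.inl (entry cf))))
        | some true => emb (some (Sum.inr (Sum.inr (entry ct)))))
  | .case _ cn _ _, _, emb, next, some (Sum.inl l) =>
      stmt cn (fun l => emb (some (Sum.inl l))) next l
  | .case _ _ cf _, _, emb, next, some (Sum.inr (Sum.inl l)) =>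
      stmt cf (fun l => emb (some (Sum.inr (Sum.inl l)))) next l
  | .case _ _ _ ct, _, emb, next, some (Sum.inr (Sum.inr l)) =>
      stmt ct (fun l => emb (some (Sum.inr (Sum.inr l)))) next l
  | .loop k p c, _, emb, next, none =>
      .peek k (fun _ x => x) (.goto fun v => if p v then emb (some (entry c)) else next)
  | .loop _ _ c, _, emb, _, some l => stmt c (fun l => emb (some l)) (emb none) l

/-- iterated steps compose -/
theorem steps_trans {σ : Type} (f : σ → Option σ) {x y z : Option σ} {t₁ t₂ : ℕ}
    (h₁ : (flip bind f)^[t₁] x = y) (h₂ : (flip bind f)^[t₂] y = z) :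
    (flip bind f)^[t₁ + t₂] x = z := by
  rw [Nat.add_comm, Function.iterate_add_apply, h₁, h₂]

theorem one_step {Λ : Type} (M : Λ → TM2.Stmt (fun _ : Reg => Bool) Λ (Option Bool))
    {c : Cmd} {emb : Lbl c → Λ} {next : Λ} (hM : ∀ l, M (emb l) = stmt c emb next l)
    (v : Option Bool) (s : St) :
    (flip bind (TM2.step M))^[1] (some ⟨some (emb (entry c)), v, s⟩) =
      some (TM2.stepAux (stmt c emb next (entry c)) v s) := by
  simp [flip, hM]

/-- correctness of the compilation -/
theorem run_steps {Λ : Type} (M : Λ → TM2.Stmt (fun _ : Reg => Bool) Λ (Option Bool))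
    {c : Cmd} {s s' : St} {t : ℕ} (h : Run c s s' t) :
    ∀ (emb : Lbl c → Λ) (next : Λ) (_ : ∀ l, M (emb l) = stmt c emb next l) (v : Option Bool),
      ∃ v', (flip bind (TM2.step M))^[t] (some ⟨some (emb (entry c)), v, s⟩) =
        some ⟨some next, v', s'⟩ := by
  induction h with
  | skip s =>
    intro emb next hM v
    exact ⟨v, one_step M hM v s⟩
  | push k x s =>
    intro emb next hM v
    exact ⟨v, one_step M hM v s⟩
  | pop k s =>
    intro emb next hM v
    exact ⟨v, one_step M hM v s⟩
  | seq _ _ ih₁ ih₂ =>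
    intro emb next hM v
    obtain ⟨v₁, h₁⟩ := ih₁ (fun l => emb (Sum.inl l)) (emb (Sum.inr (entry _)))
      (fun l => hM (Sum.inl l)) v
    obtain ⟨v₂, h₂⟩ := ih₂ (fun l => emb (Sum.inr l)) next (fun l => hM (Sum.inr l)) v₁
    exact ⟨v₂, steps_trans _ h₁ h₂⟩
  | @case_none k cn cf ct s s' t hk _ ih =>
    intro emb next hM v
    obtain ⟨v₁, h₁⟩ := ih (fun l => emb (some (Sum.inl l))) next
      (fun l => hM (some (Sum.inl l))) (s k).head?
    refine ⟨v₁, ?_⟩
    rw [Nat.add_comm]
    refine steps_trans _ ((one_step M hM v s).trans ?_) h₁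
    show some (TM2.stepAux (TM2.Stmt.peek k _ _) v s) = _
    simp only [TM2.stepAux, hk]
  | @case_false k cn cf ct s s' t hk _ ih =>
    intro emb next hM v
    obtain ⟨v₁, h₁⟩ := ih (fun l => emb (some (Sum.inr (Sum.inl l)))) next
      (fun l => hM (some (Sum.inr (Sum.inl l)))) (s k).head?
    refine ⟨v₁, ?_⟩
    rw [Nat.add_comm]
    refine steps_trans _ ((one_step M hM v s).trans ?_) h₁
    show some (TM2.stepAux (TM2.Stmt.peek k _ _) v s) = _
    simp only [TM2.stepAux, hk]
  | @case_true k cn cf ct s s' t hk _ ih =>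
    intro emb next hM v
    obtain ⟨v₁, h₁⟩ := ih (fun l => emb (some (Sum.inr (Sum.inr l)))) next
      (fun l => hM (some (Sum.inr (Sum.inr l)))) (s k).head?
    refine ⟨v₁, ?_⟩
    rw [Nat.add_comm]
    refine steps_trans _ ((one_step M hM v s).trans ?_) h₁
    show some (TM2.stepAux (TM2.Stmt.peek k _ _) v s) = _
    simp only [TM2.stepAux, hk]
  | @loop_stop k p c s hk =>
    intro emb next hM v
    refine ⟨(s k).head?, (one_step M hM v s).trans ?_⟩
    show some (TM2.stepAux (TM2.Stmt.peek k _ (TM2.Stmt.goto fun v =>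
      if p v then _ else _)) v s) = _
    simp only [TM2.stepAux, hk, Bool.false_eq_true, if_false]
  | @loop_step k p c s s' s'' t₁ t₂ hk _ _ ih₁ ih₂ =>
    intro emb next hM v
    obtain ⟨v₁, h₁⟩ := ih₁ (fun l => emb (some l)) (emb none)
      (fun l => hM (some l)) (s k).head?
    obtain ⟨v₂, h₂⟩ := ih₂ emb next hM v₁
    refine ⟨v₂, ?_⟩
    rw [Nat.add_comm]
    refine steps_trans _ ((one_step M hM v s).trans ?_) (steps_trans _ h₁ h₂)
    show some (TM2.stepAux (TM2.Stmt.peek k _ (TM2.Stmt.goto fun v =>
      if p v then _ else _)) v s) = _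
    simp only [TM2.stepAux, hk, if_true]

/-- the stack machine of a command -/
def machine (c : Cmd) : FinTM2 where
  K := Reg
  k₀ := .m
  k₁ := .m
  Γ _ := Bool
  Λ := Option (Lbl c)
  main := some (entry c)
  σ := Option Bool
  initialState := none
  m l := match l with
    | none => .load (fun _ => none) .halt
    | some l => stmt c some none l

/-- the state with given stacks -/
def st (m a b c : List Bool) : St
  | .m => m
  | .a => a
  | .b => b
  | .c => c

/-- a command with the right behaviour gives a machine with the right behaviour -/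
theorem machine_outputs {c : Cmd} {x y : List Bool} {t : ℕ}
    (h : Run c (st x [] [] []) (st y [] [] []) t) :
    Nonempty (TM2OutputsInTime (machine c) x (some y) (t + 1)) := by
  obtain ⟨v, hv⟩ := run_steps (machine c).m h some none (fun l => rfl) none
  have h1 : initList (machine c) x = ⟨some (some (entry c)), none, st x [] [] []⟩ := by
    unfold initList
    congr 1
    funext k
    cases k <;> rfl
  have h2 : haltList (machine c) y = ⟨none, none, st y [] [] []⟩ := by
    unfold haltList
    congr 1
    funext k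
    cases k <;> rfl
  refine ⟨⟨⟨t + 1, ?_⟩, le_rfl⟩⟩
  have h3 : (flip bind (TM2.step (machine c).m))^[t + 1] (some ⟨some (some (entry c)), none,
      st x [] [] []⟩) = some ⟨none, none, st y [] [] []⟩ :=
    steps_trans _ hv rfl
  rw [← h1, ← h2] at h3
  exact h3

end Pool.Agent.PolyTime
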