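import Pool.Agent.Lib.PolyTime.Data
import Pool.Agent.Lib.PolyTime.Stack

/-!
# Polynomial time functions on binary trees

For `x y : α → D`, `FP x y` says that some command transforms, for every `a : α`, the input `x a`
into the output `y a` (more precisely, `code (x a) ++ r` into `code (y a) ++ r` on the main stack,
for all `r`), within a number of steps polynomially bounded in the size of `x a`.
-/

set_option autoImplicit false

namespace Pool.Agent.PolyTime

open D

/-- the code of a binary tree -/
def code : D → List Bool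
  | D.nil => [false]
  | D.cons x y => true :: (code x ++ code y)

@[simp] lemma code_nil : code D.nil = [false] := rfl
@[simp] lemma code_cons (x y : D) : code (D.cons x y) = true :: (code x ++ code y) := rfl

lemma length_code (x : D) : (code x).length = x.size := by
  induction x with
  | nil => rfl
  | cons x y ihx ihy => simp [ihx, ihy]

/-! ### executions within a time bound -/

/-- `c` leads from `s` to `s'` in at most `T` steps -/
def Ex (c : Cmd) (s s' : St) (T : ℕ) : Prop := ∃ t ≤ T, Run c s s' t

namespace Ex

variable {c c₁ c₂ cn cf ct : Cmd} {s s' s'' : St} {T T' T₁ T₂ : ℕ} {x : Bool}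
  {m a b l : List Bool} {k : Reg}

lemma mono (h : Ex c s s' T) (hT : T ≤ T') : Ex c s s' T' := by
  obtain ⟨t, ht, h⟩ := h
  exact ⟨t, ht.trans hT, h⟩

lemma skip (s : St) : Ex .skip s s 1 := ⟨1, le_rfl, Run.skip s⟩

lemma seq (h₁ : Ex c₁ s s' T₁) (h₂ : Ex c₂ s' s'' T₂) : Ex (.seq c₁ c₂) s s'' (T₁ + T₂) := by
  obtain ⟨t₁, ht₁, h₁⟩ := h₁
  obtain ⟨t₂, ht₂, h₂⟩ := h₂
  exact ⟨t₁ + t₂, add_le_add ht₁ ht₂, Run.seq h₁ h₂⟩

lemma push (k : Reg) (x : Bool) (h : s' = Function.update s k (x :: s k)) :
    Ex (.push k x) s s' 1 := ⟨1, le_rfl, h ▸ Run.push k x s⟩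

lemma pop (k : Reg) (h : s' = Function.update s k (s k).tail) :
    Ex (.pop k) s s' 1 := ⟨1, le_rfl, h ▸ Run.pop k s⟩

lemma push_m : Ex (.push .m x) (st m a b l) (st (x :: m) a b l) 1 :=
  push _ _ (by funext k; cases k <;> rfl)
lemma push_a : Ex (.push .a x) (st m a b l) (st m (x :: a) b l) 1 :=
  push _ _ (by funext k; cases k <;> rfl)
lemma push_b : Ex (.push .b x) (st m a b l) (st m a (x :: b) l) 1 :=
  push _ _ (by funext k; cases k <;> rfl)
lemma push_c : Ex (.push .c x) (st m a b l) (st m a b (x :: l)) 1 :=
  push _ _ (by funext k; cases k <;> rfl)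
lemma pop_m : Ex (.pop .m) (st (x :: m) a b l) (st m a b l) 1 :=
  pop _ (by funext k; cases k <;> rfl)
lemma pop_a : Ex (.pop .a) (st m (x :: a) b l) (st m a b l) 1 :=
  pop _ (by funext k; cases k <;> rfl)
lemma pop_b : Ex (.pop .b) (st m a (x :: b) l) (st m a b l) 1 :=
  pop _ (by funext k; cases k <;> rfl)
lemma pop_c : Ex (.pop .c) (st m a b (x :: l)) (st m a b l) 1 :=
  pop _ (by funext k; cases k <;> rfl)

lemma case_none (hk : s k = []) (h : Ex cn s s' T) : Ex (.case k cn cf ct) s s' (T + 1) := by
  obtain ⟨t, ht, h⟩ := h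
  exact ⟨t + 1, by omega, Run.case_none (by rw [hk]; rfl) h⟩

lemma case_false {l : List Bool} (hk : s k = false :: l) (h : Ex cf s s' T) :
    Ex (.case k cn cf ct) s s' (T + 1) := by
  obtain ⟨t, ht, h⟩ := h
  exact ⟨t + 1, by omega, Run.case_false (by rw [hk]; rfl) h⟩

lemma case_true {l : List Bool} (hk : s k = true :: l) (h : Ex ct s s' T) :
    Ex (.case k cn cf ct) s s' (T + 1) := by
  obtain ⟨t, ht, h⟩ := h
  exact ⟨t + 1, by omega, Run.case_true (by rw [hk]; rfl) h⟩

lemma loop_stop {p : Option Bool → Bool} (hk : p (s k).head? = false) :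
    Ex (.loop k p c) s s 1 := ⟨1, le_rfl, Run.loop_stop hk⟩

lemma loop_step {p : Option Bool → Bool} (hk : p (s k).head? = true) (h₁ : Ex c s s' T₁)
    (h₂ : Ex (.loop k p c) s' s'' T₂) : Ex (.loop k p c) s s'' (T₁ + T₂ + 1) := by
  obtain ⟨t₁, ht₁, h₁⟩ := h₁
  obtain ⟨t₂, ht₂, h₂⟩ := h₂
  exact ⟨t₁ + t₂ + 1, by omega, Run.loop_step hk h₁ h₂⟩

end Ex

/-- lengths grow at most by the running time -/
lemma Run.length_le {c : Cmd} {s s' : St} {t : ℕ} (h : Run c s s' t) (k : Reg) :
    (s' k).length ≤ (s k).length + t := by
  induction h with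
  | skip s => omega
  | push k' x s =>
    by_cases hk : k = k'
    · subst hk; simp
    · rw [Function.update_of_ne hk]; omega
  | pop k' s =>
    by_cases hk : k = k'
    · subst hk; simp; omega
    · rw [Function.update_of_ne hk]; omega
  | seq _ _ ih₁ ih₂ => omega
  | case_none _ _ ih => omega
  | case_false _ _ ih => omega
  | case_true _ _ ih => omega
  | loop_stop _ => omega
  | loop_step _ _ _ ih₁ ih₂ => omega

/-! ### reading the code of a tree from the main stack -/

/-- push an optional symbol -/
def optPush (k : Reg) : Option Bool → Cmd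
  | none => .skip
  | some x => .push k x

lemma optPush_a (o : Option Bool) (m a b l : List Bool) :
    Ex (optPush .a o) (st m a b l) (st m (o.toList ++ a) b l) 1 := by
  cases o with
  | none => exact Ex.skip _
  | some x => exact Ex.push_a

lemma optPush_b (o : Option Bool) (m a b l : List Bool) :
    Ex (optPush .b o) (st m a b l) (st m a (o.toList ++ b) l) 1 := by
  cases o with
  | none => exact Ex.skip _
  | some x => exact Ex.push_b

/-- the loop reading the code of a tree; the stack `c` is used as a counter -/
def parseLoop (φ ψ : Bool → Option Bool) : Cmd :=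
  .loop .c Option.isSome
    (.case .m .skip
      (.seq (.pop .m) (.seq (optPush .a (φ false)) (.seq (optPush .b (ψ false)) (.pop .c))))
      (.seq (.pop .m) (.seq (optPush .a (φ true)) (.seq (optPush .b (ψ true)) (.push .c true)))))

lemma filterMap_cons_reverse (φ : Bool → Option Bool) (x : Bool) (l a : List Bool) :
    ((x :: l).filterMap φ).reverse ++ a = (l.filterMap φ).reverse ++ ((φ x).toList ++ a) := by
  cases hf : φ x <;> simp [hf]

lemma parseLoop_run (φ ψ : Bool → Option Bool) (d : D) :
    ∀ (r a b l : List Bool) (s' : St) (T : ℕ),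
      Ex (parseLoop φ ψ) (st r (((code d).filterMap φ).reverse ++ a)
        (((code d).filterMap ψ).reverse ++ b) l) s' T →
      Ex (parseLoop φ ψ) (st (code d ++ r) a b (true :: l)) s' (T + 6 * d.size) := by
  induction d with
  | nil =>
    intro r a b l s' T h
    refine (Ex.loop_step (by rfl) (Ex.case_false (l := r) rfl
      (Ex.pop_m.seq ((optPush_a _ _ _ _ _).seq ((optPush_b _ _ _ _ _).seq Ex.pop_c))))
      (T₂ := T) ?_).mono (by simp; omega)
    rw [code_nil, filterMap_cons_reverse, filterMap_cons_reverse] at h
    exact h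
  | cons x y ihx ihy =>
    intro r a b l s' T h
    rw [code_cons, List.cons_append, List.append_assoc]
    refine (Ex.loop_step (by rfl) (Ex.case_true rfl
      (Ex.pop_m.seq ((optPush_a _ _ _ _ _).seq ((optPush_b _ _ _ _ _).seq Ex.push_c))))
      (ihx _ _ _ _ _ _ (ihy _ _ _ _ _ T ?_))).mono (by simp; omega)
    rw [code_cons, filterMap_cons_reverse, filterMap_cons_reverse, List.filterMap_append,
      List.filterMap_append, List.reverse_append, List.reverse_append, List.append_assoc,
      List.append_assoc] at h
    exact h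

/-- read the code of a tree -/
def parse (φ ψ : Bool → Option Bool) : Cmd := .seq (.push .c true) (parseLoop φ ψ)

lemma parse_run (φ ψ : Bool → Option Bool) (d : D) (r a b : List Bool) :
    Ex (parse φ ψ) (st (code d ++ r) a b []) (st r (((code d).filterMap φ).reverse ++ a)
      (((code d).filterMap ψ).reverse ++ b) []) (6 * d.size + 2) := by
  refine (Ex.push_c.seq (parseLoop_run φ ψ d r a b [] _ 1 ?_)).mono (by omega)
  exact Ex.loop_stop rfl

/-- pour stack `a` onto the main stack -/
def backA : Cmd :=
  .loop .a Option.isSome (.case .a .skip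
    (.seq (.pop .a) (.push .m false)) (.seq (.pop .a) (.push .m true)))

lemma backA_run (a : List Bool) : ∀ (m b l : List Bool),
    Ex backA (st m a b l) (st (a.reverse ++ m) [] b l) (4 * a.length + 1) := by
  induction a with
  | nil => intro m b l; exact Ex.loop_stop rfl
  | cons x a ih =>
    intro m b l
    have h := ih (x :: m) b l
    rw [List.reverse_cons, List.append_assoc, List.singleton_append]
    cases x with
    | false =>
      exact (Ex.loop_step rfl (Ex.case_false rfl (Ex.pop_a.seq Ex.push_m)) h).mono
        (by simp; omega)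
    | true =>
      exact (Ex.loop_step rfl (Ex.case_true rfl (Ex.pop_a.seq Ex.push_m)) h).mono
        (by simp; omega)

/-- pour stack `b` onto the main stack -/
def backB : Cmd :=
  .loop .b Option.isSome (.case .b .skip
    (.seq (.pop .b) (.push .m false)) (.seq (.pop .b) (.push .m true)))

lemma backB_run (b : List Bool) : ∀ (m a l : List Bool),
    Ex backB (st m a b l) (st (b.reverse ++ m) a [] l) (4 * b.length + 1) := by
  induction b with
  | nil => intro m b l; exact Ex.loop_stop rfl
  | cons x a ih =>
    intro m b l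
    have h := ih (x :: m) b l
    rw [List.reverse_cons, List.append_assoc, List.singleton_append]
    cases x with
    | false =>
      exact (Ex.loop_step rfl (Ex.case_false rfl (Ex.pop_b.seq Ex.push_m)) h).mono
        (by simp; omega)
    | true =>
      exact (Ex.loop_step rfl (Ex.case_true rfl (Ex.pop_b.seq Ex.push_m)) h).mono
        (by simp; omega)

/-- delete the tree on top of the main stack -/
def drop : Cmd := parse (fun _ => none) (fun _ => none)

lemma drop_run (d : D) (r : List Bool) :
    Ex drop (st (code d ++ r) [] [] []) (st r [] [] []) (6 * d.size + 2) := by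
  have h := parse_run (fun _ => none) (fun _ => none) d r [] []
  simp only [List.filterMap_none, List.reverse_nil, List.nil_append] at h
  exact h

/-- duplicate the tree on top of the main stack -/
def dup : Cmd := .seq (parse some some) (.seq backA backB)

lemma dup_run (d : D) (r : List Bool) :
    Ex dup (st (code d ++ r) [] [] []) (st (code d ++ (code d ++ r)) [] [] [])
      (14 * d.size + 4) := by
  have h1 := parse_run some some d r [] []
  simp only [List.filterMap_some, List.append_nil] at h1
  have h2 := backA_run (code d).reverse r (code d).reverse []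
  have h3 := backB_run (code d).reverse (code d ++ r) [] []
  rw [List.reverse_reverse] at h2 h3
  refine (h1.seq (h2.seq h3)).mono ?_
  rw [List.length_reverse, length_code]
  omega

/-- swap the two trees on top of the main stack -/
def swap : Cmd := .seq (parse some (fun _ => none)) (.seq (parse (fun _ => none) some)
  (.seq backA backB))

lemma swap_run (d e : D) (r : List Bool) :
    Ex swap (st (code d ++ (code e ++ r)) [] [] []) (st (code e ++ (code d ++ r)) [] [] [])
      (10 * d.size + 10 * e.size + 6) := by
  have h1 := parse_run some (fun _ => none) d (code e ++ r) [] []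
  have h2 := parse_run (fun _ => none) some e r (code d).reverse []
  simp only [List.filterMap_some, List.append_nil, List.filterMap_none, List.reverse_nil,
    List.nil_append] at h1 h2
  have h3 := backA_run (code d).reverse r (code e).reverse []
  have h4 := backB_run (code e).reverse (code d ++ r) [] []
  rw [List.reverse_reverse] at h3 h4
  refine (h1.seq (h2.seq (h3.seq h4))).mono ?_
  rw [List.length_reverse, length_code, List.length_reverse, length_code]
  omega

/-- push a list on the main stack -/
def pushList : List Bool → Cmd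
  | [] => .skip
  | x :: l => .seq (pushList l) (.push .m x)

lemma pushList_run (l : List Bool) (r : List Bool) :
    Ex (pushList l) (st r [] [] []) (st (l ++ r) [] [] []) (l.length + 1) := by
  induction l with
  | nil => exact Ex.skip _
  | cons x l ih => exact (ih.seq Ex.push_m).mono (by simp)

/-! ### polynomial bounds -/

/-- `g a` is bounded by a polynomial in the size of `x a` -/
def PB {α : Type*} (x : α → D) (g : α → ℕ) : Prop := ∃ c k : ℕ, ∀ a, g a ≤ c * (x a).size ^ k

namespace PB

variable {α β : Type*} {x : α → D} {g h : α → ℕ}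

lemma mono (hh : PB x h) (hgh : ∀ a, g a ≤ h a) : PB x g := by
  obtain ⟨c, k, hc⟩ := hh
  exact ⟨c, k, fun a => (hgh a).trans (hc a)⟩

lemma const (x : α → D) (n : ℕ) : PB x (fun _ => n) := ⟨n, 0, fun a => by simp⟩

lemma size (x : α → D) : PB x (fun a => (x a).size) := ⟨1, 1, fun a => by simp⟩

lemma add (hg : PB x g) (hh : PB x h) : PB x fun a => g a + h a := by
  obtain ⟨c, k, hc⟩ := hg
  obtain ⟨d, l, hd⟩ := hh
  refine ⟨c + d, max k l, fun a => ?_⟩
  have h1 := D.size_pos (x a)
  calc g a + h a ≤ c * D.size (x a) ^ k + d * D.size (x a) ^ l := add_le_add (hc a) (hd a)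
    _ ≤ c * D.size (x a) ^ max k l + d * D.size (x a) ^ max k l := by
        gcongr
        · exact le_max_left _ _
        · exact le_max_right _ _
    _ = (c + d) * D.size (x a) ^ max k l := by ring

lemma mul (hg : PB x g) (hh : PB x h) : PB x fun a => g a * h a := by
  obtain ⟨c, k, hc⟩ := hg
  obtain ⟨d, l, hd⟩ := hh
  refine ⟨c * d, k + l, fun a => ?_⟩
  calc g a * h a ≤ (c * D.size (x a) ^ k) * (d * D.size (x a) ^ l) :=
        Nat.mul_le_mul (hc a) (hd a)
    _ = (c * d) * D.size (x a) ^ (k + l) := by ring

lemma cmul (n : ℕ) (hg : PB x g) : PB x fun a => n * g a := mul (const x n) hg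

lemma pow (hg : PB x g) (n : ℕ) : PB x fun a => g a ^ n := by
  induction n with
  | zero => simpa using const x 1
  | succ n ih => simp only [pow_succ]; exact mul ih hg

lemma comp {y : α → D} (hg : PB y g) (hy : PB x fun a => (y a).size) : PB x g := by
  obtain ⟨c, k, hc⟩ := hg
  exact mono (cmul c (pow hy k)) hc

end PB

/-! ### the class of polynomial time functions -/

/-- there is a program which for every `a : α` turns the input `x a` into the output `y a`, in time
polynomial in the size of `x a` -/
def FP {α : Type*} (x y : α → D) : Prop := ∃ (c : Cmd) (T : α → ℕ), PB x T ∧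
  ∀ (a : α) (r : List Bool), Ex c (st (code (x a) ++ r) [] [] []) (st (code (y a) ++ r) [] [] [])
    (T a)

namespace FP

variable {α β σ : Type*} {x y z w : α → D}

/-- the size of the output is polynomially bounded -/
lemma bdd (h : FP x y) : PB x fun a => (y a).size := by
  obtain ⟨c, T, hT, h⟩ := h
  refine PB.mono (PB.add (PB.size x) hT) (fun a => ?_)
  obtain ⟨t, ht, hr⟩ := h a []
  have h1 := hr.length_le Reg.m
  simp only [st, List.append_nil, length_code] at h1
  omega

theorem id (x : α → D) : FP x x := ⟨.skip, _, PB.const x 1, fun _ _ => Ex.skip _⟩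

theorem comp (h1 : FP x y) (h2 : FP y z) : FP x z := by
  have hb := h1.bdd
  obtain ⟨cf, Tf, hTf, hf⟩ := h1
  obtain ⟨cg, Tg, hTg, hg⟩ := h2
  exact ⟨.seq cf cg, fun a => Tf a + Tg a, PB.add hTf (PB.comp hTg hb),
    fun a r => (hf a r).seq (hg a r)⟩

theorem const (x : α → D) (d : D) : FP x fun _ => d := by
  refine ⟨.seq drop (pushList (code d)), fun a => 6 * (x a).size + 2 + ((code d).length + 1), ?_,
    fun a r => (drop_run (x a) r).seq (pushList_run _ _)⟩
  exact PB.add (PB.add (PB.cmul 6 (PB.size x)) (PB.const x 2)) (PB.const x _)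

theorem cons (h1 : FP x y) (h2 : FP x z) : FP x fun a => D.cons (y a) (z a) := by
  have hbg := h2.bdd
  obtain ⟨cf, Tf, hTf, hf⟩ := h1
  obtain ⟨cg, Tg, hTg, hg⟩ := h2
  refine ⟨.seq dup (.seq cg (.seq swap (.seq cf (.push .m true)))),
    fun a => (14 * (x a).size + 4) + (Tg a + ((10 * (z a).size + 10 * (x a).size + 6) +
      (Tf a + 1))), ?_, fun a r => ?_⟩
  · exact PB.add (PB.add (PB.cmul _ (PB.size x)) (PB.const x _)) (PB.add hTg (PB.add
      (PB.add (PB.add (PB.cmul _ hbg) (PB.cmul _ (PB.size x))) (PB.const x _))
      (PB.add hTf (PB.const x _))))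
  · refine (dup_run (x a) r).seq ((hg a _).seq ((swap_run (z a) (x a) r).seq ((hf a _).seq ?_)))
    rw [code_cons, List.cons_append, List.append_assoc]
    exact Ex.push_m

/-- the command for the first component -/
def hdCmd : Cmd := .case .m .skip .skip (.seq (.pop .m) (.seq (parse some (fun _ => none))
    (.seq drop backA)))

lemma hdCmd_run (d : D) (r : List Bool) :
    Ex hdCmd (st (code d ++ r) [] [] []) (st (code (D.hd d) ++ r) [] [] []) (16 * d.size + 7) := by
  cases d with
  | nil =>
    exact (Ex.case_false (l := r) rfl (Ex.skip _)).mono (by simp)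
  | cons u v =>
    rw [code_cons, List.cons_append, List.append_assoc]
    have h1 := parse_run some (fun _ => none) u (code v ++ r) [] []
    have h2 := parse_run (fun _ => none) (fun _ => none) v r (code u).reverse []
    simp only [List.filterMap_some, List.append_nil, List.filterMap_none, List.reverse_nil,
      List.nil_append] at h1 h2
    have h3 := backA_run (code u).reverse r [] []
    rw [List.reverse_reverse] at h3
    refine (Ex.case_true rfl (Ex.pop_m.seq (h1.seq (h2.seq h3)))).mono ?_
    rw [List.length_reverse, length_code]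
    simp
    omega

theorem hd (h : FP x y) : FP x fun a => D.hd (y a) := by
  refine h.comp ⟨hdCmd, fun a => 16 * (y a).size + 7, ?_, fun a r => hdCmd_run _ _⟩
  exact PB.add (PB.cmul _ (PB.size y)) (PB.const y _)

/-- the command for the second component -/
def tlCmd : Cmd := .case .m .skip .skip (.seq (.pop .m) drop)

lemma tlCmd_run (d : D) (r : List Bool) :
    Ex tlCmd (st (code d ++ r) [] [] []) (st (code (D.tl d) ++ r) [] [] []) (6 * d.size + 4) := by
  cases d with
  | nil =>
    exact (Ex.case_false (l := r) rfl (Ex.skip _)).mono (by simp)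
  | cons u v =>
    rw [code_cons, List.cons_append, List.append_assoc]
    refine (Ex.case_true rfl (Ex.pop_m.seq (drop_run u _))).mono ?_
    simp
    omega

theorem tl (h : FP x y) : FP x fun a => D.tl (y a) := by
  refine h.comp ⟨tlCmd, fun a => 6 * (y a).size + 4, ?_, fun a r => tlCmd_run _ _⟩
  exact PB.add (PB.cmul _ (PB.size y)) (PB.const y _)

/-- restriction of the inputs -/
theorem reindex (h : FP x y) (g : β → α) : FP (fun b => x (g b)) fun b => y (g b) := by
  obtain ⟨c, T, ⟨C, k, hT⟩, h⟩ := h
  exact ⟨c, fun b => T (g b), ⟨C, k, fun b => hT (g b)⟩, fun b r => h (g b) r⟩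

/-- a program need only be correct on either case -/
theorem cases {p : α → Prop} (hc : FP x w) (hw : ∀ a, w a = D.nil ↔ p a)
    (h1 : FP (fun a : {a // p a} => x a) fun a => y a)
    (h2 : FP (fun a : {a // ¬ p a} => x a) fun a => y a) : FP x y := by
  classical
  have hbc := hc.bdd
  obtain ⟨cc, Tc, hTc, hc⟩ := hc
  obtain ⟨cf, Tf, ⟨Cf, kf, hTf⟩, hf⟩ := h1
  obtain ⟨cg, Tg, ⟨Cg, kg, hTg⟩, hg⟩ := h2
  refine ⟨.seq dup (.seq cc (.case .m .skip (.seq (.pop .m) cf) (.seq drop cg))),
    fun a => (14 * (x a).size + 4) + (Tc a + ((6 * (w a).size + 2) + 1 + Cf * (x a).size ^ kf +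
      Cg * (x a).size ^ kg + 1)), ?_, fun a r => ?_⟩
  · exact PB.add (PB.add (PB.cmul _ (PB.size x)) (PB.const x _)) (PB.add hTc
      (PB.add (PB.add (PB.add (PB.add (PB.add (PB.cmul _ hbc) (PB.const x _))
        (PB.const x _)) (PB.cmul _ (PB.pow (PB.size x) _))) (PB.cmul _ (PB.pow (PB.size x) _)))
        (PB.const x _)))
  · refine (dup_run (x a) r).seq ((hc a _).seq ?_)
    by_cases h : w a = D.nil
    · have hp := (hw a).mp h
      rw [h, code_nil, List.singleton_append]
      have e1 := hf ⟨a, hp⟩ r
      have e2 : Tf ⟨a, hp⟩ ≤ Cf * (x a).size ^ kf := hTf ⟨a, hp⟩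
      exact (Ex.case_false rfl (Ex.pop_m.seq e1)).mono (by omega)
    · have hp : ¬ p a := fun hp => h ((hw a).mpr hp)
      have h1 := drop_run (w a) (code (x a) ++ r)
      obtain ⟨u, v, huv⟩ : ∃ u v, w a = D.cons u v := by
        cases hcx : w a with
        | nil => exact absurd hcx h
        | cons u v => exact ⟨u, v, rfl⟩
      have e1 := hg ⟨a, hp⟩ r
      have e2 : Tg ⟨a, hp⟩ ≤ Cg * (x a).size ^ kg := hTg ⟨a, hp⟩
      refine (Ex.case_true (l := code u ++ code v ++ (code (x a) ++ r)) ?_ (h1.seq e1)).mono
        (by omega)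
      rw [huv]
      simp [st]

theorem ite (hc : FP x w) (h1 : FP x y) (h2 : FP x z) :
    FP x fun a => if w a = D.nil then y a else z a := by
  refine cases hc (p := fun a => w a = D.nil) (fun a => Iff.rfl) ?_ ?_
  · have : (fun a : {a // w a = D.nil} => if w a = D.nil then y a else z a) =
        fun a => y a.1 := by
      funext a
      rw [if_pos a.2]
    rw [this]
    exact h1.reindex _
  · have : (fun a : {a // ¬ w a = D.nil} => if w a = D.nil then y a else z a) =
        fun a => z a.1 := by
      funext a
      rw [if_neg a.2]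
    rw [this]
    exact h2.reindex _

/-- unary numbers -/
def num : ℕ → D
  | 0 => D.nil
  | n + 1 => D.cons D.nil (num n)

lemma size_num (n : ℕ) : (num n).size = 2 * n + 1 := by
  induction n with
  | zero => rfl
  | succ n ih => simp [num, ih]; omega

/-- transform the stack `a` of length `n` into the code of the unary number `n` -/
def unary : Cmd := .seq (.push .m false)
  (.loop .a Option.isSome (.seq (.pop .a) (.seq (.push .m false) (.push .m true))))

lemma unary_loop (a : List Bool) : ∀ (n : ℕ) (r : List Bool),
    Ex (.loop .a Option.isSome (.seq (.pop .a) (.seq (.push .m false) (.push .m true))))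
      (st (code (num n) ++ r) a [] []) (st (code (num (n + a.length)) ++ r) [] [] [])
      (4 * a.length + 1) := by
  induction a with
  | nil => intro n r; exact Ex.loop_stop rfl
  | cons x a ih =>
    intro n r
    have h := ih (n + 1) r
    rw [show n + 1 + a.length = n + (x :: a).length by simp; omega] at h
    exact (Ex.loop_step rfl (Ex.pop_a.seq (Ex.push_m.seq Ex.push_m)) h).mono (by simp; omega)

lemma unary_run (a r : List Bool) :
    Ex unary (st r a [] []) (st (code (num a.length) ++ r) [] [] []) (4 * a.length + 2) := by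
  have h := unary_loop a 0 r
  rw [Nat.zero_add] at h
  exact (Ex.push_m.seq h).mono (by omega)

/-- main loop of the iteration -/
def iterLoop (cf : Cmd) : Cmd :=
  .loop .m (fun o => o == some true) (.seq (.pop .m) (.seq (.pop .m)
    (.seq swap (.seq cf swap))))

lemma iterLoop_run {cf : Cmd} {e : σ → D} {f : σ → σ} {T : σ → ℕ}
    (hf : ∀ (x : σ) (r : List Bool),
      Ex cf (st (code (e x) ++ r) [] [] []) (st (code (e (f x)) ++ r) [] [] []) (T x))
    (N S τ : ℕ) (n : ℕ) : n ≤ N → ∀ (y : σ) (r : List Bool),
    (∀ i ≤ n, (e (f^[i] y)).size ≤ S) → (∀ i ≤ n, T (f^[i] y) ≤ τ) →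
    Ex (iterLoop cf) (st (code (num n) ++ (code (e y) ++ r)) [] [] [])
      (st (false :: (code (e (f^[n] y)) ++ r)) [] [] [])
      (n * (τ + 20 * S + 40 * N + 40) + 1) := by
  induction n with
  | zero =>
    intro _ y r _ _
    exact (Ex.loop_stop rfl).mono (by omega)
  | succ n ih =>
    intro hn y r hS hT
    have h1 := swap_run (num n) (e y) r
    have h2 := hf y (code (num n) ++ r)
    have h3 := swap_run (e (f y)) (num n) r
    have h4 := ih (by omega) (f y) r
      (fun i hi => by have := hS (i + 1) (by omega); rwa [Function.iterate_succ_apply] at this)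
      (fun i hi => by have := hT (i + 1) (by omega); rwa [Function.iterate_succ_apply] at this)
    have e1 := hS 0 (by omega)
    have e2 := hS 1 (by omega)
    have e3 := hT 0 (by omega)
    rw [Function.iterate_zero_apply] at e1 e3
    rw [Function.iterate_one] at e2
    have e4 := size_num n
    rw [Function.iterate_succ_apply]
    refine (Ex.loop_step rfl (Ex.pop_m.seq (Ex.pop_m.seq (h1.seq (h2.seq h3)))) h4).mono ?_
    have e5 := Nat.add_one_mul n (τ + 20 * S + 40 * N + 40)
    omega

/-- bounded iteration -/
theorem iter {e : σ → D} {f : σ → σ} {s : α → σ} (hf : FP e fun a => e (f a))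
    (hs : FP x fun a => e (s a)) (hy : FP x y)
    (hb : ∃ c k : ℕ, ∀ a i, i ≤ D.size (y a) → D.size (e (f^[i] (s a))) ≤ c * D.size (x a) ^ k) :
    FP x fun a => e (f^[D.size (y a)] (s a)) := by
  have hba := hs.bdd
  have hbb := hy.bdd
  obtain ⟨cf, Tf, hTf, hf⟩ := hf
  obtain ⟨ca, Ta, hTa, ha⟩ := hs
  obtain ⟨cb, Tb, hTb, hb'⟩ := hy
  obtain ⟨c, k, hck⟩ := hb
  obtain ⟨c', k', hck'⟩ := hTf
  have hS : PB x fun a => c * (x a).size ^ k := PB.cmul _ (PB.pow (PB.size x) _)
  have hτ : PB x fun a => c' * (c * (x a).size ^ k) ^ k' := PB.cmul _ (PB.pow hS _)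
  refine ⟨.seq dup (.seq ca (.seq swap (.seq cb (.seq (parse (fun _ => some true) (fun _ => none))
    (.seq unary (.seq (iterLoop cf) (.pop .m))))))),
    fun a => (14 * (x a).size + 4) + (Ta a + ((10 * (e (s a)).size + 10 * (x a).size + 6) +
      (Tb a + ((6 * (y a).size + 2) + ((4 * (y a).size + 2) +
      (((y a).size * (c' * (c * (x a).size ^ k) ^ k' + 20 * (c * (x a).size ^ k) +
        40 * (y a).size + 40) + 1) + 1)))))), ?_, fun a r => ?_⟩
  · refine PB.add (PB.add (PB.cmul _ (PB.size x)) (PB.const x _)) (PB.add hTa (PB.add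
      (PB.add (PB.add (PB.cmul _ hba) (PB.cmul _ (PB.size x))) (PB.const x _))
      (PB.add hTb (PB.add (PB.add (PB.cmul _ hbb) (PB.const x _))
      (PB.add (PB.add (PB.cmul _ hbb) (PB.const x _))
      (PB.add (PB.add (PB.mul hbb ?_) (PB.const x _)) (PB.const x _)))))))
    exact PB.add (PB.add (PB.add hτ (PB.cmul _ hS)) (PB.cmul _ hbb))
      (PB.const x _)
  · have h1 := dup_run (x a) r
    have h2 := ha a (code (x a) ++ r)
    have h3 := swap_run (e (s a)) (x a) r
    have h4 := hb' a (code (e (s a)) ++ r)
    have h5 := parse_run (fun _ => some true) (fun _ => none) (y a) (code (e (s a)) ++ r) [] []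
    simp only [List.filterMap_none, List.reverse_nil, List.append_nil] at h5
    have h6 := unary_run ((code (y a)).filterMap (fun _ => some true)).reverse
      (code (e (s a)) ++ r)
    have hlen : ((code (y a)).filterMap (fun _ => some true)).reverse.length = (y a).size := by
      rw [List.length_reverse, ← length_code (y a)]
      generalize code (y a) = l
      induction l with
      | nil => rfl
      | cons y l _ => simp
    rw [hlen] at h6
    have h7 := iterLoop_run hf (y a).size (c * (x a).size ^ k) (c' * (c * (x a).size ^ k) ^ k')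
      (y a).size le_rfl (s a) r (fun i hi => hck a i hi)
      (fun i hi => (hck' _).trans (Nat.mul_le_mul le_rfl (Nat.pow_le_pow_left (hck a i hi) _)))
    exact h1.seq (h2.seq (h3.seq (h4.seq (h5.seq (h6.seq (h7.seq Ex.pop_m))))))

end FP

end Pool.Agent.PolyTime
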