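import Mathlib

/-!
# Universal data for polynomial time computations

`D` is the type of binary trees.
-/

set_option autoImplicit false

namespace Pool.Agent.PolyTime

/-- Universal data: binary trees. -/
inductive D : Type
  | nil : D
  | cons : D → D → D
  deriving DecidableEq

namespace D

/-- number of nodes, leaves included -/
def size : D → ℕ
  | nil => 1
  | cons a b => size a + size b + 1

/-- first component -/
def hd : D → D
  | nil => nil
  | cons a _ => a

/-- second component -/
def tl : D → D
  | nil => nil
  | cons _ b => b

@[simp] lemma size_nil : size nil = 1 := rfl
@[simp] lemma size_cons (a b : D) : size (cons a b) = size a + size b + 1 := rfl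
@[simp] lemma hd_nil : hd nil = nil := rfl
@[simp] lemma hd_cons (a b : D) : hd (cons a b) = a := rfl
@[simp] lemma tl_nil : tl nil = nil := rfl
@[simp] lemma tl_cons (a b : D) : tl (cons a b) = b := rfl

lemma size_pos (x : D) : 1 ≤ size x := by
  cases x <;> simp

lemma size_hd_le (x : D) : size (hd x) ≤ size x := by
  cases x <;> simp; omega

lemma size_tl_le (x : D) : size (tl x) ≤ size x := by
  cases x <;> simp; omega

end D

end Pool.Agent.PolyTime
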