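import Pool.Agent.Lib.PolyTime.Base

/-!
The class `FP` and the theorem `fpClass : FPClass FP` are in `Pool.Agent.Lib.PolyTime.Base`.
-/
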